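import Mathlib

set_option autoImplicit false

namespace Pool.Agent.helper16

open Finset

/-- A quadratic potential argument: online balancing of loads. -/
theorem balance_aux {ι : Type*} [Fintype ι] [DecidableEq ι] {r : ℕ} (β K : ℝ) (hβ : 0 ≤ β)
    (hK : 0 ≤ K) (𝒬 : Set (Fin r → ι))
    (h𝒬 : ∀ (p : ι → ℝ) (h : Fin r → ℝ), (∀ X, 0 ≤ p X) → (∀ a, 0 ≤ h a) →
      ∃ Q ∈ 𝒬, ∑ a, h a * p (Q a) ≤ β * (∑ a, h a) * ∑ X, p X)
    (h : ℕ → Fin r → ℝ) (hnn : ∀ l a, 0 ≤ h l a) (hsum : ∀ l, ∑ a, h l a ≤ K) (M : ℕ) :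
    ∃ Q : ℕ → Fin r → ι, (∀ l, Q l ∈ 𝒬) ∧
      ∑ X, (max 0 (∑ l ∈ range M, ∑ a, (if Q l a = X then h l a else 0) - β * K * M)) ^ 2
        ≤ M * (K ^ 2 * (1 + Fintype.card ι * β ^ 2)) := by
  induction M with
  | zero =>
    obtain ⟨Q, hQ, _⟩ := h𝒬 (fun _ => 0) (fun _ => 0) (by simp) (by simp)
    refine ⟨fun _ => Q, fun _ => hQ, ?_⟩
    simp
  | succ M ih =>
    obtain ⟨Q, hQ, hpot⟩ := ih
    set L : ι → ℝ := fun X => ∑ l ∈ range M, ∑ a, (if Q l a = X then h l a else 0) - β * K * M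
      with hL
    set S : ι → ℝ := fun X => max 0 (L X) with hS
    have hSnn : ∀ X, 0 ≤ S X := fun X => le_max_left _ _
    obtain ⟨Q', hQ', hcost⟩ := h𝒬 S (h M) hSnn (hnn M)
    set v : ι → ℝ := fun X => ∑ a, (if Q' a = X then h M a else 0) with hv
    have hvnn : ∀ X, 0 ≤ v X := by
      intro X
      apply sum_nonneg
      intro a _
      split_ifs
      · exact hnn M a
      · exact le_rfl
    have hvK : ∀ X, v X ≤ K := by
      intro X
      refine le_trans ?_ (hsum M)
      apply sum_le_sum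
      intro a _
      split_ifs
      · exact le_rfl
      · exact hnn M a
    have hvsum : ∑ X, v X = ∑ a, h M a := by
      simp only [hv]
      rw [sum_comm]
      apply sum_congr rfl
      intro a _
      simp
    have hSv : ∑ X, S X * v X = ∑ a, h M a * S (Q' a) := by
      simp only [hv, mul_sum]
      rw [sum_comm]
      apply sum_congr rfl
      intro a _
      simp [mul_comm]
    have hSsum : 0 ≤ ∑ X, S X := sum_nonneg fun X _ => hSnn X
    have hcost' : ∑ X, S X * v X ≤ β * K * ∑ X, S X := by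
      rw [hSv]
      refine hcost.trans ?_
      apply mul_le_mul_of_nonneg_right _ hSsum
      exact mul_le_mul_of_nonneg_left (hsum M) hβ
    refine ⟨fun l => if l < M then Q l else Q', ?_, ?_⟩
    · intro l
      dsimp only
      split_ifs
      · exact hQ l
      · exact hQ'
    · have hload : ∀ X, ∑ l ∈ range (M+1), ∑ a, (if (if l < M then Q l else Q') a = X
            then h l a else 0) - β * K * ((M + 1 : ℕ) : ℝ) = L X + (v X - β * K) := by
        intro X
        rw [sum_range_succ]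
        have h1 : ∑ l ∈ range M, ∑ a, (if (if l < M then Q l else Q') a = X then h l a else 0)
            = ∑ l ∈ range M, ∑ a, (if Q l a = X then h l a else 0) := by
          apply sum_congr rfl
          intro l hl
          rw [mem_range] at hl
          rw [if_pos hl]
        rw [h1, if_neg (lt_irrefl M)]
        simp only [hL, hv]
        push_cast
        ring
      have hterm : ∀ X, (max 0 (L X + (v X - β * K))) ^ 2 ≤
          S X ^ 2 + 2 * (S X * v X) - 2 * (β * K) * S X + K * v X + (β * K) ^ 2 := by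
        intro X
        have h1 : (max 0 (L X + (v X - β * K))) ^ 2 ≤ (S X + (v X - β * K)) ^ 2 := by
          by_cases hneg : L X + (v X - β * K) ≤ 0
          · rw [max_eq_left hneg]
            simp only [ne_eq, OfNat.ofNat_ne_zero, not_false_eq_true, zero_pow]
            positivity
          · push Not at hneg
            rw [max_eq_right hneg.le]
            have : L X ≤ S X := le_max_right _ _
            apply pow_le_pow_left₀ hneg.le
            linarith
        have hβK : 0 ≤ β * K := mul_nonneg hβ hK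
        have h2 : v X * (β * K) ≥ 0 := mul_nonneg (hvnn X) hβK
        have h3 : v X ^ 2 ≤ K * v X := by
          nlinarith [hvnn X, hvK X]
        nlinarith
      calc ∑ X, (max 0 (∑ l ∈ range (M+1), ∑ a, (if (if l < M then Q l else Q') a = X
            then h l a else 0) - β * K * ((M + 1 : ℕ) : ℝ))) ^ 2
          = ∑ X, (max 0 (L X + (v X - β * K))) ^ 2 := by
            apply sum_congr rfl
            intro X _
            rw [hload X]
        _ ≤ ∑ X, (S X ^ 2 + 2 * (S X * v X) - 2 * (β * K) * S X + K * v X + (β * K) ^ 2) :=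
            sum_le_sum fun X _ => hterm X
        _ = ∑ X, S X ^ 2 + 2 * ∑ X, S X * v X - 2 * (β * K) * ∑ X, S X + K * ∑ X, v X
            + Fintype.card ι * (β * K) ^ 2 := by
            simp only [sum_add_distrib, sum_sub_distrib, mul_sum, sum_const, card_univ,
              nsmul_eq_mul]
        _ ≤ M * (K ^ 2 * (1 + Fintype.card ι * β ^ 2)) + K * K
            + Fintype.card ι * (β * K) ^ 2 := by
            rw [hvsum]
            have := mul_le_mul_of_nonneg_left (hsum M) hK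
            have h5 : ∑ X, S X ^ 2 ≤ M * (K ^ 2 * (1 + Fintype.card ι * β ^ 2)) := hpot
            linarith
        _ = ((M + 1 : ℕ) : ℝ) * (K ^ 2 * (1 + Fintype.card ι * β ^ 2)) := by
            push_cast
            ring

theorem balance {ι : Type*} [Fintype ι] [DecidableEq ι] {r : ℕ} (β K : ℝ) (hβ : 0 ≤ β)
    (hK : 0 ≤ K) (𝒬 : Set (Fin r → ι))
    (h𝒬 : ∀ (p : ι → ℝ) (h : Fin r → ℝ), (∀ X, 0 ≤ p X) → (∀ a, 0 ≤ h a) →
      ∃ Q ∈ 𝒬, ∑ a, h a * p (Q a) ≤ β * (∑ a, h a) * ∑ X, p X)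
    (h : ℕ → Fin r → ℝ) (hnn : ∀ l a, 0 ≤ h l a) (hsum : ∀ l, ∑ a, h l a ≤ K) (M : ℕ)
    (W : ℝ) (hW : 0 ≤ W) (hMW : M * (1 + Fintype.card ι * β ^ 2) ≤ W ^ 2) :
    ∃ Q : ℕ → Fin r → ι, (∀ l, Q l ∈ 𝒬) ∧
      ∀ X, ∑ l ∈ range M, ∑ a, (if Q l a = X then h l a else 0) ≤ β * K * M + K * W := by
  obtain ⟨Q, hQ, hpot⟩ := balance_aux β K hβ hK 𝒬 h𝒬 h hnn hsum M
  refine ⟨Q, hQ, ?_⟩
  intro X
  set L : ℝ := ∑ l ∈ range M, ∑ a, (if Q l a = X then h l a else 0) - β * K * M with hL
  have h1 : (max 0 L) ^ 2 ≤ (K * W) ^ 2 := by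
    calc (max 0 L) ^ 2 ≤ ∑ X, (max 0 (∑ l ∈ range M, ∑ a, (if Q l a = X then h l a else 0)
            - β * K * M)) ^ 2 :=
          single_le_sum (f := fun X => (max 0 (∑ l ∈ range M, ∑ a, (if Q l a = X then h l a else 0)
            - β * K * M)) ^ 2) (fun _ _ => sq_nonneg _) (mem_univ X)
      _ ≤ M * (K ^ 2 * (1 + Fintype.card ι * β ^ 2)) := hpot
      _ = K ^ 2 * (M * (1 + Fintype.card ι * β ^ 2)) := by ring
      _ ≤ K ^ 2 * W ^ 2 := mul_le_mul_of_nonneg_left hMW (sq_nonneg K)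
      _ = (K * W) ^ 2 := by ring
  have h2 : max 0 L ≤ K * W := le_of_sq_le_sq' h1 (mul_nonneg hK hW)
  have h3 : L ≤ K * W := (le_max_right _ _).trans h2
  linarith
where
  le_of_sq_le_sq' {a b : ℝ} (h : a ^ 2 ≤ b ^ 2) (hb : 0 ≤ b) : a ≤ b := abs_le_of_sq_le_sq' h hb |>.2

end Pool.Agent.helper16
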