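import Mathlib

set_option autoImplicit false

namespace Pool.Agent.helper16

open Finset

variable {ι : Type*}

/-- `Q` is an ordered `r`-clique of `Γ`. -/
def IsTup (Γ : SimpleGraph ι) {r : ℕ} (Q : Fin r → ι) : Prop :=
  ∀ a b, a ≠ b → Γ.Adj (Q a) (Q b)

/-- The graph on `r`-tuples: two ordered cliques are adjacent if they differ in one coordinate. -/
def tupGraph (Γ : SimpleGraph ι) (r : ℕ) : SimpleGraph (Fin r → ι) where
  Adj Q Q' := Q ≠ Q' ∧ IsTup Γ Q ∧ IsTup Γ Q' ∧ ∃ a, ∀ b, b ≠ a → Q b = Q' b
  symm := by
    constructor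
    rintro Q Q' ⟨h1, h2, h3, a, h4⟩
    exact ⟨h1.symm, h3, h2, a, fun b hb => (h4 b hb).symm⟩
  loopless := by
    constructor
    intro Q h
    exact h.1 rfl

lemma IsTup.injective {Γ : SimpleGraph ι} {r : ℕ} {Q : Fin r → ι} (h : IsTup Γ Q) :
    Function.Injective Q := by
  intro a b hab
  by_contra hne
  exact Γ.ne_of_adj (h a b hne) hab

lemma IsTup.comp {Γ : SimpleGraph ι} {r m : ℕ} {Q : Fin r → ι} (h : IsTup Γ Q)
    {σ : Fin m → Fin r} (hσ : Function.Injective σ) : IsTup Γ (Q ∘ σ) := by
  intro a b hab
  exact h _ _ (fun h' => hab (hσ h'))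

/-- Replacing coordinates one at a time. -/
lemma reach_swap {Γ : SimpleGraph ι} {r : ℕ} {Q Q' : Fin r → ι} (h : IsTup Γ Q)
    (h' : IsTup Γ Q') (hc : ∀ a b, a ≠ b → Γ.Adj (Q a) (Q' b)) :
    (tupGraph Γ r).Reachable Q Q' := by
  classical
  let mix : ℕ → Fin r → ι := fun k a => if a.val < k then Q' a else Q a
  have hmix : ∀ k, IsTup Γ (mix k) := by
    intro k a b hab
    simp only [mix]
    split_ifs with h1 h2 h2
    · exact h' a b hab
    · exact (hc b a hab.symm).symm
    · exact hc a b hab
    · exact h a b hab
  have h0 : mix 0 = Q := by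
    funext a; simp [mix]
  have hr : mix r = Q' := by
    funext a; simp [mix]
  have hstep : ∀ k, (tupGraph Γ r).Reachable Q (mix k) := by
    intro k
    induction k with
    | zero => rw [h0]
    | succ k ih =>
      refine ih.trans ?_
      by_cases heq : mix k = mix (k+1)
      · rw [heq]
      · by_cases hk : k < r
        · apply SimpleGraph.Adj.reachable
          refine ⟨heq, hmix k, hmix (k+1), ⟨k, hk⟩, ?_⟩
          intro b hb
          have hbk : b.val ≠ k := by
            intro h; apply hb; ext; exact h
          simp only [mix]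
          by_cases h1 : b.val < k
          · rw [if_pos h1, if_pos (by omega)]
          · rw [if_neg h1, if_neg (by omega)]
        · exfalso
          apply heq
          funext b
          have := b.isLt
          simp only [mix]
          rw [if_pos (by omega), if_pos (by omega)]
  have := hstep r
  rwa [hr] at this

/-- A walk of bounded length between reachable tuples, as a sequence. -/
lemma exists_seq {Γ : SimpleGraph ι} [Fintype ι] {r : ℕ} {Q Q' : Fin r → ι} (h : IsTup Γ Q)
    (hr : (tupGraph Γ r).Reachable Q Q') :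
    ∃ S : ℕ → Fin r → ι, S 0 = Q ∧ (∀ j, Fintype.card (Fin r → ι) ≤ j → S j = Q') ∧
      (∀ j, IsTup Γ (S j)) ∧ (∀ j, S j = S (j+1) ∨ ∃ a, ∀ b, b ≠ a → S j b = S (j+1) b) := by
  classical
  obtain ⟨p, hp⟩ := hr.exists_isPath
  have hlen := hp.length_lt
  refine ⟨fun j => p.getVert j, by simp, ?_, ?_, ?_⟩
  · intro j hj
    exact p.getVert_of_length_le (by omega)
  · -- all are tuples
    have hle : ∀ j, j ≤ p.length → IsTup Γ (p.getVert j) := by
      intro j hj
      rcases j with _ | j
      · simpa using h
      · have := p.adj_getVert_succ (i := j) (by omega)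
        exact this.2.2.1
    intro j
    by_cases hj : j ≤ p.length
    · exact hle j hj
    · show IsTup Γ (p.getVert j)
      rw [p.getVert_of_length_le (by omega : p.length ≤ j)]
      have := hle p.length le_rfl
      rwa [p.getVert_length] at this
  · intro j
    by_cases hj : j < p.length
    · right
      exact (p.adj_getVert_succ hj).2.2.2
    · left
      show p.getVert j = p.getVert (j+1)
      rw [p.getVert_of_length_le (by omega : p.length ≤ j),
        p.getVert_of_length_le (by omega : p.length ≤ j + 1)]

end Pool.Agent.helper16
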