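import Mathlib
import Pool.Agent.helper16.Tuple
import Pool.Agent.helper16.Balance

set_option autoImplicit false

namespace Pool.Agent.helper16

open Finset

/-- Assigning the vertices of a coloured graph of small bandwidth to the vertices of the reduced
graph, with controlled loads. -/
theorem assign {ι : Type*} [Fintype ι] [DecidableEq ι] (Γ : SimpleGraph ι) {r : ℕ}
    (𝒬 : Set (Fin r → ι)) (htup : ∀ Q ∈ 𝒬, IsTup Γ Q)
    (hreach : ∀ Q ∈ 𝒬, ∀ Q' ∈ 𝒬, (tupGraph Γ r).Reachable Q Q')
    (β : ℝ) (hβ : 0 ≤ β)
    (h𝒬 : ∀ (p : ι → ℝ) (h : Fin r → ℝ), (∀ X, 0 ≤ p X) → (∀ a, 0 ≤ h a) →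
      ∃ Q ∈ 𝒬, ∑ a, h a * p (Q a) ≤ β * (∑ a, h a) * ∑ X, p X)
    (col : ℕ → Fin r) (n q D M : ℕ) (hq : 0 < q) (hD : Fintype.card (Fin r → ι) < D)
    (hn : n ≤ M * (D * q))
    (W : ℝ) (hW : 0 ≤ W) (hMW : M * (1 + Fintype.card ι * β ^ 2) ≤ W ^ 2) :
    ∃ f : ℕ → ι, (∀ x y, x ≤ y + q → y ≤ x + q → col x ≠ col y → Γ.Adj (f x) (f y)) ∧
      ∀ X, (#{x ∈ range n | f x = X} : ℝ) ≤
        β * (D * q) * M + (D * q) * W + M * Fintype.card (Fin r → ι) * q := by
  classical
  have hDpos : 0 < D := by omega
  set K : ℕ := D * q with hK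
  have hKpos : 0 < K := Nat.mul_pos hDpos hq
  -- profiles
  set h : ℕ → Fin r → ℝ := fun l a => (#{x ∈ range n | x / K = l ∧ col x = a} : ℝ) with hh
  have hnn : ∀ l a, 0 ≤ h l a := fun l a => Nat.cast_nonneg _
  have hsum : ∀ l, ∑ a, h l a ≤ (K : ℝ) := by
    intro l
    have h1 : ∑ a, #{x ∈ range n | x / K = l ∧ col x = a} = #{x ∈ range n | x / K = l} := by
      rw [card_eq_sum_card_fiberwise (f := col) (t := univ) (by intro x _; simp)]
      apply sum_congr rfl
      intro a _
      rw [filter_filter]
    have h2 : #{x ∈ range n | x / K = l} ≤ K := by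
      calc #{x ∈ range n | x / K = l} ≤ #(Ico (l * K) (l * K + K)) := by
            apply card_le_card
            intro x
            simp only [mem_filter, mem_range, mem_Ico]
            rintro ⟨_, hx⟩
            rw [Nat.div_eq_iff hKpos] at hx
            have := hx.1
            have := hx.2
            constructor
            · omega
            · omega
        _ = K := by simp
    simp only [hh]
    exact_mod_cast h1 ▸ h2
  obtain ⟨Q, hQ, hload⟩ := balance β (K : ℝ) hβ (Nat.cast_nonneg _) 𝒬 h𝒬 h hnn hsum M W hW hMW
  -- the walks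
  have hwalk : ∀ l : ℕ, ∃ S : ℕ → Fin r → ι, S 0 = Q (l - 1) ∧
      (∀ j, Fintype.card (Fin r → ι) ≤ j → S j = Q l) ∧
      (∀ j, IsTup Γ (S j)) ∧ (∀ j, S j = S (j+1) ∨ ∃ a, ∀ b, b ≠ a → S j b = S (j+1) b) := by
    intro l
    exact exists_seq (htup _ (hQ _)) (hreach _ (hQ _) _ (hQ _))
  choose S hS0 hSend hStup hSstep using hwalk
  set P : ℕ → Fin r → ι := fun i => S (i / D) (i % D) with hP
  have hPtup : ∀ i, IsTup Γ (P i) := fun i => hStup _ _
  have hPstep : ∀ i, P i = P (i+1) ∨ ∃ a, ∀ b, b ≠ a → P i b = P (i+1) b := by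
    intro i
    by_cases hj : i % D + 1 < D
    · have h1 : (i + 1) / D = i / D := by
        rw [Nat.add_div hDpos, if_neg]
        · rw [Nat.div_eq_of_lt (by omega : 1 < D)]
          omega
        · rw [Nat.mod_eq_of_lt (by omega : 1 < D)]
          omega
      have h2 : (i + 1) % D = i % D + 1 := by
        rw [Nat.add_mod, Nat.mod_eq_of_lt (by omega : 1 < D), Nat.mod_eq_of_lt hj]
      simp only [hP, h1, h2]
      exact hSstep _ _
    · left
      have hlt : i % D < D := Nat.mod_lt _ hDpos
      have hj' : i % D = D - 1 := by omega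
      have h0 : D * (i / D) + i % D = i := Nat.div_add_mod i D
      have h3 : i + 1 = D * (i / D + 1) := by
        rw [Nat.mul_add]
        omega
      have h1 : (i + 1) / D = i / D + 1 := by
        rw [h3, Nat.mul_div_cancel_left _ hDpos]
      have h2 : (i + 1) % D = 0 := by
        rw [h3, Nat.mul_mod_right]
      simp only [hP, h1, h2]
      rw [hS0, hj', hSend _ _ (by omega)]
      simp
  have hPadj : ∀ i c c', c ≠ c' → Γ.Adj (P i c) (P (i+1) c') := by
    intro i c c' hcc
    rcases hPstep i with h1 | ⟨a, h1⟩
    · rw [← h1]; exact hPtup i c c' hcc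
    · by_cases hc' : c' = a
      · have hca : c ≠ a := by rw [← hc']; exact hcc
        rw [h1 c hca]
        exact hPtup (i+1) c c' hcc
      · rw [← h1 c' hc']
        exact hPtup i c c' hcc
  refine ⟨fun x => P (x / q) (col x), ?_, ?_⟩
  · intro x y hxy hyx hcol
    have h1 : x / q ≤ y / q + 1 := by
      calc x / q ≤ (y + q) / q := Nat.div_le_div_right hxy
        _ = y / q + 1 := by rw [Nat.add_div_right _ hq]
    have h2 : y / q ≤ x / q + 1 := by
      calc y / q ≤ (x + q) / q := Nat.div_le_div_right hyx
        _ = x / q + 1 := by rw [Nat.add_div_right _ hq]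
    dsimp only
    rcases lt_trichotomy (x / q) (y / q) with hlt | heq | hgt
    · have : y / q = x / q + 1 := by omega
      rw [this]
      exact hPadj _ _ _ hcol
    · rw [heq]
      exact hPtup _ _ _ hcol
    · have : x / q = y / q + 1 := by omega
      rw [this]
      exact (hPadj _ _ _ hcol.symm).symm
  · intro X
    dsimp only
    have hsub : ({x ∈ range n | P (x / q) (col x) = X} : Finset ℕ) ⊆
        {x ∈ range n | Q (x / K) (col x) = X} ∪
        {x ∈ range n | (x / q) % D < Fintype.card (Fin r → ι)} := by
      intro x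
      simp only [mem_filter, mem_range, mem_union]
      rintro ⟨hx, hPX⟩
      by_cases hlt : (x / q) % D < Fintype.card (Fin r → ι)
      · right; exact ⟨hx, hlt⟩
      · left
        refine ⟨hx, ?_⟩
        push Not at hlt
        simp only [hP] at hPX
        rw [hSend _ _ hlt] at hPX
        rw [Nat.div_div_eq_div_mul] at hPX
        have : q * D = K := by rw [hK]; ring
        rw [this] at hPX
        exact hPX
    have hcard1 : (#{x ∈ range n | Q (x / K) (col x) = X} : ℝ) ≤
        β * K * M + K * W := by
      refine le_trans (le_of_eq ?_) (hload X)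
      have h1 : #{x ∈ range n | Q (x / K) (col x) = X} =
          ∑ l ∈ range M, ∑ a, #{x ∈ range n | (Q (x / K) (col x) = X) ∧ (x / K = l ∧ col x = a)} := by
        rw [card_eq_sum_card_fiberwise (f := fun x => x / K) (t := range M)]
        · apply sum_congr rfl
          intro l _
          rw [card_eq_sum_card_fiberwise (f := col) (t := univ) (by intro x _; simp)]
          apply sum_congr rfl
          intro a _
          congr 1
          ext x
          simp only [mem_filter]
          tauto
        · intro x hx
          simp only [coe_filter, mem_range, Set.mem_ofPred_eq] at hx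
          simp only [coe_range, Set.mem_Iio]
          rw [Nat.div_lt_iff_lt_mul hKpos]
          have := hx.1
          omega
      rw [h1]
      push_cast
      apply sum_congr rfl
      intro l _
      apply sum_congr rfl
      intro a _
      split_ifs with hQX
      · simp only [hh]
        congr 2
        apply filter_congr
        intro x _
        constructor
        · rintro ⟨_, h⟩; exact h
        · rintro ⟨h1, h2⟩
          refine ⟨?_, h1, h2⟩
          rw [h1, h2]; exact hQX
      · rw [Nat.cast_eq_zero, card_eq_zero, filter_eq_empty_iff]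
        rintro x _ ⟨h1, h2, h3⟩
        rw [h2, h3] at h1
        exact hQX h1
    have hcard2 : #{x ∈ range n | (x / q) % D < Fintype.card (Fin r → ι)} ≤
        M * Fintype.card (Fin r → ι) * q := by
      have hinj : #{x ∈ range n | (x / q) % D < Fintype.card (Fin r → ι)} ≤
          #((range M ×ˢ range (Fintype.card (Fin r → ι))) ×ˢ range q) := by
        apply card_le_card_of_injOn (fun x => ((x / q / D, (x / q) % D), x % q))
        · intro x hx
          simp only [coe_filter, mem_range, Set.mem_ofPred_eq] at hx
          simp only [coe_product, coe_range, Set.mem_prod, Set.mem_Iio]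
          refine ⟨⟨?_, hx.2⟩, Nat.mod_lt _ hq⟩
          rw [Nat.div_div_eq_div_mul, Nat.div_lt_iff_lt_mul (by positivity)]
          have : q * D = K := by rw [hK]; ring
          rw [this]
          have := hx.1
          omega
        · intro x _ y _ hxy
          simp only [Prod.mk.injEq] at hxy
          obtain ⟨⟨h1, h2⟩, h3⟩ := hxy
          have h4 : x / q = y / q := by
            rw [← Nat.div_add_mod (x / q) D, ← Nat.div_add_mod (y / q) D, h1, h2]
          rw [← Nat.div_add_mod x q, ← Nat.div_add_mod y q, h4, h3]
      simpa using hinj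
    calc (#{x ∈ range n | P (x / q) (col x) = X} : ℝ)
        ≤ ((#({x ∈ range n | Q (x / K) (col x) = X} ∪
          {x ∈ range n | (x / q) % D < Fintype.card (Fin r → ι)}) : ℕ) : ℝ) := by
          exact_mod_cast card_le_card hsub
      _ ≤ (#{x ∈ range n | Q (x / K) (col x) = X} : ℝ) +
          (#{x ∈ range n | (x / q) % D < Fintype.card (Fin r → ι)} : ℝ) := by
          exact_mod_cast card_union_le _ _
      _ ≤ (β * K * M + K * W) + ((M * Fintype.card (Fin r → ι) * q : ℕ) : ℝ) := by
          apply add_le_add hcard1
          exact_mod_cast hcard2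
      _ = _ := by
          rw [hK]
          push_cast
          ring

end Pool.Agent.helper16
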