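import Mathlib
import Pool.Agent.helper16.Tuple

set_option autoImplicit false

namespace Pool.Agent.helper16

open Finset

variable {ι : Type*}

lemma IsTup.of_reachable {Γ : SimpleGraph ι} {r : ℕ} {Q Q' : Fin r → ι} (h : IsTup Γ Q)
    (hr : (tupGraph Γ r).Reachable Q Q') : IsTup Γ Q' := by
  obtain ⟨p⟩ := hr
  induction p with
  | nil => exact h
  | cons hadj p ih => exact ih hadj.2.2.1

lemma reach_comp {Γ : SimpleGraph ι} {r : ℕ} {Q Q' : Fin r → ι} (σ : Equiv.Perm (Fin r))
    (hr : (tupGraph Γ r).Reachable Q Q') : (tupGraph Γ r).Reachable (Q ∘ σ) (Q' ∘ σ) := by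
  let f : tupGraph Γ r →g tupGraph Γ r :=
    { toFun := fun Q => Q ∘ σ
      map_rel' := by
        rintro Q Q' ⟨h1, h2, h3, a, h4⟩
        refine ⟨?_, h2.comp σ.injective, h3.comp σ.injective, σ.symm a, ?_⟩
        · intro h
          apply h1
          funext b
          have := congrFun h (σ.symm b)
          simpa using this
        · intro b hb
          apply h4
          intro h
          apply hb
          rw [← h]
          simp }
  exact hr.map f

lemma reach_update {Γ : SimpleGraph ι} {r : ℕ} {Q : Fin r → ι} (h : IsTup Γ Q) (a : Fin r)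
    (z : ι) (hz : ∀ b, b ≠ a → Γ.Adj z (Q b)) :
    IsTup Γ (Function.update Q a z) ∧ (tupGraph Γ r).Reachable Q (Function.update Q a z) := by
  have h1 : IsTup Γ (Function.update Q a z) := by
    intro b c hbc
    by_cases hb : b = a
    · subst hb
      rw [Function.update_self, Function.update_of_ne hbc.symm]
      exact hz c hbc.symm
    · by_cases hc : c = a
      · subst hc
        rw [Function.update_self, Function.update_of_ne hb]
        exact (hz b hb).symm
      · rw [Function.update_of_ne hb, Function.update_of_ne hc]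
        exact h b c hbc
  refine ⟨h1, ?_⟩
  by_cases heq : Q = Function.update Q a z
  · rw [← heq]
  · apply SimpleGraph.Adj.reachable
    exact ⟨heq, h, h1, a, fun b hb => by rw [Function.update_of_ne hb]⟩

lemma reach_swap_hole {Γ : SimpleGraph ι} {r : ℕ} {x : Fin r → ι} (h : IsTup Γ x)
    (z : ι) (hz : ∀ b, Γ.Adj z (x b)) (a b : Fin r) :
    (tupGraph Γ r).Reachable x (x ∘ Equiv.swap a b) := by
  by_cases hab : a = b
  · subst hab
    simp
  obtain ⟨h1, r1⟩ := reach_update h a z (fun c _ => hz c)
  set x1 := Function.update x a z with hx1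
  obtain ⟨h2, r2⟩ := reach_update h1 b (x a) (by
    intro c hc
    by_cases hca : c = a
    · subst hca
      rw [hx1, Function.update_self]
      exact (hz c).symm
    · rw [hx1, Function.update_of_ne hca]
      exact h a c (fun h => hca h.symm))
  set x2 := Function.update x1 b (x a) with hx2
  obtain ⟨h3, r3⟩ := reach_update h2 a (x b) (by
    intro c hc
    by_cases hcb : c = b
    · subst hcb
      rw [hx2, Function.update_self]
      exact h c a hc
    · rw [hx2, Function.update_of_ne hcb, hx1, Function.update_of_ne hc]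
      exact h b c (fun h => hcb h.symm))
  have heq : Function.update x2 a (x b) = x ∘ Equiv.swap a b := by
    funext c
    by_cases hca : c = a
    · subst hca
      rw [Function.update_self]
      simp
    · rw [Function.update_of_ne hca]
      by_cases hcb : c = b
      · subst hcb
        rw [hx2, Function.update_self]
        simp
      · rw [hx2, Function.update_of_ne hcb, hx1, Function.update_of_ne hca]
        simp [Equiv.swap_apply_of_ne_of_ne hca hcb]
  rw [← heq]
  exact (r1.trans r2).trans r3

lemma reach_perm {Γ : SimpleGraph ι} {r : ℕ} {x : Fin r → ι} (h : IsTup Γ x)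
    (z : ι) (hz : ∀ b, Γ.Adj z (x b)) (σ : Equiv.Perm (Fin r)) :
    (tupGraph Γ r).Reachable x (x ∘ σ) := by
  induction σ using Equiv.Perm.swap_induction_on with
  | one => simp
  | swap_mul f a b hab ih =>
    have h1 := reach_swap_hole h z hz a b
    have h2 := reach_comp f h1
    have h3 : (x ∘ Equiv.swap a b) ∘ f = x ∘ (Equiv.swap a b * f : Equiv.Perm (Fin r)) := by
      funext c
      simp
    rw [h3] at h2
    exact ih.trans h2

/-- An enumeration of a finset of size `r`. -/
lemma exists_tup (F : Finset ι) {r : ℕ} (hF : #F = r) :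
    ∃ Q : Fin r → ι, Function.Injective Q ∧ (∀ a, Q a ∈ F) ∧
      ∀ p : ι → ℝ, ∑ a, p (Q a) = ∑ x ∈ F, p x := by
  classical
  let e := F.equivFinOfCardEq hF
  refine ⟨fun a => (e.symm a : ι), ?_, ?_, ?_⟩
  · intro a b hab
    exact e.symm.injective (Subtype.ext hab)
  · intro a
    exact (e.symm a).2
  · intro p
    rw [← Finset.sum_coe_sort F]
    exact Equiv.sum_comp e.symm (fun x : F => p x)

lemma isTup_of_clique {Γ : SimpleGraph ι} {r : ℕ} {Q : Fin r → ι} (hQ : Function.Injective Q)
    {A : Finset ι} (hA : ∀ x ∈ A, ∀ y ∈ A, x ≠ y → Γ.Adj x y) (hQA : ∀ a, Q a ∈ A) :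
    IsTup Γ Q := by
  intro a b hab
  exact hA _ (hQA a) _ (hQA b) (fun h => hab (hQ h))

/-- All tuples in a large clique are connected. -/
lemma reach_in_clique {Γ : SimpleGraph ι} {r : ℕ} {Q Q' : Fin r → ι}
    (hQ : Function.Injective Q) (hQ' : Function.Injective Q')
    {A : Finset ι} (hA : ∀ x ∈ A, ∀ y ∈ A, x ≠ y → Γ.Adj x y) (hcard : 3 * r ≤ #A)
    (hQA : ∀ a, Q a ∈ A) (hQA' : ∀ a, Q' a ∈ A) :
    (tupGraph Γ r).Reachable Q Q' := by
  classical
  set R : Finset ι := (univ.image Q) ∪ (univ.image Q') with hR
  have hRcard : #R ≤ 2 * r := by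
    calc #R ≤ #(univ.image Q) + #(univ.image Q') := card_union_le _ _
      _ ≤ r + r := by
        apply Nat.add_le_add <;>
        · refine card_image_le.trans ?_
          simp
      _ = 2 * r := by ring
  have h1 : r ≤ #(A \ R) := by
    have := le_card_sdiff R A
    omega
  obtain ⟨F, hF, hFc⟩ := exists_subset_card_eq h1
  obtain ⟨P, hP, hPF, _⟩ := exists_tup F hFc
  have hPA : ∀ a, P a ∈ A := fun a => (mem_sdiff.1 (hF (hPF a))).1
  have hPR : ∀ a, P a ∉ R := fun a => (mem_sdiff.1 (hF (hPF a))).2
  have tP := isTup_of_clique hP hA hPA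
  have tQ := isTup_of_clique hQ hA hQA
  have tQ' := isTup_of_clique hQ' hA hQA'
  have r1 : (tupGraph Γ r).Reachable Q P := by
    apply reach_swap tQ tP
    intro a b _
    apply hA _ (hQA a) _ (hPA b)
    intro h
    apply hPR b
    rw [← h, hR]
    simp
  have r2 : (tupGraph Γ r).Reachable Q' P := by
    apply reach_swap tQ' tP
    intro a b _
    apply hA _ (hQA' a) _ (hPA b)
    intro h
    apply hPR b
    rw [← h, hR]
    simp
  exact r1.trans r2.symm

end Pool.Agent.helper16
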