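import Mathlib
import Pool.Agent.helper16.Reach

set_option autoImplicit false

namespace Pool.Agent.helper16

open Finset

variable {ι J : Type*}

/-- A typical family of sets contains a clique transversal through prescribed large subsets. -/
lemma exists_transversal [DecidableEq ι] [Fintype J] [DecidableEq J] (Γ : SimpleGraph ι)
    [DecidableRel Γ.Adj]
    (U P : J → Finset ι) (hP : ∀ j, P j ⊆ U j) (δ : ℝ) (hδ : 0 ≤ δ)
    (htyp : ∀ j j', j ≠ j' → ∀ u ∈ U j, (#{u' ∈ U j' | ¬ Γ.Adj u u'} : ℝ) ≤ δ * #(U j'))
    (hcard : ∀ j, δ * Fintype.card J * #(U j) < #(P j)) :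
    ∃ u : J → ι, (∀ j, u j ∈ P j) ∧ ∀ j j', j ≠ j' → Γ.Adj (u j) (u j') := by
  classical
  have key : ∀ T : Finset J, ∃ u : J → ι, (∀ j, u j ∈ P j) ∧
      ∀ j ∈ T, ∀ j' ∈ T, j ≠ j' → Γ.Adj (u j) (u j') := by
    intro T
    induction T using Finset.induction_on with
    | empty =>
      have hne : ∀ j, (P j).Nonempty := by
        intro j
        rw [← card_pos]
        have h1 := hcard j
        have h2 : 0 ≤ δ * Fintype.card J * #(U j) := by positivity
        have h3 : (0:ℝ) < #(P j) := lt_of_le_of_lt h2 h1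
        exact_mod_cast h3
      exact ⟨fun j => (hne j).choose, fun j => (hne j).choose_spec, by simp⟩
    | insert j0 T hj0 ih =>
      obtain ⟨u, hu, hadj⟩ := ih
      set bad : Finset ι := T.biUnion fun j => {u' ∈ U j0 | ¬ Γ.Adj (u j) u'} with hbad
      have hbadcard : (bad.card : ℝ) ≤ #T * (δ * #(U j0)) := by
        calc (bad.card : ℝ) ≤ ((∑ j ∈ T, #{u' ∈ U j0 | ¬ Γ.Adj (u j) u'} : ℕ) : ℝ) := by
              exact_mod_cast card_biUnion_le
          _ = ∑ j ∈ T, (#{u' ∈ U j0 | ¬ Γ.Adj (u j) u'} : ℝ) := by push_cast; rfl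
          _ ≤ ∑ j ∈ T, δ * #(U j0) := by
              apply sum_le_sum
              intro j hj
              apply htyp j j0 _ (u j) (hP j (hu j))
              rintro rfl
              exact hj0 hj
          _ = #T * (δ * #(U j0)) := by rw [sum_const, nsmul_eq_mul]
      have hTJ : (#T : ℝ) ≤ Fintype.card J := by
        exact_mod_cast card_le_univ T
      have hlt : (bad.card : ℝ) < #(P j0) := by
        calc (bad.card : ℝ) ≤ #T * (δ * #(U j0)) := hbadcard
          _ ≤ Fintype.card J * (δ * #(U j0)) := by
              apply mul_le_mul_of_nonneg_right hTJ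
              positivity
          _ = δ * Fintype.card J * #(U j0) := by ring
          _ < #(P j0) := hcard j0
      have hex : ∃ v ∈ P j0, v ∉ bad := by
        by_contra hcon
        push Not at hcon
        have := card_le_card (show P j0 ⊆ bad from hcon)
        have : (#(P j0) : ℝ) ≤ bad.card := by exact_mod_cast this
        linarith
      obtain ⟨v, hv, hvbad⟩ := hex
      have hvadj : ∀ j ∈ T, Γ.Adj (u j) v := by
        intro j hj
        by_contra hcon
        apply hvbad
        rw [hbad, mem_biUnion]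
        exact ⟨j, hj, mem_filter.2 ⟨hP j0 hv, hcon⟩⟩
      refine ⟨Function.update u j0 v, ?_, ?_⟩
      · intro j
        by_cases h : j = j0
        · subst h; rw [Function.update_self]; exact hv
        · rw [Function.update_of_ne h]; exact hu j
      · intro j hj j' hj' hne
        rw [mem_insert] at hj hj'
        by_cases h : j = j0
        · subst h
          rw [Function.update_self, Function.update_of_ne hne.symm]
          have : j' ∈ T := by
            rcases hj' with h' | h'
            · exact (hne h'.symm).elim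
            · exact h'
          exact (hvadj j' this).symm
        · rw [Function.update_of_ne h]
          have hjT : j ∈ T := hj.resolve_left h
          by_cases h' : j' = j0
          · subst h'
            rw [Function.update_self]
            exact hvadj j hjT
          · rw [Function.update_of_ne h']
            exact hadj j hjT j' (hj'.resolve_left h') hne
  obtain ⟨u, hu, hadj⟩ := key univ
  exact ⟨u, hu, fun j j' hne => hadj j (mem_univ _) j' (mem_univ _) hne⟩

/-- Cleaning: pass to the typical vertices. -/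
lemma clean [DecidableEq ι] [Fintype J] [DecidableEq J] (Γ : SimpleGraph ι) [DecidableRel Γ.Adj]
    (G : J → Finset ι) (δ2 δ3 : ℝ) (hδ2 : 0 ≤ δ2) (hδ3 : 0 < δ3) (hsmall : Fintype.card J * δ2 ≤ 1 / 2)
    (hfew : ∀ j j', j ≠ j' →
      (#{e ∈ G j ×ˢ G j' | ¬ Γ.Adj e.1 e.2} : ℝ) ≤ δ2 * δ3 * #(G j) * #(G j')) :
    ∃ G' : J → Finset ι, (∀ j, G' j ⊆ G j) ∧
      (∀ j, (1 - Fintype.card J * δ2) * #(G j) ≤ #(G' j)) ∧
      ∀ j j', j ≠ j' → ∀ u ∈ G' j,
        (#{u' ∈ G' j' | ¬ Γ.Adj u u'} : ℝ) ≤ (2 * δ3) * #(G' j') := by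
  classical
  set G' : J → Finset ι := fun j =>
    {v ∈ G j | ∀ j', j ≠ j' → (#{u ∈ G j' | ¬ Γ.Adj v u} : ℝ) ≤ δ3 * #(G j')} with hG'
  have hsub : ∀ j, G' j ⊆ G j := fun j => filter_subset _ _
  have hcard : ∀ j, (1 - Fintype.card J * δ2) * #(G j) ≤ #(G' j) := by
    intro j
    set B : J → Finset ι := fun j' =>
      {v ∈ G j | j ≠ j' ∧ δ3 * #(G j') < (#{u ∈ G j' | ¬ Γ.Adj v u} : ℝ)} with hB
    have hcover : G j ⊆ G' j ∪ univ.biUnion B := by
      intro v hv
      by_cases h : v ∈ G' j
      · exact mem_union_left _ h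
      · apply mem_union_right
        simp only [hG', mem_filter, not_and, not_forall] at h
        obtain ⟨j', hj', hlt⟩ := h hv
        rw [mem_biUnion]
        refine ⟨j', mem_univ _, ?_⟩
        simp only [hB, mem_filter]
        push Not at hlt
        exact ⟨hv, hj', hlt⟩
    have hBcard : ∀ j', (#(B j') : ℝ) ≤ δ2 * #(G j) := by
      intro j'
      by_cases hjj : j = j'
      · have : B j' = ∅ := by
          simp only [hB, filter_eq_empty_iff]
          rintro v _ ⟨h, _⟩
          exact h hjj
        rw [this]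
        simp only [card_empty, Nat.cast_zero]
        positivity
      · by_cases h0 : #(G j') = 0
        · have : B j' = ∅ := by
            simp only [hB, filter_eq_empty_iff]
            rintro v _ ⟨_, h⟩
            rw [card_eq_zero] at h0
            rw [h0] at h
            simp at h
          rw [this]
          simp only [card_empty, Nat.cast_zero]
          positivity
        · have hpos : (0:ℝ) < #(G j') := by
            have : 0 < #(G j') := Nat.pos_of_ne_zero h0
            exact_mod_cast this
          have h1 : (#(B j') : ℝ) * (δ3 * #(G j')) ≤ δ2 * δ3 * #(G j) * #(G j') := by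
            calc (#(B j') : ℝ) * (δ3 * #(G j')) = ∑ v ∈ B j', δ3 * #(G j') := by
                  rw [sum_const, nsmul_eq_mul]
              _ ≤ ∑ v ∈ B j', (#{u ∈ G j' | ¬ Γ.Adj v u} : ℝ) := by
                  apply sum_le_sum
                  intro v hv
                  exact (mem_filter.1 hv).2.2.le
              _ ≤ ∑ v ∈ G j, (#{u ∈ G j' | ¬ Γ.Adj v u} : ℝ) := by
                  apply sum_le_sum_of_subset_of_nonneg (filter_subset _ _)
                  intro _ _ _
                  positivity
              _ = (#{e ∈ G j ×ˢ G j' | ¬ Γ.Adj e.1 e.2} : ℝ) := by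
                  rw [← Nat.cast_sum]
                  congr 1
                  rw [card_filter, sum_product]
                  apply sum_congr rfl
                  intro v _
                  rw [card_filter]
              _ ≤ _ := hfew j j' hjj
          have h2 : (#(B j') : ℝ) * (δ3 * #(G j')) ≤ (δ2 * #(G j)) * (δ3 * #(G j')) := by
            linarith
          exact le_of_mul_le_mul_right h2 (by positivity)
    have h1 : (#(G j) : ℝ) ≤ #(G' j) + ∑ j' : J, (#(B j') : ℝ) := by
      have h2 : #(G j) ≤ #(G' j) + ∑ j' : J, #(B j') := by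
        calc #(G j) ≤ #(G' j ∪ univ.biUnion B) := card_le_card hcover
          _ ≤ #(G' j) + #(univ.biUnion B) := card_union_le _ _
          _ ≤ _ := Nat.add_le_add_left card_biUnion_le _
      exact_mod_cast h2
    have h2 : ∑ j' : J, (#(B j') : ℝ) ≤ Fintype.card J * (δ2 * #(G j)) := by
      calc ∑ j' : J, (#(B j') : ℝ) ≤ ∑ j' : J, δ2 * #(G j) := sum_le_sum fun j' _ => hBcard j'
        _ = _ := by rw [sum_const, nsmul_eq_mul, card_univ]
    nlinarith
  refine ⟨G', hsub, hcard, ?_⟩
  intro j j' hjj u hu
  have h1 : (#{u' ∈ G' j' | ¬ Γ.Adj u u'} : ℝ) ≤ (#{u' ∈ G j' | ¬ Γ.Adj u u'} : ℝ) := by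
    have : #{u' ∈ G' j' | ¬ Γ.Adj u u'} ≤ #{u' ∈ G j' | ¬ Γ.Adj u u'} :=
      card_le_card (filter_subset_filter _ (hsub j'))
    exact_mod_cast this
  have h2 : (#{u' ∈ G j' | ¬ Γ.Adj u u'} : ℝ) ≤ δ3 * #(G j') := by
    have := (mem_filter.1 hu).2 j' hjj
    exact this
  have h3 : (#(G j') : ℝ) ≤ 2 * #(G' j') := by
    have := hcard j'
    have h4 : (0:ℝ) ≤ #(G j') := Nat.cast_nonneg _
    nlinarith
  calc _ ≤ δ3 * #(G j') := h1.trans h2
    _ ≤ δ3 * (2 * #(G' j')) := mul_le_mul_of_nonneg_left h3 hδ3.le
    _ = _ := by ring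

end Pool.Agent.helper16
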