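import Mathlib
import Pool.Agent.helper16.Transversal

set_option autoImplicit false

namespace Pool.Agent.helper16

open Finset

variable {ι : Type*}

/-- `Γ` has a connected family of ordered `r`-cliques such that every price function has a cheap
member; by duality this is the same as a large fractional clique tiling. -/
def Rich [Fintype ι] (Γ : SimpleGraph ι) (r : ℕ) (B : ℝ) : Prop :=
  ∃ Q0 : Fin r → ι, IsTup Γ Q0 ∧
    (∀ σ : Equiv.Perm (Fin r), (tupGraph Γ r).Reachable Q0 (Q0 ∘ σ)) ∧
    ∀ p : ι → ℝ, (∀ X, 0 ≤ p X) →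
      ∃ Q, (tupGraph Γ r).Reachable Q0 Q ∧ ∑ a, p (Q a) ≤ B * ∑ X, p X

lemma markov (S : Finset ι) (f : ι → ℝ) (hf : ∀ v ∈ S, 0 ≤ f v) (c : ℝ) (hc : 0 ≤ c) :
    c * (#{v ∈ S | c * ∑ w ∈ S, f w < f v * #S} : ℝ) ≤ #S := by
  classical
  set bad : Finset ι := {v ∈ S | c * ∑ w ∈ S, f w < f v * #S} with hbad
  have hsum0 : 0 ≤ ∑ w ∈ S, f w := sum_nonneg hf
  by_cases h0 : ∑ w ∈ S, f w = 0
  · have : bad = ∅ := by
      rw [hbad, filter_eq_empty_iff]
      intro v hv hlt
      rw [h0, mul_zero] at hlt
      have h1 : f v = 0 := by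
        have := (sum_eq_zero_iff_of_nonneg hf).1 h0 v hv
        exact this
      rw [h1, zero_mul] at hlt
      exact lt_irrefl _ hlt
    rw [this]
    simp
  · have hpos : 0 < ∑ w ∈ S, f w := lt_of_le_of_ne hsum0 (Ne.symm h0)
    have h1 : (bad.card : ℝ) * (c * ∑ w ∈ S, f w) ≤ (∑ w ∈ S, f w) * #S := by
      calc (bad.card : ℝ) * (c * ∑ w ∈ S, f w) = ∑ v ∈ bad, c * ∑ w ∈ S, f w := by
            rw [sum_const, nsmul_eq_mul]
        _ ≤ ∑ v ∈ bad, f v * #S := sum_le_sum fun v hv => (mem_filter.1 hv).2.le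
        _ = (∑ v ∈ bad, f v) * #S := by rw [sum_mul]
        _ ≤ (∑ w ∈ S, f w) * #S := by
            apply mul_le_mul_of_nonneg_right _ (Nat.cast_nonneg _)
            apply sum_le_sum_of_subset_of_nonneg (filter_subset _ _)
            intro v hv _
            exact hf v hv
    have h2 : (c * bad.card) * (∑ w ∈ S, f w) ≤ #S * (∑ w ∈ S, f w) := by linarith
    exact le_of_mul_le_mul_right h2 hpos

lemma card_filter_compl_real (S : Finset ι) (P : ι → Prop) [DecidablePred P] :
    (#{v ∈ S | P v} : ℝ) = #S - #{v ∈ S | ¬ P v} := by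
  have := card_filter_add_card_filter_not (s := S) P
  have h : (#{v ∈ S | P v} : ℝ) + #{v ∈ S | ¬ P v} = #S := by exact_mod_cast this
  linarith

/-- `r + 1` large groups which are almost completely joined in `Γ` make `Γ` rich. -/
theorem rich_of_groups [Fintype ι] [DecidableEq ι] (Γ : SimpleGraph ι) [DecidableRel Γ.Adj]
    (r : ℕ) (B : ℝ) (hB : 0 < B) (G : Fin (r+1) → Finset ι)
    (hdisj : ∀ k l, k ≠ l → Disjoint (G k) (G l))
    (δ2 δ3 : ℝ) (hδ2 : 0 ≤ δ2) (hδ3 : 0 < δ3)
    (hs2 : (r + 1) * δ2 ≤ 1 / 2) (hs3 : (r + 1) * δ3 ≤ 1 / 8)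
    (hfew : ∀ j j', j ≠ j' →
      (#{e ∈ G j ×ˢ G j' | ¬ Γ.Adj e.1 e.2} : ℝ) ≤ δ2 * δ3 * #(G j) * #(G j'))
    (hbig : ∀ k, 4 ≤ B * #(G k)) : Rich Γ r B := by
  classical
  obtain ⟨G', hsub, hcard, htyp⟩ := clean Γ G δ2 δ3 hδ2 hδ3 (by
    rw [Fintype.card_fin]; push_cast; exact hs2) hfew
  have hhalf : ∀ k, (#(G k) : ℝ) ≤ 2 * #(G' k) := by
    intro k
    have h1 := hcard k
    rw [Fintype.card_fin] at h1
    push_cast at h1
    have h4 : (0:ℝ) ≤ #(G k) := Nat.cast_nonneg _
    nlinarith
  have hG'pos : ∀ k, (0:ℝ) < #(G' k) := by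
    intro k
    have h1 := hbig k
    have h2 := hhalf k
    have h3 : (0:ℝ) < #(G k) := by
      by_contra hcon
      push Not at hcon
      nlinarith
    linarith
  have hB' : ∀ k, 2 ≤ B * #(G' k) := by
    intro k
    have h1 := hbig k
    have h2 := hhalf k
    nlinarith
  have hdelta : (2 * δ3) * ((r:ℝ) + 1) ≤ 1 / 4 := by linarith
  -- base transversal
  obtain ⟨w, hw, hwadj⟩ := exists_transversal Γ G' G' (fun _ => Subset.rfl) (2 * δ3)
    (by positivity) htyp (by
      intro j
      rw [Fintype.card_fin]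
      push_cast
      have := hG'pos j
      nlinarith)
  set Q0 : Fin r → ι := w ∘ Fin.castSucc with hQ0
  have hwt : IsTup Γ w := hwadj
  have htQ0 : IsTup Γ Q0 := hwt.comp (Fin.castSucc_injective r)
  refine ⟨Q0, htQ0, ?_, ?_⟩
  · intro σ
    apply reach_perm htQ0 (w (Fin.last r))
    intro b
    apply hwadj
    intro h
    have := Fin.castSucc_lt_last b
    rw [← h] at this
    exact lt_irrefl _ this
  · intro p hp
    -- cheap halves
    set P : Fin (r+1) → Finset ι := fun k =>
      {v ∈ G' k | ¬ (2 * ∑ u ∈ G' k, p u < p v * #(G' k))} with hP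
    have hPcard : ∀ k, (#(G' k) : ℝ) / 2 ≤ #(P k) := by
      intro k
      have h1 := markov (G' k) p (fun v _ => hp v) 2 (by norm_num)
      have h2 := card_filter_compl_real (G' k)
        (fun v => ¬ (2 * ∑ u ∈ G' k, p u < p v * #(G' k)))
      simp only [not_not] at h2
      simp only [hP]
      rw [h2]
      linarith
    obtain ⟨v, hv, hvadj⟩ := exists_transversal Γ G' P (fun _ => filter_subset _ _) (2 * δ3)
      (by positivity) htyp (by
        intro j
        rw [Fintype.card_fin]
        push_cast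
        have := hG'pos j
        have := hPcard j
        nlinarith)
    have hvt : IsTup Γ v := hvadj
    have hvG : ∀ k, v k ∈ G' k := fun k => (mem_filter.1 (hv k)).1
    refine ⟨v ∘ Fin.castSucc, ?_, ?_⟩
    · -- common neighbours
      set P2 : Fin (r+1) → Finset ι := fun k =>
        {z ∈ G' k | ∀ l, l ≠ k → Γ.Adj (w l) z ∧ Γ.Adj (v l) z} with hP2
      have hP2card : ∀ k, (#(G' k) : ℝ) - 2 * (r + 1) * ((2 * δ3) * #(G' k)) ≤ #(P2 k) := by
        intro k
        have h2 := card_filter_compl_real (G' k)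
          (fun z => ∀ l, l ≠ k → Γ.Adj (w l) z ∧ Γ.Adj (v l) z)
        have h3 : (#{z ∈ G' k | ¬ ∀ l, l ≠ k → Γ.Adj (w l) z ∧ Γ.Adj (v l) z} : ℝ) ≤
            2 * (r + 1) * ((2 * δ3) * #(G' k)) := by
          have hcov : ({z ∈ G' k | ¬ ∀ l, l ≠ k → Γ.Adj (w l) z ∧ Γ.Adj (v l) z} : Finset ι) ⊆
              (univ.filter (fun l => l ≠ k)).biUnion fun l =>
                ({z ∈ G' k | ¬ Γ.Adj (w l) z} ∪ {z ∈ G' k | ¬ Γ.Adj (v l) z}) := by
            intro z hz
            simp only [mem_filter, not_forall] at hz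
            obtain ⟨hzG, l, hl, hz2⟩ := hz
            rw [mem_biUnion]
            refine ⟨l, by simp [hl], ?_⟩
            rw [mem_union, mem_filter, mem_filter]
            by_cases h : Γ.Adj (w l) z
            · right
              exact ⟨hzG, fun h' => hz2 ⟨h, h'⟩⟩
            · left
              exact ⟨hzG, h⟩
          calc (#{z ∈ G' k | ¬ ∀ l, l ≠ k → Γ.Adj (w l) z ∧ Γ.Adj (v l) z} : ℝ)
              ≤ (#((univ.filter (fun l => l ≠ k)).biUnion fun l =>
                ({z ∈ G' k | ¬ Γ.Adj (w l) z} ∪ {z ∈ G' k | ¬ Γ.Adj (v l) z})) : ℝ) := by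
                exact_mod_cast card_le_card hcov
            _ ≤ ((∑ l ∈ univ.filter (fun l => l ≠ k),
                #({z ∈ G' k | ¬ Γ.Adj (w l) z} ∪ {z ∈ G' k | ¬ Γ.Adj (v l) z}) : ℕ) : ℝ) := by
                exact_mod_cast card_biUnion_le
            _ = ∑ l ∈ univ.filter (fun l => l ≠ k),
                (#({z ∈ G' k | ¬ Γ.Adj (w l) z} ∪ {z ∈ G' k | ¬ Γ.Adj (v l) z}) : ℝ) := by
                push_cast; rfl
            _ ≤ ∑ l ∈ univ.filter (fun l => l ≠ k), (2 * ((2 * δ3) * #(G' k))) := by
                apply sum_le_sum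
                intro l hl
                have hlk : l ≠ k := (mem_filter.1 hl).2
                have h5 := htyp l k hlk (w l) (hw l)
                have h6 := htyp l k hlk (v l) (hvG l)
                have h7 : (#({z ∈ G' k | ¬ Γ.Adj (w l) z} ∪ {z ∈ G' k | ¬ Γ.Adj (v l) z}) : ℝ) ≤
                    #{z ∈ G' k | ¬ Γ.Adj (w l) z} + #{z ∈ G' k | ¬ Γ.Adj (v l) z} := by
                  exact_mod_cast card_union_le _ _
                linarith
            _ ≤ ∑ l : Fin (r+1), (2 * ((2 * δ3) * #(G' k))) := by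
                apply sum_le_sum_of_subset_of_nonneg (filter_subset _ _)
                intro _ _ _
                positivity
            _ = 2 * (r + 1) * ((2 * δ3) * #(G' k)) := by
                rw [sum_const, nsmul_eq_mul, card_univ, Fintype.card_fin]
                push_cast
                ring
        simp only [hP2]
        linarith
      obtain ⟨z, hz, hzadj⟩ := exists_transversal Γ G' P2 (fun _ => filter_subset _ _) (2 * δ3)
        (by positivity) htyp (by
          intro j
          rw [Fintype.card_fin]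
          push_cast
          have h1 := hG'pos j
          have h2 := hP2card j
          have h3 : (2 * δ3 * ((r:ℝ) + 1)) * #(G' j) ≤ 1 / 4 * #(G' j) :=
            mul_le_mul_of_nonneg_right hdelta h1.le
          nlinarith)
      have hzt : IsTup Γ z := hzadj
      have r1 : (tupGraph Γ r).Reachable Q0 (z ∘ Fin.castSucc) := by
        apply reach_swap htQ0 (hzt.comp (Fin.castSucc_injective r))
        intro a b hab
        have h1 := (mem_filter.1 (hz (Fin.castSucc b))).2 (Fin.castSucc a)
          (fun h => hab (Fin.castSucc_injective r h))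
        exact h1.1
      have r2 : (tupGraph Γ r).Reachable (v ∘ Fin.castSucc) (z ∘ Fin.castSucc) := by
        apply reach_swap (hvt.comp (Fin.castSucc_injective r))
          (hzt.comp (Fin.castSucc_injective r))
        intro a b hab
        have h1 := (mem_filter.1 (hz (Fin.castSucc b))).2 (Fin.castSucc a)
          (fun h => hab (Fin.castSucc_injective r h))
        exact h1.2
      exact r1.trans r2.symm
    · -- cost
      have hcost : ∀ k, p (v k) ≤ B * ∑ u ∈ G' k, p u := by
        intro k
        have h1 : p (v k) * #(G' k) ≤ 2 * ∑ u ∈ G' k, p u := not_lt.1 (mem_filter.1 (hv k)).2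
        have h2 := hG'pos k
        have h3 : 0 ≤ ∑ u ∈ G' k, p u := sum_nonneg fun u _ => hp u
        have h4 : p (v k) * #(G' k) ≤ (B * ∑ u ∈ G' k, p u) * #(G' k) := by
          have := hB' k
          nlinarith
        exact le_of_mul_le_mul_right h4 h2
      calc ∑ a : Fin r, p ((v ∘ Fin.castSucc) a) ≤ ∑ k : Fin (r+1), p (v k) := by
            rw [Fin.sum_univ_castSucc (fun k => p (v k))]
            have := hp (v (Fin.last r))
            simp only [Function.comp]
            linarith
        _ ≤ ∑ k : Fin (r+1), B * ∑ u ∈ G' k, p u := sum_le_sum fun k _ => hcost k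
        _ = B * ∑ k : Fin (r+1), ∑ u ∈ G' k, p u := by rw [mul_sum]
        _ = B * ∑ u ∈ univ.biUnion G', p u := by
            rw [sum_biUnion]
            intro k _ l _ hkl
            exact disjoint_of_subset_left (hsub k) (disjoint_of_subset_right (hsub l)
              (hdisj k l hkl))
        _ ≤ B * ∑ X, p X := by
            apply mul_le_mul_of_nonneg_left _ hB.le
            apply sum_le_sum_of_subset_of_nonneg (subset_univ _)
            intro X _ _
            exact hp X

end Pool.Agent.helper16
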