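import Mathlib
import Pool.Agent.helper16.Groups

set_option autoImplicit false

namespace Pool.Agent.helper16

open Finset

variable {ι : Type*}

lemma exists_cheap_subset (A : Finset ι) (p : ι → ℝ) (k : ℕ) (hk : k ≤ #A) :
    ∃ S ⊆ A, #S = k ∧ (#A : ℝ) * ∑ x ∈ S, p x ≤ k * ∑ x ∈ A, p x := by
  classical
  have key : ∀ j : ℕ, j ≤ #A → ∃ S ⊆ A, #S = #A - j ∧
      (#A : ℝ) * ∑ x ∈ S, p x ≤ ((#A - j : ℕ) : ℝ) * ∑ x ∈ A, p x := by
    intro j
    induction j with
    | zero =>
      intro _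
      exact ⟨A, Subset.rfl, by simp, by simp⟩
    | succ j ih =>
      intro hj
      obtain ⟨S, hSA, hScard, hS⟩ := ih (by omega)
      have hSpos : 0 < #S := by omega
      have hne : S.Nonempty := card_pos.1 hSpos
      obtain ⟨a, haS, ha⟩ := exists_max_image S p hne
      have havg : ∑ x ∈ S, p x ≤ #S * p a := by
        calc ∑ x ∈ S, p x ≤ ∑ x ∈ S, p a := sum_le_sum fun x hx => ha x hx
          _ = _ := by rw [sum_const, nsmul_eq_mul]
      refine ⟨S.erase a, (erase_subset _ _).trans hSA, ?_, ?_⟩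
      · rw [card_erase_of_mem haS, hScard]; omega
      · have h1 : ∑ x ∈ S.erase a, p x = ∑ x ∈ S, p x - p a := by
          rw [← add_sum_erase S p haS]; ring
        have hSr : (0:ℝ) < #S := by exact_mod_cast hSpos
        have h2 : ((#A - (j+1) : ℕ) : ℝ) = #S - 1 := by
          have : #A - (j+1) + 1 = #S := by omega
          have h3 : ((#A - (j+1) : ℕ) : ℝ) + 1 = #S := by exact_mod_cast this
          linarith
        have h3 : ((#A - j : ℕ) : ℝ) = #S := by rw [hScard]
        rw [h3] at hS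
        rw [h1, h2]
        -- multiply by #S
        have h4 : (#S : ℝ) * ((#A : ℝ) * (∑ x ∈ S, p x - p a)) ≤
            (#S : ℝ) * ((#S - 1) * ∑ x ∈ A, p x) := by
          have h5 : (#S : ℝ) * (∑ x ∈ S, p x - p a) ≤ (#S - 1) * ∑ x ∈ S, p x := by
            linarith
          have h6 : (0:ℝ) ≤ #A := Nat.cast_nonneg _
          have h7 : (0:ℝ) ≤ #S - 1 := by
            have : (1:ℝ) ≤ #S := by exact_mod_cast hSpos
            linarith
          calc (#S : ℝ) * ((#A : ℝ) * (∑ x ∈ S, p x - p a))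
              = #A * (#S * (∑ x ∈ S, p x - p a)) := by ring
            _ ≤ #A * ((#S - 1) * ∑ x ∈ S, p x) := mul_le_mul_of_nonneg_left h5 h6
            _ = (#S - 1) * (#A * ∑ x ∈ S, p x) := by ring
            _ ≤ (#S - 1) * (#S * ∑ x ∈ A, p x) := mul_le_mul_of_nonneg_left hS h7
            _ = _ := by ring
        exact le_of_mul_le_mul_left h4 hSr
  obtain ⟨S, h1, h2, h3⟩ := key (#A - k) (by omega)
  have h4 : #A - (#A - k) = k := by omega
  rw [h4] at h2 h3
  exact ⟨S, h1, h2, h3⟩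

/-- The main inequality for one tile type. -/
lemma tile_bound [DecidableEq ι] {J : Type*} [DecidableEq J] (Γ : SimpleGraph ι)
    (r : ℕ) (A AT : Finset ι) (hclique : ∀ x ∈ A, ∀ y ∈ A, x ≠ y → Γ.Adj x y)
    (Q0 : Fin r → ι)
    (hreach : ∀ Q : Fin r → ι, Function.Injective Q → (∀ a, Q a ∈ A) →
      (tupGraph Γ r).Reachable Q0 Q)
    (u : J → ι) (hu : ∀ j j', j ≠ j' → Γ.Adj (u j) (u j')) (huA : ∀ j, u j ∉ A)
    (T : Finset J) (hT : #T ≤ r) (hATA : AT ⊆ A) (hATu : ∀ v ∈ AT, ∀ j ∈ T, Γ.Adj v (u j))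
    (hATcard : 2 * r ≤ #AT)
    (p : ι → ℝ) (τ : ℝ) (hτ : ∀ Q, (tupGraph Γ r).Reachable Q0 Q → τ ≤ ∑ a, p (Q a)) :
    (#AT : ℝ) * (τ - ∑ j ∈ T, p (u j)) ≤ ((r - #T : ℕ) : ℝ) * ∑ v ∈ AT, p v := by
  classical
  obtain ⟨S, hSAT, hScard, hS⟩ := exists_cheap_subset AT p (r - #T) (by omega)
  have huinj : Function.Injective u := by
    intro j j' h
    by_contra hne
    exact Γ.ne_of_adj (hu j j' hne) h
  set F : Finset ι := S ∪ T.image u with hF
  have hdisj : Disjoint S (T.image u) := by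
    rw [Finset.disjoint_left]
    intro x hxS hxT
    obtain ⟨j, _, rfl⟩ := mem_image.1 hxT
    exact huA j (hATA (hSAT hxS))
  have hFcard : #F = r := by
    rw [hF, card_union_of_disjoint hdisj, card_image_of_injective _ huinj, hScard]
    omega
  obtain ⟨Q, hQinj, hQF, hQsum⟩ := exists_tup F hFcard
  -- F is a clique
  have hFclique : ∀ x ∈ F, ∀ y ∈ F, x ≠ y → Γ.Adj x y := by
    intro x hx y hy hxy
    rw [hF, mem_union] at hx hy
    rcases hx with hx | hx <;> rcases hy with hy | hy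
    · exact hclique x (hATA (hSAT hx)) y (hATA (hSAT hy)) hxy
    · obtain ⟨j, hj, rfl⟩ := mem_image.1 hy
      exact hATu x (hSAT hx) j hj
    · obtain ⟨j, hj, rfl⟩ := mem_image.1 hx
      exact (hATu y (hSAT hy) j hj).symm
    · obtain ⟨j, hj, rfl⟩ := mem_image.1 hx
      obtain ⟨j', hj', rfl⟩ := mem_image.1 hy
      exact hu j j' (fun h => hxy (by rw [h]))
  have hQtup : IsTup Γ Q := isTup_of_clique hQinj hFclique hQF
  -- an auxiliary tuple in AT \ S
  have h1 : r ≤ #(AT \ S) := by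
    have := le_card_sdiff S AT
    omega
  obtain ⟨F', hF', hF'c⟩ := exists_subset_card_eq h1
  obtain ⟨P, hPinj, hPF, _⟩ := exists_tup F' hF'c
  have hPAT : ∀ a, P a ∈ AT := fun a => (mem_sdiff.1 (hF' (hPF a))).1
  have hPS : ∀ a, P a ∉ S := fun a => (mem_sdiff.1 (hF' (hPF a))).2
  have hPtup : IsTup Γ P := isTup_of_clique hPinj hclique (fun a => hATA (hPAT a))
  have hQP : (tupGraph Γ r).Reachable Q P := by
    apply reach_swap hQtup hPtup
    intro a b _
    have hQa := hQF a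
    rw [hF, mem_union] at hQa
    rcases hQa with h | h
    · apply hclique _ (hATA (hSAT h)) _ (hATA (hPAT b))
      intro heq
      exact hPS b (heq ▸ h)
    · obtain ⟨j, hj, hjeq⟩ := mem_image.1 h
      rw [← hjeq]
      exact (hATu _ (hPAT b) j hj).symm
  have hQ0 : (tupGraph Γ r).Reachable Q0 Q :=
    (hreach P hPinj (fun a => hATA (hPAT a))).trans hQP.symm
  have h2 := hτ Q hQ0
  rw [hQsum p, hF, sum_union hdisj, sum_image (fun x _ y _ h => huinj h)] at h2
  have h3 : (0:ℝ) ≤ #AT := Nat.cast_nonneg _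
  calc (#AT : ℝ) * (τ - ∑ j ∈ T, p (u j)) ≤ #AT * ∑ x ∈ S, p x := by
        apply mul_le_mul_of_nonneg_left _ h3
        linarith
    _ ≤ _ := hS

/-- Summing over the classes of one clique. -/
lemma clique_bound [DecidableEq ι] {J : Type*} [Fintype J] [DecidableEq J] (Γ : SimpleGraph ι)
    [DecidableRel Γ.Adj]
    (r : ℕ) (hJ : Fintype.card J + 1 ≤ r) (A : Finset ι)
    (hclique : ∀ x ∈ A, ∀ y ∈ A, x ≠ y → Γ.Adj x y)
    (Q0 : Fin r → ι)
    (hreach : ∀ Q : Fin r → ι, Function.Injective Q → (∀ a, Q a ∈ A) →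
      (tupGraph Γ r).Reachable Q0 Q)
    (u : J → ι) (hu : ∀ j j', j ≠ j' → Γ.Adj (u j) (u j')) (huA : ∀ j, u j ∉ A)
    (p : ι → ℝ) (hp : ∀ X, 0 ≤ p X) (τ : ℝ) (hτ0 : 0 ≤ τ)
    (hτ : ∀ Q, (tupGraph Γ r).Reachable Q0 Q → τ ≤ ∑ a, p (Q a))
    (lam : ℝ) (hlam : 0 ≤ lam) :
    ∑ v ∈ A, (2 * lam * (τ - ∑ j, p (u j)) - lam ^ 2 * τ * (r - #{j | Γ.Adj v (u j)}))
      - 2 ^ Fintype.card J * (2 * r * (2 * lam * τ)) ≤ ∑ v ∈ A, p v := by
  classical
  set W : ℝ := ∑ j, p (u j) with hW
  have hW0 : 0 ≤ W := sum_nonneg fun j _ => hp _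
  set Jv : ι → Finset J := fun v => {j | Γ.Adj v (u j)} with hJv
  set g : Finset J → ℝ := fun T => 2 * lam * (τ - W) - lam ^ 2 * τ * (r - #T) with hg
  set AT : Finset J → Finset ι := fun T => A.filter (fun v => Jv v = T) with hAT
  have hcardT : ∀ T : Finset J, #T + 1 ≤ r := fun T => by
    have := card_le_univ T
    omega
  have hgle : ∀ T, g T ≤ 2 * lam * τ := by
    intro T
    have h1 : (#T : ℝ) + 1 ≤ r := by exact_mod_cast hcardT T
    have h2 : 0 ≤ lam ^ 2 * τ * (r - #T) := by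
      apply mul_nonneg (by positivity)
      linarith
    have h3 : 0 ≤ lam * W := mul_nonneg hlam hW0
    simp only [hg]
    nlinarith
  have hterm : ∀ T, (#(AT T) : ℝ) * g T - 2 * r * (2 * lam * τ) ≤ ∑ v ∈ AT T, p v := by
    intro T
    have hpAT : 0 ≤ ∑ v ∈ AT T, p v := sum_nonneg fun v _ => hp v
    have hlt : 0 ≤ 2 * lam * τ := by positivity
    by_cases hbig : 2 * r ≤ #(AT T)
    · have h1 := tile_bound Γ r A (AT T) hclique Q0 hreach u hu huA T (by have := hcardT T; omega)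
        (filter_subset _ _) (by
          intro v hv j hj
          have h2 : Jv v = T := (mem_filter.1 hv).2
          rw [← h2] at hj
          simp only [hJv, mem_filter, mem_univ, true_and] at hj
          exact hj) hbig p τ hτ
      have hk : (1:ℝ) ≤ ((r - #T : ℕ) : ℝ) := by
        have : 1 ≤ r - #T := by have := hcardT T; omega
        exact_mod_cast this
      have hkr : ((r - #T : ℕ) : ℝ) = (r : ℝ) - #T := by
        rw [Nat.cast_sub]
        have := hcardT T; omega
      set k : ℝ := ((r - #T : ℕ) : ℝ) with hk'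
      have hWT : ∑ j ∈ T, p (u j) ≤ W := by
        apply sum_le_sum_of_subset_of_nonneg (subset_univ _)
        intro j _ _
        exact hp _
      have h2 : (#(AT T) : ℝ) * (τ - W) ≤ k * ∑ v ∈ AT T, p v := by
        refine le_trans ?_ h1
        apply mul_le_mul_of_nonneg_left _ (Nat.cast_nonneg _)
        linarith
      have hn0 : (0:ℝ) ≤ #(AT T) := Nat.cast_nonneg _
      have h3 : (#(AT T) : ℝ) * g T ≤ ∑ v ∈ AT T, p v := by
        simp only [hg]
        rw [← hkr]
        by_cases hsign : 0 ≤ τ - W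
        · -- AM-GM: 1/k ≥ 2 lam - lam^2 k
          have h4 : k * (2 * lam - lam ^ 2 * k) ≤ 1 := by
            have : 0 ≤ (1 - lam * k) ^ 2 := sq_nonneg _
            linarith
          have h5 : k * ((#(AT T) : ℝ) * ((τ - W) * (2 * lam - lam ^ 2 * k))) ≤
              k * ∑ v ∈ AT T, p v := by
            calc k * ((#(AT T) : ℝ) * ((τ - W) * (2 * lam - lam ^ 2 * k)))
                = ((#(AT T) : ℝ) * (τ - W)) * (k * (2 * lam - lam ^ 2 * k)) := by ring
              _ ≤ ((#(AT T) : ℝ) * (τ - W)) * 1 := by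
                  apply mul_le_mul_of_nonneg_left h4
                  positivity
              _ ≤ _ := by rw [mul_one]; exact h2
          have h6 : (#(AT T) : ℝ) * ((τ - W) * (2 * lam - lam ^ 2 * k)) ≤ ∑ v ∈ AT T, p v :=
            le_of_mul_le_mul_left h5 (by linarith)
          refine le_trans ?_ h6
          apply mul_le_mul_of_nonneg_left _ hn0
          have h7 : 0 ≤ lam ^ 2 * k * W := by positivity
          nlinarith
        · push Not at hsign
          have h4 : 2 * lam * (τ - W) - lam ^ 2 * τ * k ≤ 0 := by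
            have h5 : lam * (τ - W) ≤ 0 := mul_nonpos_of_nonneg_of_nonpos hlam hsign.le
            have h6 : 0 ≤ lam ^ 2 * τ * k := by positivity
            linarith
          have : (#(AT T) : ℝ) * (2 * lam * (τ - W) - lam ^ 2 * τ * k) ≤ 0 :=
            mul_nonpos_of_nonneg_of_nonpos hn0 h4
          linarith
      have h8 : 0 ≤ 2 * (r:ℝ) * (2 * lam * τ) := by positivity
      linarith
    · push Not at hbig
      have h1 : (#(AT T) : ℝ) ≤ 2 * r := by exact_mod_cast hbig.le
      have h2 : (#(AT T) : ℝ) * g T ≤ #(AT T) * (2 * lam * τ) :=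
        mul_le_mul_of_nonneg_left (hgle T) (Nat.cast_nonneg _)
      have h3 : (#(AT T) : ℝ) * (2 * lam * τ) ≤ 2 * r * (2 * lam * τ) :=
        mul_le_mul_of_nonneg_right h1 hlt
      linarith
  have hsum1 : ∑ v ∈ A, p v = ∑ T : Finset J, ∑ v ∈ AT T, p v := by
    rw [← sum_fiberwise A Jv p]
  have hsum2 : ∑ v ∈ A, g (Jv v) = ∑ T : Finset J, (#(AT T) : ℝ) * g T := by
    rw [← sum_fiberwise A Jv (fun v => g (Jv v))]
    apply sum_congr rfl
    intro T _
    rw [sum_congr rfl (g := fun _ => g T)]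
    · rw [sum_const, nsmul_eq_mul]
    · intro v hv
      rw [(mem_filter.1 hv).2]
  have hfinal : ∑ T : Finset J, ((#(AT T) : ℝ) * g T - 2 * r * (2 * lam * τ)) ≤
      ∑ T : Finset J, ∑ v ∈ AT T, p v := sum_le_sum fun T _ => hterm T
  rw [sum_sub_distrib, sum_const, card_univ, Fintype.card_finset, nsmul_eq_mul, ← hsum1,
    ← hsum2] at hfinal
  push_cast at hfinal
  exact hfinal

end Pool.Agent.helper16
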