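import Mathlib
import Pool.Agent.helper16.Tile

set_option autoImplicit false

namespace Pool.Agent.helper16

open Finset

variable {ι : Type*}

/-- The number of `Γ`-edges between two finsets. -/
noncomputable def eCount (Γ : SimpleGraph ι) [DecidableRel Γ.Adj] (V U : Finset ι) : ℝ :=
  (#{e ∈ V ×ˢ U | Γ.Adj e.1 e.2} : ℝ)

lemma eCount_eq_left (Γ : SimpleGraph ι) [DecidableRel Γ.Adj] (V U : Finset ι) :
    eCount Γ V U = ∑ v ∈ V, (#{u ∈ U | Γ.Adj v u} : ℝ) := by
  unfold eCount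
  rw [← Nat.cast_sum]
  congr 1
  rw [card_filter, sum_product]
  apply sum_congr rfl
  intro v _
  rw [card_filter]

lemma eCount_eq_right (Γ : SimpleGraph ι) [DecidableRel Γ.Adj] (V U : Finset ι) :
    eCount Γ V U = ∑ u ∈ U, (#{v ∈ V | Γ.Adj v u} : ℝ) := by
  unfold eCount
  rw [← Nat.cast_sum]
  congr 1
  rw [card_filter, sum_product_right]
  apply sum_congr rfl
  intro v _
  rw [card_filter]

lemma cross_numeric {lam x τ B PU PV S κ δ' r c t E F : ℝ}
    (hB : 0 < B) (hτ : τ = B * S) (hτpos : 0 < τ) (hx : 0 < x) (hlam : 0 < lam)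
    (hlam1 : lam ≤ 1) (hlamrt : lam * (r - t) = 1)
    (ht0 : 0 ≤ t) (htc : t ≤ c) (hcr : c ≤ r) (hκ : 0 < κ) (hPU : 0 ≤ PU) (hPV : 0 ≤ PV)
    (htot : PV + PU ≤ S)
    (hF : F ≤ (1 + κ) * (lam * x * B / 2 * PU + lam ^ 2 * τ * x * (c - t)))
    (hmain : 2 * lam * x * τ - lam ^ 2 * τ * (r - c) * x - F - lam * x * τ * E ≤ PV)
    (hδ' : κ * (r + 1) + E ≤ δ') (hδ'1 : δ' ≤ 1 / 4) : lam * x * B * (1 - δ') ≤ 1 := by
  have hBPU : B * PU ≤ τ := by
    rw [hτ]
    apply mul_le_mul_of_nonneg_left _ hB.le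
    linarith
  have hlx : 0 < lam * x := mul_pos hlam hx
  have hlxt : 0 < lam * x * τ := mul_pos hlx hτpos
  have hr0 : 0 ≤ r := by linarith
  have hκD : κ * (lam * x * B / 2 * PU + lam ^ 2 * τ * x * (c - t)) ≤
      κ * (r + 1) * (lam * x * τ) := by
    have h1 : lam * x * B / 2 * PU ≤ lam * x * τ / 2 := by
      have := mul_le_mul_of_nonneg_left hBPU hlx.le
      linarith
    have h2 : lam ^ 2 * τ * x * (c - t) ≤ lam * x * τ * r := by
      have h3 : lam ^ 2 * τ * x ≤ lam * x * τ := by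
        have h4 : lam ^ 2 ≤ lam := by nlinarith
        have h5 : 0 ≤ τ * x := (mul_pos hτpos hx).le
        have := mul_le_mul_of_nonneg_right h4 h5
        linarith
      have h5 : 0 ≤ c - t := by linarith
      calc lam ^ 2 * τ * x * (c - t) ≤ lam * x * τ * (c - t) :=
            mul_le_mul_of_nonneg_right h3 h5
        _ ≤ lam * x * τ * r := by
            apply mul_le_mul_of_nonneg_left _ hlxt.le
            linarith
    have h6 : (lam * x * B / 2 * PU + lam ^ 2 * τ * x * (c - t)) ≤ (r + 1) * (lam * x * τ) := by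
      linarith
    calc κ * (lam * x * B / 2 * PU + lam ^ 2 * τ * x * (c - t))
        ≤ κ * ((r + 1) * (lam * x * τ)) := mul_le_mul_of_nonneg_left h6 hκ.le
      _ = _ := by ring
  have hDDeq : lam ^ 2 * τ * (r - c) * x + lam ^ 2 * τ * x * (c - t) = lam * x * τ := by
    have : lam ^ 2 * τ * (r - c) * x + lam ^ 2 * τ * x * (c - t)
      = lam * τ * x * (lam * (r - t)) := by ring
    rw [this, hlamrt]
    ring
  have hcomb : lam * x * τ * (1 - δ') ≤ PV + lam * x * B / 2 * PU := by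
    have h1 : lam * x * τ * (κ * (r + 1) + E) ≤ lam * x * τ * δ' :=
      mul_le_mul_of_nonneg_left hδ' hlxt.le
    have h2 : (1 + κ) * (lam * x * B / 2 * PU + lam ^ 2 * τ * x * (c - t)) =
        (lam * x * B / 2 * PU + lam ^ 2 * τ * x * (c - t)) +
        κ * (lam * x * B / 2 * PU + lam ^ 2 * τ * x * (c - t)) := by ring
    rw [h2] at hF
    linarith
  set Y : ℝ := lam * x * B with hY
  have hYpos : 0 < Y := mul_pos hlx hB
  have h1 : Y * τ * (1 - δ') ≤ τ + B * PU * (Y / 2 - 1) := by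
    have h2 : B * (lam * x * τ * (1 - δ')) ≤ B * (PV + lam * x * B / 2 * PU) :=
      mul_le_mul_of_nonneg_left hcomb hB.le
    have h3 : B * (PV + PU) ≤ τ := by
      rw [hτ]
      exact mul_le_mul_of_nonneg_left htot hB.le
    have h4 : B * (lam * x * B / 2 * PU) = Y / 2 * (B * PU) := by rw [hY]; ring
    have h5 : Y * τ * (1 - δ') = B * (lam * x * τ * (1 - δ')) := by rw [hY]; ring
    rw [h5]
    linarith
  have hz0 : 0 ≤ B * PU := mul_nonneg hB.le hPU
  by_cases hY2 : Y ≤ 2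
  · have h2 : B * PU * (Y / 2 - 1) ≤ 0 := mul_nonpos_of_nonneg_of_nonpos hz0 (by linarith)
    have h3 : (Y * (1 - δ')) * τ ≤ 1 * τ := by linarith
    exact le_of_mul_le_mul_right h3 hτpos
  · push Not at hY2
    exfalso
    have h2 : B * PU * (Y / 2 - 1) ≤ τ * (Y / 2 - 1) :=
      mul_le_mul_of_nonneg_right hBPU (by linarith)
    have h3 : Y * τ * (1 - δ') ≤ Y * τ * (1 / 2) := by linarith
    have h4 : 0 < Y * τ := mul_pos hYpos hτpos
    have h5 : 1 - δ' ≤ 1 / 2 := le_of_mul_le_mul_left h3 h4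
    linarith

set_option maxHeartbeats 4000000 in
/-- The cross bound. `V` is the union of the cliques in `𝒜`. -/
theorem cross_bound [Fintype ι] [DecidableEq ι] {J : Type*} [Fintype J] [DecidableEq J]
    (Γ : SimpleGraph ι) [DecidableRel Γ.Adj] (r s : ℕ) (hJ : Fintype.card J + 1 ≤ r)
    (B : ℝ) (hB : 0 < B) (𝒜 : Finset (Finset ι)) (h𝒜ne : 𝒜.Nonempty)
    (h𝒜card : ∀ A ∈ 𝒜, #A = s) (hs : r + 1 ≤ s)
    (h𝒜clique : ∀ A ∈ 𝒜, ∀ x ∈ A, ∀ y ∈ A, x ≠ y → Γ.Adj x y)
    (h𝒜disj : ∀ A ∈ 𝒜, ∀ A' ∈ 𝒜, A ≠ A' → Disjoint A A')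
    (hreach : ∀ A ∈ 𝒜, ∀ A' ∈ 𝒜, ∀ Q Q' : Fin r → ι, Function.Injective Q →
      Function.Injective Q' → (∀ a, Q a ∈ A) → (∀ a, Q' a ∈ A') →
      (tupGraph Γ r).Reachable Q Q')
    (U : J → Finset ι) (hUdisj : ∀ j j', j ≠ j' → Disjoint (U j) (U j'))
    (hUA : ∀ j, ∀ A ∈ 𝒜, Disjoint (U j) A)
    (hUbig : ∀ j, 4 ≤ B * #(U j))
    (κ δ2 δ3 : ℝ) (hκ : 0 < κ) (hκ1 : κ ≤ 1) (hδ2 : 0 ≤ δ2) (hδ3 : 0 < δ3)
    (hs2 : 8 * r * δ2 ≤ κ) (hs3 : 16 * r * δ3 ≤ κ)
    (hfew : ∀ j j', j ≠ j' →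
      (#{e ∈ U j ×ˢ U j' | ¬ Γ.Adj e.1 e.2} : ℝ) ≤ δ2 * δ3 * #(U j) * #(U j'))
    (δ' : ℝ) (hδ' : κ * (r + 1) + 2 ^ r * (4 * r) / s ≤ δ') (hδ'1 : δ' ≤ 1 / 4)
    (hnot : ¬ Rich Γ r B) :
    (1 - δ') * B * #(𝒜.biUnion id) ≤
      r - ∑ j, eCount Γ (𝒜.biUnion id) (U j) / (#(𝒜.biUnion id) * #(U j)) := by
  classical
  obtain ⟨A0, hA0⟩ := h𝒜ne
  have hr1 : 1 ≤ r := by omega
  have hspos : 0 < s := by omega
  -- base tuple
  obtain ⟨F, hFA, hFc⟩ := exists_subset_card_eq (show r ≤ #A0 by rw [h𝒜card A0 hA0]; omega)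
  obtain ⟨Q0, hQ0inj, hQ0F, _⟩ := exists_tup F hFc
  have hQ0A : ∀ a, Q0 a ∈ A0 := fun a => hFA (hQ0F a)
  have hQ0tup : IsTup Γ Q0 := isTup_of_clique hQ0inj (h𝒜clique A0 hA0) hQ0A
  have hperm : ∀ σ : Equiv.Perm (Fin r), (tupGraph Γ r).Reachable Q0 (Q0 ∘ σ) := by
    have h1 : 0 < #(A0 \ F) := by
      have := le_card_sdiff F A0
      rw [h𝒜card A0 hA0, hFc] at this
      omega
    obtain ⟨z, hz⟩ := card_pos.1 h1
    rw [mem_sdiff] at hz
    apply reach_perm hQ0tup z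
    intro b
    apply h𝒜clique A0 hA0 z hz.1 _ (hQ0A b)
    intro h
    exact hz.2 (h ▸ hQ0F b)
  have hbadp : ∃ p : ι → ℝ, (∀ X, 0 ≤ p X) ∧
      ∀ Q, (tupGraph Γ r).Reachable Q0 Q → B * ∑ X, p X < ∑ a, p (Q a) := by
    by_contra hcon
    push Not at hcon
    apply hnot
    exact ⟨Q0, hQ0tup, hperm, hcon⟩
  obtain ⟨p, hp, hpQ⟩ := hbadp
  set S : ℝ := ∑ X, p X with hS
  have hS0 : 0 ≤ S := sum_nonneg fun X _ => hp X
  have hSpos : 0 < S := by
    rcases hS0.lt_or_eq with h | h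
    · exact h
    · exfalso
      have h1 := hpQ Q0 (SimpleGraph.Reachable.refl _)
      have h2 : ∀ X, p X = 0 := by
        intro X
        have := (sum_eq_zero_iff_of_nonneg (fun X _ => hp X)).1 h.symm X (mem_univ _)
        exact this
      simp [h2] at h1
      rw [← h] at h1
      simp at h1
  set τ : ℝ := B * S with hτ
  have hτpos : 0 < τ := mul_pos hB hSpos
  set V : Finset ι := 𝒜.biUnion id with hV
  have hVpos : (0:ℝ) < #V := by
    have : 0 < #V := by
      rw [card_pos]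
      refine ⟨Q0 ⟨0, hr1⟩, ?_⟩
      rw [hV, mem_biUnion]
      exact ⟨A0, hA0, hQ0A _⟩
    exact_mod_cast this
  have hVcard : (#V : ℝ) = #𝒜 * s := by
    have : #V = #𝒜 * s := by
      rw [hV, card_biUnion (t := id) (fun A hA A' hA' h => h𝒜disj A hA A' hA' h)]
      exact sum_const_nat (fun A hA => h𝒜card A hA)
    exact_mod_cast this
  have hUpos : ∀ j, (0:ℝ) < #(U j) := by
    intro j
    by_contra hcon
    push Not at hcon
    have := hUbig j
    nlinarith
  set x : ℝ := (V.card : ℝ) with hx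
  -- density terms
  set e : J → ℝ := fun j => eCount Γ V (U j) with he
  set t : ℝ := ∑ j, e j / (x * #(U j)) with ht
  have hele : ∀ j, e j ≤ x * #(U j) := by
    intro j
    simp only [he, eCount, hx]
    have : #{e ∈ V ×ˢ U j | Γ.Adj e.1 e.2} ≤ #V * #(U j) := by
      rw [← card_product]
      exact card_filter_le _ _
    exact_mod_cast this
  have htle : t ≤ Fintype.card J := by
    calc t ≤ ∑ j : J, (1:ℝ) := by
          apply sum_le_sum
          intro j _
          rw [div_le_one (mul_pos hVpos (hUpos j))]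
          exact hele j
      _ = _ := by simp
  have hJr : (Fintype.card J : ℝ) + 1 ≤ r := by exact_mod_cast hJ
  have hrt : 1 ≤ r - t := by linarith
  set lam : ℝ := 1 / (r - t) with hlam
  have hlampos : 0 < lam := by positivity
  have hlam1 : lam ≤ 1 := by
    rw [hlam, div_le_one (by linarith)]
    exact hrt
  have hlamrt : lam * (r - t) = 1 := by
    rw [hlam]
    field_simp
  -- the functions f
  set deg : ι → ℝ := fun u => (#{v ∈ V | Γ.Adj v u} : ℝ) with hdeg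
  have hdegle : ∀ u, deg u ≤ x := by
    intro u
    simp only [hdeg, hx]
    exact_mod_cast card_filter_le _ _
  set f : ι → ℝ := fun u => 2 * lam * x * p u + lam ^ 2 * τ * (x - deg u) with hf
  have hfnn : ∀ u, 0 ≤ f u := by
    intro u
    have h1 : 0 ≤ x - deg u := by linarith [hdegle u]
    have h2 := hp u
    simp only [hf]
    positivity
  have hfsum : ∀ j, ∑ u ∈ U j, f u = 2 * lam * x * ∑ u ∈ U j, p u +
      lam ^ 2 * τ * (x * #(U j) - e j) := by
    intro j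
    simp only [hf, sum_add_distrib, ← mul_sum, sum_sub_distrib, sum_const, nsmul_eq_mul]
    rw [he]
    simp only
    rw [eCount_eq_right]
    ring
  -- choose the transversal
  have hr0 : (0:ℝ) < r := by exact_mod_cast hr1
  have hcardJr : (Fintype.card J : ℝ) ≤ r := by linarith
  have hJδ2 : (Fintype.card J : ℝ) * δ2 ≤ κ / 8 := by
    have : (Fintype.card J : ℝ) * δ2 ≤ r * δ2 := mul_le_mul_of_nonneg_right hcardJr hδ2
    linarith
  obtain ⟨U', hU'sub, hU'card, hU'typ⟩ := clean Γ U δ2 δ3 hδ2 hδ3 (by linarith) hfew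
  set P : J → Finset ι := fun j =>
    {u ∈ U' j | ¬ ((1 + κ) * ∑ w ∈ U j, f w < f u * #(U j))} with hP
  have hPcard : ∀ j, κ / 4 * #(U j) ≤ (#(P j) : ℝ) := by
    intro j
    have h1 := markov (U j) f (fun v _ => hfnn v) (1 + κ) (by linarith)
    have h2 : (#(U' j) : ℝ) - #{v ∈ U j | (1 + κ) * ∑ w ∈ U j, f w < f v * #(U j)} ≤ #(P j) := by
      have h3 := card_filter_compl_real (U' j)
        (fun u => ¬ ((1 + κ) * ∑ w ∈ U j, f w < f u * #(U j)))
      simp only [not_not] at h3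
      simp only [hP]
      rw [h3]
      have h4 : #{v ∈ U' j | (1 + κ) * ∑ w ∈ U j, f w < f v * #(U j)} ≤
          #{v ∈ U j | (1 + κ) * ∑ w ∈ U j, f w < f v * #(U j)} :=
        card_le_card (filter_subset_filter _ (hU'sub j))
      have h5 : (#{v ∈ U' j | (1 + κ) * ∑ w ∈ U j, f w < f v * #(U j)} : ℝ) ≤
          #{v ∈ U j | (1 + κ) * ∑ w ∈ U j, f w < f v * #(U j)} := by exact_mod_cast h4
      linarith
    have h6 := hU'card j
    set b : ℝ := (#{v ∈ U j | (1 + κ) * ∑ w ∈ U j, f w < f v * #(U j)} : ℝ) with hb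
    have hb0 : 0 ≤ b := Nat.cast_nonneg _
    have hUj := hUpos j
    -- b ≤ #U / (1+κ) ≤ (1 - κ/2) #U
    have h7 : b ≤ (1 - κ / 2) * #(U j) := by
      have h8 : (1 + κ) * b ≤ (1 + κ) * ((1 - κ / 2) * #(U j)) := by
        refine h1.trans ?_
        have : 1 ≤ (1 + κ) * (1 - κ / 2) := by nlinarith
        nlinarith
      exact le_of_mul_le_mul_left h8 (by linarith)
    nlinarith
  obtain ⟨u, hu, huadj⟩ := exists_transversal Γ U' P (fun _ => filter_subset _ _) (2 * δ3)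
    (by positivity) hU'typ (by
      intro j
      have h1 := hPcard j
      have h2 : (#(U' j) : ℝ) ≤ #(U j) := by exact_mod_cast card_le_card (hU'sub j)
      have h3 : 2 * δ3 * Fintype.card J ≤ κ / 8 := by
        have : δ3 * Fintype.card J ≤ δ3 * r := mul_le_mul_of_nonneg_left hcardJr hδ3.le
        linarith
      have hUj := hUpos j
      calc 2 * δ3 * Fintype.card J * #(U' j) ≤ κ / 8 * #(U' j) :=
            mul_le_mul_of_nonneg_right h3 (Nat.cast_nonneg _)
        _ ≤ κ / 8 * #(U j) := mul_le_mul_of_nonneg_left h2 (by linarith)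
        _ < κ / 4 * #(U j) := by nlinarith
        _ ≤ _ := h1)
  have huU : ∀ j, u j ∈ U j := fun j => hU'sub j (mem_filter.1 (hu j)).1
  have hfu : ∀ j, f (u j) ≤ (1 + κ) * ((∑ w ∈ U j, f w) / #(U j)) := by
    intro j
    have h1 : f (u j) * #(U j) ≤ (1 + κ) * ∑ w ∈ U j, f w := not_lt.1 (mem_filter.1 (hu j)).2
    rw [← mul_div_assoc, le_div_iff₀ (hUpos j)]
    exact h1
  -- D_j
  set PU : ℝ := ∑ j, ∑ w ∈ U j, p w with hPU
  have hPU0 : 0 ≤ PU := sum_nonneg fun j _ => sum_nonneg fun w _ => hp w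
  have hD : ∀ j, (∑ w ∈ U j, f w) / #(U j) ≤
      lam * x * B / 2 * (∑ w ∈ U j, p w) + lam ^ 2 * τ * x * (1 - e j / (x * #(U j))) := by
    intro j
    rw [hfsum j]
    have hUj := hUpos j
    have hpU : 0 ≤ ∑ w ∈ U j, p w := sum_nonneg fun w _ => hp w
    have h1 : 1 / (#(U j) : ℝ) ≤ B / 4 := by
      rw [div_le_div_iff₀ hUj (by norm_num)]
      linarith [hUbig j]
    have h2 : (2 * lam * x * ∑ u ∈ U j, p u + lam ^ 2 * τ * (x * #(U j) - e j)) / #(U j) =
        2 * lam * x * (∑ u ∈ U j, p u) * (1 / #(U j)) +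
          lam ^ 2 * τ * x * (1 - e j / (x * #(U j))) := by
      field_simp
    rw [h2]
    have h3 : 2 * lam * x * (∑ u ∈ U j, p u) * (1 / #(U j)) ≤
        2 * lam * x * (∑ u ∈ U j, p u) * (B / 4) := by
      apply mul_le_mul_of_nonneg_left h1
      positivity
    linarith
  set DD : ℝ := lam * x * B / 2 * PU + lam ^ 2 * τ * x * (Fintype.card J - t) with hDD
  have hsumD : ∑ j, (∑ w ∈ U j, f w) / #(U j) ≤ DD := by
    calc ∑ j, (∑ w ∈ U j, f w) / #(U j) ≤
        ∑ j, (lam * x * B / 2 * (∑ w ∈ U j, p w) +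
          lam ^ 2 * τ * x * (1 - e j / (x * #(U j)))) := sum_le_sum fun j _ => hD j
      _ = DD := by
        rw [sum_add_distrib, ← mul_sum, ← mul_sum, sum_sub_distrib, hDD, hPU, ht]
        simp
  have hsumf : ∑ j, f (u j) ≤ (1 + κ) * DD := by
    calc ∑ j, f (u j) ≤ ∑ j, (1 + κ) * ((∑ w ∈ U j, f w) / #(U j)) :=
          sum_le_sum fun j _ => hfu j
      _ = (1 + κ) * ∑ j, (∑ w ∈ U j, f w) / #(U j) := by rw [mul_sum]
      _ ≤ (1 + κ) * DD := mul_le_mul_of_nonneg_left hsumD (by linarith)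
  -- total price of V and of the U's
  set PV : ℝ := ∑ v ∈ V, p v with hPV
  have htotal : PV + PU ≤ S := by
    have hdisjU : ∑ j, ∑ w ∈ U j, p w = ∑ w ∈ univ.biUnion U, p w := by
      rw [sum_biUnion]
      intro j _ j' _ h
      exact hUdisj j j' h
    have hdisjV : Disjoint V (univ.biUnion U) := by
      rw [hV, disjoint_biUnion_left]
      intro A hA
      rw [disjoint_biUnion_right]
      intro j _
      exact (hUA j A hA).symm
    rw [hPV, hPU, hdisjU, ← sum_union hdisjV]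
    apply sum_le_sum_of_subset_of_nonneg (subset_univ _)
    intro X _ _
    exact hp X
  -- cliques
  have hcl : ∀ A ∈ 𝒜, ∑ v ∈ A, (2 * lam * (τ - ∑ j, p (u j)) -
      lam ^ 2 * τ * (r - #{j | Γ.Adj v (u j)}))
      - 2 ^ Fintype.card J * (2 * r * (2 * lam * τ)) ≤ ∑ v ∈ A, p v := by
    intro A hA
    apply clique_bound Γ r hJ A (h𝒜clique A hA) Q0 _ u huadj _ p hp τ hτpos.le _ lam hlampos.le
    · intro Q hQ hQA
      exact hreach A0 hA0 A hA Q0 Q hQ0inj hQ hQ0A hQA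
    · intro j hj
      exact (Finset.disjoint_left.1 (hUA j A hA) (huU j) hj).elim
    · intro Q hQ
      exact (hpQ Q hQ).le
  have hVsum : ∀ g : ι → ℝ, ∑ v ∈ V, g v = ∑ A ∈ 𝒜, ∑ v ∈ A, g v := by
    intro g
    exact sum_biUnion (t := id) (fun A hA A' hA' h => h𝒜disj A hA A' hA' h)
  have hmain : ∑ v ∈ V, (2 * lam * (τ - ∑ j, p (u j)) -
      lam ^ 2 * τ * (r - #{j | Γ.Adj v (u j)}))
      - #𝒜 * (2 ^ Fintype.card J * (2 * r * (2 * lam * τ))) ≤ PV := by
    rw [hPV, hVsum, hVsum]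
    have h1 := sum_le_sum hcl
    rw [sum_sub_distrib, sum_const, nsmul_eq_mul] at h1
    exact h1
  have hdegsum : ∑ v ∈ V, (#{j | Γ.Adj v (u j)} : ℝ) = ∑ j, deg (u j) := by
    simp only [hdeg]
    rw [← Nat.cast_sum, ← Nat.cast_sum]
    congr 1
    simp only [card_filter]
    rw [sum_comm]
  have hlhs : ∑ v ∈ V, (2 * lam * (τ - ∑ j, p (u j)) -
      lam ^ 2 * τ * (r - #{j | Γ.Adj v (u j)})) =
      2 * lam * x * τ - lam ^ 2 * τ * (r - Fintype.card J) * x - ∑ j, f (u j) := by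
    have h1 : ∑ j, f (u j) = 2 * lam * x * (∑ j, p (u j)) +
        lam ^ 2 * τ * (Fintype.card J * x - ∑ j, deg (u j)) := by
      simp only [hf, sum_add_distrib, ← mul_sum, sum_sub_distrib, sum_const, card_univ,
        nsmul_eq_mul]
    rw [h1, sum_sub_distrib, sum_const, nsmul_eq_mul, ← mul_sum, sum_sub_distrib, sum_const,
      nsmul_eq_mul, hdegsum]
    ring
  rw [hlhs] at hmain
  have hPV0 : 0 ≤ PV := sum_nonneg fun v _ => hp v
  have ht0 : 0 ≤ t := by
    apply sum_nonneg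
    intro j _
    apply div_nonneg
    · simp only [he, eCount]
      exact Nat.cast_nonneg _
    · exact mul_nonneg hVpos.le (hUpos j).le
  clear_value lam t x τ S PU PV DD f
  -- error terms
  have hsr : (0:ℝ) < s := by exact_mod_cast hspos
  have herr : (#𝒜 : ℝ) * (2 ^ Fintype.card J * (2 * r * (2 * lam * τ))) ≤
      lam * x * τ * (2 ^ r * (4 * r) / s) := by
    have h1 : (2:ℝ) ^ Fintype.card J ≤ 2 ^ r :=
      pow_le_pow_right₀ (by norm_num) (by omega)
    have h2 : lam * x * τ * (2 ^ r * (4 * r) / s) = #𝒜 * (2 ^ r * (2 * r * (2 * lam * τ))) := by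
      rw [hVcard]
      field_simp
      ring
    rw [h2]
    apply mul_le_mul_of_nonneg_left _ (Nat.cast_nonneg _)
    apply mul_le_mul_of_nonneg_right h1
    exact mul_nonneg (mul_nonneg (by norm_num) hr0.le)
      (mul_nonneg (mul_nonneg (by norm_num) hlampos.le) hτpos.le)
  have hfin : lam * x * B * (1 - δ') ≤ 1 := by
    apply cross_numeric (r := (r:ℝ)) (c := (Fintype.card J : ℝ)) (t := t)
      (E := 2 ^ r * (4 * r) / s) (F := ∑ j, f (u j)) (PU := PU) (PV := PV) (S := S) hB hτ hτpos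
      hVpos hlampos hlam1 hlamrt ht0 htle hcardJr hκ hPU0 hPV0 htotal _ _ hδ' hδ'1
    · rw [hDD] at hsumf
      exact hsumf
    · linarith
  -- multiply by r - t
  have h1 : (lam * x * B * (1 - δ')) * (r - t) ≤ 1 * (r - t) :=
    mul_le_mul_of_nonneg_right hfin (by linarith)
  have h2 : (lam * x * B * (1 - δ')) * (r - t) = (1 - δ') * B * x := by
    calc (lam * x * B * (1 - δ')) * (r - t) = (lam * (r - t)) * ((1 - δ') * B * x) := by ring
      _ = _ := by rw [hlamrt]; ring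
  rw [h2, one_mul] at h1
  exact h1

end Pool.Agent.helper16
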