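import Mathlib
import Pool.Agent.helper16.Tile

set_option autoImplicit false

namespace Pool.Agent.helper16

open Finset

/-- A simple form of the Kovari-Sos-Turan theorem. -/
lemma kst {ι : Type*} [DecidableEq ι] (ρ : ι → ι → Prop) [∀ a b, Decidable (ρ a b)]
    (A A' : Finset ι) (r m s : ℕ) (δ : ℝ) (hr : 1 ≤ r) (hm : 2 * r ≤ δ * m)
    (hs : m * 2 ^ m ≤ s) (hA : #A = s) (hA' : #A' = s)
    (he : δ * s ^ 2 ≤ (#{e ∈ A ×ˢ A' | ρ e.1 e.2} : ℝ)) :
    ∃ S ⊆ A, ∃ S' ⊆ A', #S = r ∧ #S' = r ∧ ∀ a ∈ S, ∀ b ∈ S', ρ a b := by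
  classical
  have hr0 : (1:ℝ) ≤ r := by exact_mod_cast hr
  have hmpos : 0 < m := by
    rcases Nat.eq_zero_or_pos m with h | h
    · exfalso
      subst h
      simp at hm
      linarith
    · exact h
  have hmR : (0:ℝ) < m := by exact_mod_cast hmpos
  have hms : m ≤ s := le_trans (Nat.le_mul_of_pos_right m (by positivity)) hs
  have hspos : 0 < s := by omega
  have hsR : (0:ℝ) < s := by exact_mod_cast hspos
  -- choose a small subset with many edges
  set dg : ι → ℝ := fun b => (#{a ∈ A | ρ a b} : ℝ) with hdg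
  obtain ⟨A2, hA2sub, hA2card, hA2⟩ := exists_cheap_subset A' (fun b => - dg b) m (by omega)
  have hsumdg : ∑ b ∈ A', dg b = (#{e ∈ A ×ˢ A' | ρ e.1 e.2} : ℝ) := by
    simp only [hdg]
    rw [← Nat.cast_sum]
    congr 1
    rw [card_filter, sum_product_right]
    apply sum_congr rfl
    intro b _
    rw [card_filter]
  have h1 : δ * m * s ≤ ∑ b ∈ A2, dg b := by
    rw [hA'] at hA2
    simp only [sum_neg_distrib] at hA2
    rw [hsumdg] at hA2
    have h2 : (s:ℝ) * (δ * m * s) ≤ s * ∑ b ∈ A2, dg b := by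
      have h3 : (m:ℝ) * (δ * s ^ 2) ≤ m * (#{e ∈ A ×ˢ A' | ρ e.1 e.2} : ℝ) :=
        mul_le_mul_of_nonneg_left he hmR.le
      nlinarith
    exact le_of_mul_le_mul_left h2 hsR
  -- degrees into A2
  set d2 : ι → ℕ := fun a => #{b ∈ A2 | ρ a b} with hd2
  have hsumd2 : ∑ b ∈ A2, dg b = ∑ a ∈ A, (d2 a : ℝ) := by
    simp only [hdg, hd2]
    rw [← Nat.cast_sum, ← Nat.cast_sum]
    congr 1
    simp only [card_filter]
    rw [sum_comm]
  set A1 : Finset ι := {a ∈ A | r ≤ d2 a} with hA1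
  have hA1card : (s:ℝ) * r ≤ #A1 * m := by
    have h2 : ∑ a ∈ A, (d2 a : ℝ) ≤ #A1 * m + s * r := by
      have h3 : ∑ a ∈ A, (d2 a : ℝ) ≤ ∑ a ∈ A, ((if r ≤ d2 a then (m:ℝ) else 0) + r) := by
        apply sum_le_sum
        intro a _
        by_cases h : r ≤ d2 a
        · rw [if_pos h]
          have : d2 a ≤ m := by
            simp only [hd2]
            rw [← hA2card]
            exact card_filter_le _ _
          have : (d2 a : ℝ) ≤ m := by exact_mod_cast this
          linarith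
        · rw [if_neg h]
          push Not at h
          have : (d2 a : ℝ) ≤ r := by exact_mod_cast h.le
          linarith
      rw [sum_add_distrib, ← sum_filter, sum_const, sum_const, nsmul_eq_mul, nsmul_eq_mul, hA] at h3
      exact h3
    have h4 : (2:ℝ) * r * s ≤ δ * m * s := mul_le_mul_of_nonneg_right hm hsR.le
    rw [hsumd2] at h1
    linarith
  have hpig : (r - 1) * 2 ^ m < #A1 := by
    have h2 : s * r ≤ #A1 * m := by exact_mod_cast hA1card
    have h3 : (m * 2 ^ m) * r ≤ #A1 * m := (Nat.mul_le_mul_right r hs).trans h2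
    have h4 : m * (2 ^ m * r) ≤ m * #A1 := by
      calc m * (2 ^ m * r) = (m * 2 ^ m) * r := by ring
        _ ≤ #A1 * m := h3
        _ = m * #A1 := by ring
    have h5 : 2 ^ m * r ≤ #A1 := Nat.le_of_mul_le_mul_left h4 hmpos
    have h6 : (r - 1) * 2 ^ m < 2 ^ m * r := by
      have : 0 < 2 ^ m := by positivity
      calc (r - 1) * 2 ^ m < r * 2 ^ m := by
            apply Nat.mul_lt_mul_of_pos_right _ this
            omega
        _ = 2 ^ m * r := by ring
    omega
  -- choose an r-subset for each element of A1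
  have hch : ∀ a, ∃ T ⊆ A2, a ∈ A1 → (#T = r ∧ ∀ b ∈ T, ρ a b) := by
    intro a
    by_cases ha : a ∈ A1
    · have h2 : r ≤ #{b ∈ A2 | ρ a b} := (mem_filter.1 ha).2
      obtain ⟨T, hT, hTc⟩ := exists_subset_card_eq h2
      refine ⟨T, hT.trans (filter_subset _ _), fun _ => ⟨hTc, ?_⟩⟩
      intro b hb
      exact (mem_filter.1 (hT hb)).2
    · exact ⟨∅, empty_subset _, fun h => (ha h).elim⟩
  choose T hTsub hT using hch
  obtain ⟨T0, hT0, hT0c⟩ := exists_lt_card_fiber_of_mul_lt_card_of_maps_to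
    (s := A1) (t := A2.powerset) (f := T) (n := r - 1)
    (by intro a _; exact mem_powerset.2 (hTsub a))
    (by rw [card_powerset, hA2card, mul_comm]; exact hpig)
  have h2 : r ≤ #{a ∈ A1 | T a = T0} := by omega
  obtain ⟨S, hS, hSc⟩ := exists_subset_card_eq h2
  have hSne : S.Nonempty := by
    rw [← card_pos, hSc]; omega
  obtain ⟨a0, ha0⟩ := hSne
  have ha0' := mem_filter.1 (hS ha0)
  refine ⟨S, ?_, T0, ?_, hSc, ?_, ?_⟩
  · intro a ha
    exact (mem_filter.1 (mem_filter.1 (hS ha)).1).1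
  · rw [← ha0'.2]
    exact (hTsub a0).trans hA2sub
  · rw [← ha0'.2]
    exact (hT a0 ha0'.1).1
  · intro a ha b hb
    have ha' := mem_filter.1 (hS ha)
    apply (hT a ha'.1).2 b
    rw [ha'.2]
    exact hb

/-- The number of ordered pairs of distinct elements of `W` adjacent in neither graph. -/
def gray {ι : Type*} [DecidableEq ι] (R B : SimpleGraph ι) [DecidableRel R.Adj]
    [DecidableRel B.Adj] (W : Finset ι) : ℕ :=
  #{e ∈ W ×ˢ W | e.1 ≠ e.2 ∧ ¬ R.Adj e.1 e.2 ∧ ¬ B.Adj e.1 e.2}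

lemma gray_mono {ι : Type*} [DecidableEq ι] (R B : SimpleGraph ι) [DecidableRel R.Adj]
    [DecidableRel B.Adj] {W W' : Finset ι} (h : W ⊆ W') : gray R B W ≤ gray R B W' :=
  card_le_card (filter_subset_filter _ (product_subset_product h h))

/-- Ramsey's theorem tolerating few gray pairs. -/
theorem ramsey_gray (k : ℕ) : ∀ p q : ℕ, p + q ≤ k → ∃ δ : ℝ, 0 < δ ∧ δ ≤ 1 ∧ ∃ R0 : ℕ,
    ∀ (ι : Type) [DecidableEq ι] (R B : SimpleGraph ι) [DecidableRel R.Adj] [DecidableRel B.Adj]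
      (W : Finset ι), R0 ≤ #W → (gray R B W : ℝ) ≤ δ * #W ^ 2 →
      (∃ K ⊆ W, #K = p ∧ ∀ x ∈ K, ∀ y ∈ K, x ≠ y → R.Adj x y) ∨
      (∃ K ⊆ W, #K = q ∧ ∀ x ∈ K, ∀ y ∈ K, x ≠ y → B.Adj x y) := by
  induction k with
  | zero =>
    intro p q hpq
    have : p = 0 := by omega
    subst this
    refine ⟨1, one_pos, le_rfl, 0, ?_⟩
    intro ι _ R B _ _ W _ _
    left
    exact ⟨∅, empty_subset _, by simp, by simp⟩
  | succ k ih =>
    intro p q hpq
    rcases Nat.eq_zero_or_pos p with hp | hp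
    · subst hp
      refine ⟨1, one_pos, le_rfl, 0, ?_⟩
      intro ι _ R B _ _ W _ _
      left
      exact ⟨∅, empty_subset _, by simp, by simp⟩
    rcases Nat.eq_zero_or_pos q with hq | hq
    · subst hq
      refine ⟨1, one_pos, le_rfl, 0, ?_⟩
      intro ι _ R B _ _ W _ _
      right
      exact ⟨∅, empty_subset _, by simp, by simp⟩
    obtain ⟨δ1, hδ1, hδ11, R1, h1⟩ := ih (p - 1) q (by omega)
    obtain ⟨δ2, hδ2, hδ21, R2, h2⟩ := ih p (q - 1) (by omega)
    refine ⟨min δ1 δ2 / 16, by positivity, ?_, 4 * (R1 + R2 + 1), ?_⟩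
    · have := min_le_left δ1 δ2
      linarith
    intro ι _ R B _ _ W hW hgray
    set δ := min δ1 δ2 / 16 with hδ
    have hδpos : 0 < δ := by positivity
    have hδle1 : 16 * δ ≤ δ1 := by
      have := min_le_left δ1 δ2
      linarith
    have hδle2 : 16 * δ ≤ δ2 := by
      have := min_le_right δ1 δ2
      linarith
    have hWpos : 0 < #W := by omega
    have hWR : (0:ℝ) < #W := by exact_mod_cast hWpos
    -- a vertex with small gray degree
    have hv : ∃ v ∈ W, (#{y ∈ W | v ≠ y ∧ ¬ R.Adj v y ∧ ¬ B.Adj v y} : ℝ) ≤ δ * #W := by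
      by_contra hcon
      push Not at hcon
      have h3 : (#W : ℝ) * (δ * #W) < gray R B W := by
        have h4 : (gray R B W : ℝ) =
            ∑ v ∈ W, (#{y ∈ W | v ≠ y ∧ ¬ R.Adj v y ∧ ¬ B.Adj v y} : ℝ) := by
          unfold gray
          rw [← Nat.cast_sum]
          congr 1
          rw [card_filter, sum_product]
          apply sum_congr rfl
          intro v _
          rw [card_filter]
        rw [h4]
        calc (#W : ℝ) * (δ * #W) = ∑ v ∈ W, δ * #W := by rw [sum_const, nsmul_eq_mul]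
          _ < _ := sum_lt_sum_of_nonempty (card_pos.1 hWpos) hcon
      have : (#W : ℝ) * (δ * #W) = δ * #W ^ 2 := by ring
      linarith
    obtain ⟨v, hvW, hvg⟩ := hv
    set NR : Finset ι := {y ∈ W | R.Adj v y} with hNR
    set NB : Finset ι := {y ∈ W | B.Adj v y} with hNB
    have hcover : #W ≤ 1 + #{y ∈ W | v ≠ y ∧ ¬ R.Adj v y ∧ ¬ B.Adj v y} + #NR + #NB := by
      have hsub : W ⊆ (({v} ∪ {y ∈ W | v ≠ y ∧ ¬ R.Adj v y ∧ ¬ B.Adj v y}) ∪ NR) ∪ NB := by
        intro y hy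
        simp only [mem_union, mem_singleton, hNR, hNB, mem_filter]
        by_cases h3 : y = v
        · tauto
        · by_cases h4 : R.Adj v y
          · tauto
          · by_cases h5 : B.Adj v y
            · tauto
            · left; left; right
              exact ⟨hy, fun h => h3 h.symm, h4, h5⟩
      calc #W ≤ _ := card_le_card hsub
        _ ≤ #(({v} ∪ {y ∈ W | v ≠ y ∧ ¬ R.Adj v y ∧ ¬ B.Adj v y}) ∪ NR) + #NB := card_union_le _ _
        _ ≤ #({v} ∪ {y ∈ W | v ≠ y ∧ ¬ R.Adj v y ∧ ¬ B.Adj v y}) + #NR + #NB := by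
            apply Nat.add_le_add_right
            exact card_union_le _ _
        _ ≤ _ := by
            apply Nat.add_le_add_right
            apply Nat.add_le_add_right
            refine (card_union_le _ _).trans ?_
            simp
    have hcoverR : (#W : ℝ) ≤ 1 + #{y ∈ W | v ≠ y ∧ ¬ R.Adj v y ∧ ¬ B.Adj v y} + #NR + #NB := by
      exact_mod_cast hcover
    have hW4 : (4:ℝ) ≤ #W := by
      have : 4 ≤ #W := by omega
      exact_mod_cast this
    have hδ16 : δ ≤ 1 / 16 := by linarith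
    have hbig : (#W : ℝ) / 4 ≤ #NR ∨ (#W : ℝ) / 4 ≤ #NB := by
      by_contra hcon
      push Not at hcon
      have h3 : δ * #W ≤ 1 / 16 * #W := mul_le_mul_of_nonneg_right hδ16 hWR.le
      linarith [hcon.1, hcon.2]
    rcases hbig with hbig | hbig
    · have hNRsub : NR ⊆ W := filter_subset _ _
      have h3 : R1 ≤ #NR := by
        have h4 : (#W : ℝ) ≤ 4 * #NR := by linarith
        have h5 : #W ≤ 4 * #NR := by exact_mod_cast h4
        omega
      have h4 : (gray R B NR : ℝ) ≤ δ1 * #NR ^ 2 := by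
        have h5 : (gray R B NR : ℝ) ≤ gray R B W := by exact_mod_cast gray_mono R B hNRsub
        have h6 : (#W : ℝ) ^ 2 ≤ 16 * #NR ^ 2 := by nlinarith
        calc (gray R B NR : ℝ) ≤ δ * #W ^ 2 := h5.trans hgray
          _ ≤ δ * (16 * #NR ^ 2) := mul_le_mul_of_nonneg_left h6 hδpos.le
          _ = (16 * δ) * #NR ^ 2 := by ring
          _ ≤ _ := mul_le_mul_of_nonneg_right hδle1 (by positivity)
      rcases h1 ι R B NR h3 h4 with ⟨K, hK, hKc, hKa⟩ | ⟨K, hK, hKc, hKa⟩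
      · left
        refine ⟨insert v K, ?_, ?_, ?_⟩
        · rw [insert_subset_iff]
          exact ⟨hvW, hK.trans hNRsub⟩
        · rw [card_insert_of_notMem, hKc]
          · omega
          · intro hvK
            exact R.loopless.irrefl v (mem_filter.1 (hK hvK)).2
        · intro x hx y hy hxy
          rw [mem_insert] at hx hy
          rcases hx with rfl | hx <;> rcases hy with rfl | hy
          · exact (hxy rfl).elim
          · exact (mem_filter.1 (hK hy)).2
          · exact (mem_filter.1 (hK hx)).2.symm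
          · exact hKa x hx y hy hxy
      · right
        exact ⟨K, hK.trans hNRsub, hKc, hKa⟩
    · have hNBsub : NB ⊆ W := filter_subset _ _
      have h3 : R2 ≤ #NB := by
        have h4 : (#W : ℝ) ≤ 4 * #NB := by linarith
        have h5 : #W ≤ 4 * #NB := by exact_mod_cast h4
        omega
      have h4 : (gray R B NB : ℝ) ≤ δ2 * #NB ^ 2 := by
        have h5 : (gray R B NB : ℝ) ≤ gray R B W := by exact_mod_cast gray_mono R B hNBsub
        have h6 : (#W : ℝ) ^ 2 ≤ 16 * #NB ^ 2 := by nlinarith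
        calc (gray R B NB : ℝ) ≤ δ * #W ^ 2 := h5.trans hgray
          _ ≤ δ * (16 * #NB ^ 2) := mul_le_mul_of_nonneg_left h6 hδpos.le
          _ = (16 * δ) * #NB ^ 2 := by ring
          _ ≤ _ := mul_le_mul_of_nonneg_right hδle2 (by positivity)
      rcases h2 ι R B NB h3 h4 with ⟨K, hK, hKc, hKa⟩ | ⟨K, hK, hKc, hKa⟩
      · left
        exact ⟨K, hK.trans hNBsub, hKc, hKa⟩
      · right
        refine ⟨insert v K, ?_, ?_, ?_⟩
        · rw [insert_subset_iff]
          exact ⟨hvW, hK.trans hNBsub⟩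
        · rw [card_insert_of_notMem, hKc]
          · omega
          · intro hvK
            exact B.loopless.irrefl v (mem_filter.1 (hK hvK)).2
        · intro x hx y hy hxy
          rw [mem_insert] at hx hy
          rcases hx with rfl | hx <;> rcases hy with rfl | hy
          · exact (hxy rfl).elim
          · exact (mem_filter.1 (hK hy)).2
          · exact (mem_filter.1 (hK hx)).2.symm
          · exact hKa x hx y hy hxy

/-- Almost everything is covered by disjoint monochromatic cliques of size `s`. -/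
theorem clique_partition (s : ℕ) (hs : 1 ≤ s) (ε1 : ℝ) (hε1 : 0 < ε1) :
    ∃ ε : ℝ, 0 < ε ∧ ∃ t0 : ℕ, ∀ (ι : Type) [Fintype ι] [DecidableEq ι] (R B : SimpleGraph ι)
      [DecidableRel R.Adj] [DecidableRel B.Adj], t0 ≤ Fintype.card ι →
      (gray R B univ : ℝ) ≤ ε * (Fintype.card ι) ^ 2 →
      ∃ 𝒜 𝒟 : Finset (Finset ι), (∀ A ∈ 𝒜, #A = s ∧ ∀ x ∈ A, ∀ y ∈ A, x ≠ y → R.Adj x y) ∧
        (∀ A ∈ 𝒟, #A = s ∧ ∀ x ∈ A, ∀ y ∈ A, x ≠ y → B.Adj x y) ∧
        (∀ A ∈ 𝒜, ∀ A' ∈ 𝒜, A ≠ A' → Disjoint A A') ∧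
        (∀ A ∈ 𝒟, ∀ A' ∈ 𝒟, A ≠ A' → Disjoint A A') ∧
        (∀ A ∈ 𝒜, ∀ A' ∈ 𝒟, Disjoint A A') ∧
        (1 - ε1) * Fintype.card ι ≤ s * (#𝒜 + #𝒟) := by
  obtain ⟨δ, hδ, hδ1, R0, hR0⟩ := ramsey_gray (s + s) s s le_rfl
  refine ⟨δ * ε1 ^ 2, by positivity, ⌈R0 / ε1⌉₊ + 1, ?_⟩
  intro ι _ _ R B _ _ ht hgray
  classical
  set good : Finset (Finset ι) → Prop := fun 𝓕 =>
    (∀ A ∈ 𝓕, #A = s ∧ ((∀ x ∈ A, ∀ y ∈ A, x ≠ y → R.Adj x y) ∨
      (∀ x ∈ A, ∀ y ∈ A, x ≠ y → B.Adj x y))) ∧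
    (∀ A ∈ 𝓕, ∀ A' ∈ 𝓕, A ≠ A' → Disjoint A A') with hgood
  obtain ⟨𝓕, h𝓕, hmax⟩ := exists_max_image (univ.filter good : Finset (Finset (Finset ι))) card
    ⟨∅, by simp [hgood]⟩
  rw [mem_filter] at h𝓕
  obtain ⟨-, hF1, hF2⟩ := h𝓕
  set W : Finset ι := univ \ 𝓕.biUnion id with hW
  have hWsmall : (#W : ℝ) ≤ ε1 * Fintype.card ι := by
    by_contra hcon
    push Not at hcon
    have htR : (R0 : ℝ) / ε1 ≤ Fintype.card ι := by
      have h1 : (R0 : ℝ) / ε1 ≤ ⌈(R0 : ℝ) / ε1⌉₊ := Nat.le_ceil _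
      have h2 : ((⌈(R0 : ℝ) / ε1⌉₊ + 1 : ℕ) : ℝ) ≤ Fintype.card ι := by exact_mod_cast ht
      push_cast at h2
      linarith
    have h1 : R0 ≤ #W := by
      have h2 : (R0 : ℝ) ≤ ε1 * Fintype.card ι := by
        rw [div_le_iff₀ hε1] at htR
        linarith
      have h3 : (R0 : ℝ) ≤ #W := by linarith
      exact_mod_cast h3
    have h2 : (gray R B W : ℝ) ≤ δ * #W ^ 2 := by
      have h3 : (gray R B W : ℝ) ≤ gray R B univ := by
        exact_mod_cast gray_mono R B (subset_univ W)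
      have h4 : (ε1 * Fintype.card ι) ^ 2 ≤ (#W : ℝ) ^ 2 := by
        apply pow_le_pow_left₀ (by positivity) hcon.le
      calc (gray R B W : ℝ) ≤ δ * ε1 ^ 2 * (Fintype.card ι) ^ 2 := h3.trans hgray
        _ = δ * (ε1 * Fintype.card ι) ^ 2 := by ring
        _ ≤ _ := mul_le_mul_of_nonneg_left h4 hδ.le
    have h3 : ∃ K ⊆ W, #K = s ∧ ((∀ x ∈ K, ∀ y ∈ K, x ≠ y → R.Adj x y) ∨
        (∀ x ∈ K, ∀ y ∈ K, x ≠ y → B.Adj x y)) := by
      rcases hR0 ι R B W h1 h2 with ⟨K, hK, hKc, hKa⟩ | ⟨K, hK, hKc, hKa⟩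
      · exact ⟨K, hK, hKc, Or.inl hKa⟩
      · exact ⟨K, hK, hKc, Or.inr hKa⟩
    obtain ⟨K, hKW, hKc, hKa⟩ := h3
    have hKdisj : ∀ A ∈ 𝓕, Disjoint K A := by
      intro A hA
      rw [Finset.disjoint_left]
      intro x hxK hxA
      have := hKW hxK
      rw [hW, mem_sdiff, mem_biUnion] at this
      exact this.2 ⟨A, hA, hxA⟩
    have hKF : K ∉ 𝓕 := by
      intro hKF
      have := hKdisj K hKF
      rw [disjoint_self] at this
      have h4 : #K = 0 := by rw [this]; rfl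
      omega
    have hins : insert K 𝓕 ∈ (univ.filter good : Finset (Finset (Finset ι))) := by
      rw [mem_filter]
      refine ⟨mem_univ _, ?_, ?_⟩
      · intro A hA
        rw [mem_insert] at hA
        rcases hA with rfl | hA
        · exact ⟨hKc, hKa⟩
        · exact hF1 A hA
      · intro A hA A' hA' hne
        rw [mem_insert] at hA hA'
        rcases hA with rfl | hA <;> rcases hA' with rfl | hA'
        · exact (hne rfl).elim
        · exact hKdisj A' hA'
        · exact (hKdisj A hA).symm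
        · exact hF2 A hA A' hA' hne
    have := hmax _ hins
    rw [card_insert_of_notMem hKF] at this
    omega
  have hunion : #(𝓕.biUnion id) = #𝓕 * s := by
    rw [card_biUnion (t := id) (fun A hA A' hA' h => hF2 A hA A' hA' h)]
    exact sum_const_nat (fun A hA => (hF1 A hA).1)
  refine ⟨𝓕.filter (fun A => ∀ x ∈ A, ∀ y ∈ A, x ≠ y → R.Adj x y),
    𝓕.filter (fun A => ¬ ∀ x ∈ A, ∀ y ∈ A, x ≠ y → R.Adj x y), ?_, ?_, ?_, ?_, ?_, ?_⟩
  · intro A hA
    rw [mem_filter] at hA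
    exact ⟨(hF1 A hA.1).1, hA.2⟩
  · intro A hA
    rw [mem_filter] at hA
    refine ⟨(hF1 A hA.1).1, ?_⟩
    rcases (hF1 A hA.1).2 with h | h
    · exact (hA.2 h).elim
    · exact h
  · intro A hA A' hA' hne
    exact hF2 A (mem_filter.1 hA).1 A' (mem_filter.1 hA').1 hne
  · intro A hA A' hA' hne
    exact hF2 A (mem_filter.1 hA).1 A' (mem_filter.1 hA').1 hne
  · intro A hA A' hA'
    apply hF2 A (mem_filter.1 hA).1 A' (mem_filter.1 hA').1
    rintro rfl
    exact (mem_filter.1 hA').2 (mem_filter.1 hA).2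
  · have h1 := card_filter_add_card_filter_not (s := 𝓕) (fun A => ∀ x ∈ A, ∀ y ∈ A, x ≠ y → R.Adj x y)
    have h2 : (#(𝓕.filter (fun A => ∀ x ∈ A, ∀ y ∈ A, x ≠ y → R.Adj x y)) : ℝ) +
        #(𝓕.filter (fun A => ¬ ∀ x ∈ A, ∀ y ∈ A, x ≠ y → R.Adj x y)) = #𝓕 := by
      exact_mod_cast h1
    rw [h2]
    have h3 : #W + #(𝓕.biUnion id) = Fintype.card ι := by
      rw [hW, card_sdiff_add_card_eq_card (subset_univ _), card_univ]
    have h4 : (#W : ℝ) + #𝓕 * s = Fintype.card ι := by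
      rw [hunion] at h3
      exact_mod_cast h3
    linarith

end Pool.Agent.helper16
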