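import Mathlib
import Pool.Agent.helper16.Cross
import Pool.Agent.helper16.Ramsey

set_option autoImplicit false

namespace Pool.Agent.helper16

open Finset

variable {ι : Type*}

lemma eCount_nonneg (Γ : SimpleGraph ι) [DecidableRel Γ.Adj] (V U : Finset ι) :
    0 ≤ eCount Γ V U := by
  unfold eCount; exact Nat.cast_nonneg _

/-- Labelling cliques by the component of their tuples. -/
lemma exists_label [DecidableEq ι] [Nonempty ι] (Γ : SimpleGraph ι) [DecidableRel Γ.Adj]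
    (r m s : ℕ) (δ : ℝ) (hr : 1 ≤ r) (hm : 2 * r ≤ δ * m) (hs : m * 2 ^ m ≤ s) (hs3 : 3 * r ≤ s)
    (𝒜 : Finset (Finset ι))
    (h𝒜 : ∀ A ∈ 𝒜, #A = s ∧ ∀ x ∈ A, ∀ y ∈ A, x ≠ y → Γ.Adj x y) :
    ∃ comp : Finset ι → (tupGraph Γ r).ConnectedComponent,
      (∀ A ∈ 𝒜, ∀ A' ∈ 𝒜, comp A = comp A' → ∀ Q Q' : Fin r → ι, Function.Injective Q →
        Function.Injective Q' → (∀ a, Q a ∈ A) → (∀ a, Q' a ∈ A') →
        (tupGraph Γ r).Reachable Q Q') ∧
      (∀ A ∈ 𝒜, ∀ A' ∈ 𝒜, comp A ≠ comp A' → eCount Γ A A' ≤ δ * s ^ 2) := by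
  classical
  have hex : ∀ A : Finset ι, ∃ Q : Fin r → ι, A ∈ 𝒜 → (Function.Injective Q ∧ ∀ a, Q a ∈ A) := by
    intro A
    by_cases hA : A ∈ 𝒜
    · obtain ⟨F, hF, hFc⟩ := exists_subset_card_eq (show r ≤ #A by rw [(h𝒜 A hA).1]; omega)
      obtain ⟨Q, hQ, hQF, _⟩ := exists_tup F hFc
      exact ⟨Q, fun _ => ⟨hQ, fun a => hF (hQF a)⟩⟩
    · exact ⟨fun _ => Classical.arbitrary ι, fun h => (hA h).elim⟩
  choose base hbase using hex
  refine ⟨fun A => (tupGraph Γ r).connectedComponentMk (base A), ?_, ?_⟩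
  · intro A hA A' hA' hcomp Q Q' hQ hQ' hQA hQA'
    have h1 : (tupGraph Γ r).Reachable (base A) (base A') := by
      rwa [SimpleGraph.ConnectedComponent.eq] at hcomp
    have h2 := reach_in_clique hQ (hbase A hA).1 (h𝒜 A hA).2 (by rw [(h𝒜 A hA).1]; exact hs3)
      hQA (hbase A hA).2
    have h3 := reach_in_clique (hbase A' hA').1 hQ' (h𝒜 A' hA').2
      (by rw [(h𝒜 A' hA').1]; exact hs3) (hbase A' hA').2 hQA'
    exact (h2.trans h1).trans h3
  · intro A hA A' hA' hcomp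
    by_contra hcon
    push Not at hcon
    apply hcomp
    rw [SimpleGraph.ConnectedComponent.eq]
    obtain ⟨S, hS, S', hS', hSc, hSc', hSS⟩ := kst (fun a b => Γ.Adj a b) A A' r m s δ hr hm hs
      (h𝒜 A hA).1 (h𝒜 A' hA').1 hcon.le
    obtain ⟨Q, hQ, hQS, _⟩ := exists_tup S hSc
    obtain ⟨Q', hQ', hQS', _⟩ := exists_tup S' hSc'
    have hQA : ∀ a, Q a ∈ A := fun a => hS (hQS a)
    have hQA' : ∀ a, Q' a ∈ A' := fun a => hS' (hQS' a)
    have h1 : (tupGraph Γ r).Reachable Q Q' := by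
      apply reach_swap (isTup_of_clique hQ (h𝒜 A hA).2 hQA)
        (isTup_of_clique hQ' (h𝒜 A' hA').2 hQA')
      intro a b _
      exact hSS _ (hQS a) _ (hQS' b)
    have h2 := reach_in_clique (hbase A hA).1 hQ (h𝒜 A hA).2 (by rw [(h𝒜 A hA).1]; exact hs3)
      (hbase A hA).2 hQA
    have h3 := reach_in_clique hQ' (hbase A' hA').1 (h𝒜 A' hA').2
      (by rw [(h𝒜 A' hA').1]; exact hs3) hQA' (hbase A' hA').2
    exact (h2.trans h1).trans h3

/-- Edges between unions of cliques. -/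
lemma eCount_biUnion [DecidableEq ι] (Γ : SimpleGraph ι) [DecidableRel Γ.Adj]
    (s : ℕ) (δ : ℝ) (𝒢 𝒢' : Finset (Finset ι))
    (hcard : ∀ A ∈ 𝒢, #A = s) (hcard' : ∀ A ∈ 𝒢', #A = s)
    (hd : ∀ A ∈ 𝒢, ∀ A' ∈ 𝒢, A ≠ A' → Disjoint A A')
    (hd' : ∀ A ∈ 𝒢', ∀ A' ∈ 𝒢', A ≠ A' → Disjoint A A')
    (he : ∀ A ∈ 𝒢, ∀ A' ∈ 𝒢', eCount Γ A A' ≤ δ * s ^ 2) :
    eCount Γ (𝒢.biUnion id) (𝒢'.biUnion id) ≤ δ * #(𝒢.biUnion id) * #(𝒢'.biUnion id) := by
  classical
  have h1 : eCount Γ (𝒢.biUnion id) (𝒢'.biUnion id) = ∑ A ∈ 𝒢, ∑ A' ∈ 𝒢', eCount Γ A A' := by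
    rw [eCount_eq_left]
    have h2 : ∀ g : ι → ℝ, ∑ v ∈ 𝒢.biUnion id, g v = ∑ A ∈ 𝒢, ∑ v ∈ A, g v := by
      intro g
      exact sum_biUnion (t := id) (fun A hA A' hA' h => hd A hA A' hA' h)
    rw [h2]
    apply sum_congr rfl
    intro A _
    have h3 : ∀ v, (#{u ∈ 𝒢'.biUnion id | Γ.Adj v u} : ℝ) =
        ∑ A' ∈ 𝒢', (#{u ∈ A' | Γ.Adj v u} : ℝ) := by
      intro v
      have h4 : ∀ g : ι → ℝ, ∑ u ∈ 𝒢'.biUnion id, g u = ∑ A ∈ 𝒢', ∑ u ∈ A, g u := by
        intro g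
        exact sum_biUnion (t := id) (fun A hA A' hA' h => hd' A hA A' hA' h)
      have h5 : ∀ S : Finset ι, (#{u ∈ S | Γ.Adj v u} : ℝ) =
          ∑ u ∈ S, (if Γ.Adj v u then (1:ℝ) else 0) := by
        intro S
        rw [card_filter]
        push_cast
        rfl
      rw [h5, h4]
      apply sum_congr rfl
      intro A' _
      rw [h5]
    simp only [h3]
    rw [sum_comm]
    apply sum_congr rfl
    intro A' _
    rw [eCount_eq_left]
  rw [h1]
  have hc : (#(𝒢.biUnion id) : ℝ) = #𝒢 * s := by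
    have : #(𝒢.biUnion id) = #𝒢 * s := by
      rw [card_biUnion (t := id) (fun A hA A' hA' h => hd A hA A' hA' h)]
      exact sum_const_nat hcard
    exact_mod_cast this
  have hc' : (#(𝒢'.biUnion id) : ℝ) = #𝒢' * s := by
    have : #(𝒢'.biUnion id) = #𝒢' * s := by
      rw [card_biUnion (t := id) (fun A hA A' hA' h => hd' A hA A' hA' h)]
      exact sum_const_nat hcard'
    exact_mod_cast this
  calc ∑ A ∈ 𝒢, ∑ A' ∈ 𝒢', eCount Γ A A' ≤ ∑ A ∈ 𝒢, ∑ A' ∈ 𝒢', δ * s ^ 2 := by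
        apply sum_le_sum
        intro A hA
        apply sum_le_sum
        intro A' hA'
        exact he A hA A' hA'
    _ = δ * (#𝒢 * s) * (#𝒢' * s) := by
        simp only [sum_const, nsmul_eq_mul]
        ring
    _ = _ := by rw [hc, hc']

/-- Pairs not adjacent in the other colour. -/
lemma nonadj_le [Fintype ι] [DecidableEq ι] (Γ Γ' : SimpleGraph ι) [DecidableRel Γ.Adj]
    [DecidableRel Γ'.Adj] (V U : Finset ι) (hVU : Disjoint V U) :
    (#{e ∈ V ×ˢ U | ¬ Γ'.Adj e.1 e.2} : ℝ) ≤ eCount Γ V U + gray Γ Γ' univ := by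
  classical
  unfold eCount gray
  have h1 : ({e ∈ V ×ˢ U | ¬ Γ'.Adj e.1 e.2} : Finset (ι × ι)) ⊆
      {e ∈ V ×ˢ U | Γ.Adj e.1 e.2} ∪
      {e ∈ (univ : Finset ι) ×ˢ (univ : Finset ι) | e.1 ≠ e.2 ∧ ¬ Γ.Adj e.1 e.2 ∧
        ¬ Γ'.Adj e.1 e.2} := by
    intro e he
    rw [mem_filter, mem_product] at he
    rw [mem_union, mem_filter, mem_filter, mem_product, mem_product]
    by_cases h : Γ.Adj e.1 e.2
    · left; exact ⟨he.1, h⟩
    · right
      refine ⟨⟨mem_univ _, mem_univ _⟩, ?_, h, he.2⟩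
      intro heq
      exact Finset.disjoint_left.1 hVU he.1.1 (heq ▸ he.1.2)
  have h2 := (card_le_card h1).trans (card_union_le _ _)
  exact_mod_cast h2

/-- Greedy grouping. -/
lemma grouping {κT : Type*} [DecidableEq κT] (y : κT → ℝ) (m : ℕ) :
    ∀ (S : Finset κT), (∀ c ∈ S, y c ≤ 4) → 8 * (m : ℝ) ≤ ∑ c ∈ S, y c →
    ∃ g : Fin m → Finset κT, (∀ k, g k ⊆ S) ∧ (∀ k l, k ≠ l → Disjoint (g k) (g l)) ∧
      ∀ k, 4 ≤ ∑ c ∈ g k, y c := by
  induction m with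
  | zero =>
    intro S _ _
    exact ⟨fun k => k.elim0, fun k => k.elim0, fun k => k.elim0, fun k => k.elim0⟩
  | succ m ih =>
    intro S hS hsum
    push_cast at hsum
    have hm0 : (0:ℝ) ≤ m := Nat.cast_nonneg _
    obtain ⟨T, hT, hmin⟩ := exists_min_image (S.powerset.filter (fun T => 4 ≤ ∑ c ∈ T, y c)) card
      ⟨S, by
        rw [mem_filter]
        exact ⟨mem_powerset.2 Subset.rfl, by linarith⟩⟩
    rw [mem_filter, mem_powerset] at hT
    have hTne : T.Nonempty := by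
      rw [nonempty_iff_ne_empty]
      rintro rfl
      have := hT.2
      simp at this
      linarith
    obtain ⟨c, hc⟩ := hTne
    have hT8 : ∑ c ∈ T, y c ≤ 8 := by
      have h1 : ∑ c ∈ T.erase c, y c < 4 := by
        by_contra hcon
        push Not at hcon
        have := hmin (T.erase c) (by
          rw [mem_filter, mem_powerset]
          exact ⟨(erase_subset _ _).trans hT.1, hcon⟩)
        rw [card_erase_of_mem hc] at this
        have : 0 < #T := card_pos.2 ⟨c, hc⟩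
        omega
      have h2 := add_sum_erase T y hc
      have h3 := hS c (hT.1 hc)
      linarith
    have hrest : 8 * (m : ℝ) ≤ ∑ c ∈ S \ T, y c := by
      have := sum_sdiff (f := y) hT.1
      linarith
    obtain ⟨g, hg1, hg2, hg3⟩ := ih (S \ T) (fun c hc => hS c (mem_sdiff.1 hc).1) hrest
    refine ⟨Fin.cons T g, ?_, ?_, ?_⟩
    · intro k
      refine Fin.cases ?_ ?_ k
      · exact hT.1
      · intro k
        exact (hg1 k).trans sdiff_subset
    · intro k l hkl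
      rcases Fin.eq_zero_or_eq_succ k with rfl | ⟨k', rfl⟩ <;>
      rcases Fin.eq_zero_or_eq_succ l with rfl | ⟨l', rfl⟩
      · exact (hkl rfl).elim
      · rw [Fin.cons_zero, Fin.cons_succ]
        exact disjoint_of_subset_right (hg1 l') disjoint_sdiff
      · rw [Fin.cons_zero, Fin.cons_succ]
        exact (disjoint_of_subset_right (hg1 k') disjoint_sdiff).symm
      · rw [Fin.cons_succ, Fin.cons_succ]
        exact hg2 k' l' (fun h => hkl (by rw [h]))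
    · intro k
      refine Fin.cases ?_ ?_ k
      · exact hT.2
      · exact hg3

end Pool.Agent.helper16
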