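import Mathlib
import Pool.Agent.helper16.Labels

set_option autoImplicit false

namespace Pool.Agent.helper16

open Finset

variable {ι : Type*}

/-- Disjoint labelled `Γ`-cliques of size `s`; cliques with the same label are connected, cliques
with different labels have few `Γ`-edges between them. -/
structure CliqueData (Γ : SimpleGraph ι) [DecidableRel Γ.Adj] (r s : ℕ) (δ1 : ℝ)
    (𝒜 : Finset (Finset ι)) {κT : Type*} (comp : Finset ι → κT) : Prop where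
  card : ∀ A ∈ 𝒜, #A = s
  clique : ∀ A ∈ 𝒜, ∀ x ∈ A, ∀ y ∈ A, x ≠ y → Γ.Adj x y
  disj : ∀ A ∈ 𝒜, ∀ A' ∈ 𝒜, A ≠ A' → Disjoint A A'
  reach : ∀ A ∈ 𝒜, ∀ A' ∈ 𝒜, comp A = comp A' → ∀ Q Q' : Fin r → ι, Function.Injective Q →
    Function.Injective Q' → (∀ a, Q a ∈ A) → (∀ a, Q' a ∈ A') → (tupGraph Γ r).Reachable Q Q'
  few : ∀ A ∈ 𝒜, ∀ A' ∈ 𝒜, comp A ≠ comp A' → eCount Γ A A' ≤ δ1 * s ^ 2

/-- The union of the cliques whose label lies in `T`. -/
def lab [DecidableEq ι] {κT : Type*} [DecidableEq κT] (𝒜 : Finset (Finset ι))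
    (comp : Finset ι → κT) (T : Finset κT) : Finset ι :=
  (𝒜.filter (fun A => comp A ∈ T)).biUnion id

section

variable [DecidableEq ι] {κT : Type*} [DecidableEq κT] {Γ : SimpleGraph ι} [DecidableRel Γ.Adj]
  {r s : ℕ} {δ1 : ℝ} {𝒜 : Finset (Finset ι)} {comp : Finset ι → κT}

lemma CliqueData.card_lab (D : CliqueData Γ r s δ1 𝒜 comp) (T : Finset κT) :
    #(lab 𝒜 comp T) = #(𝒜.filter (fun A => comp A ∈ T)) * s := by
  unfold lab
  rw [card_biUnion (t := id) (fun A hA A' hA' h => D.disj A (mem_filter.1 hA).1 A'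
    (mem_filter.1 hA').1 h)]
  exact sum_const_nat (fun A hA => D.card A (mem_filter.1 hA).1)

lemma CliqueData.card_lab_sum (D : CliqueData Γ r s δ1 𝒜 comp) (T : Finset κT) :
    #(lab 𝒜 comp T) = ∑ c ∈ T, #(lab 𝒜 comp {c}) := by
  rw [D.card_lab]
  simp only [D.card_lab]
  rw [← sum_mul]
  congr 1
  rw [card_eq_sum_card_fiberwise (f := comp) (t := T)]
  · apply sum_congr rfl
    intro c hc
    rw [filter_filter]
    congr 1
    apply filter_congr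
    intro A _
    rw [mem_singleton]
    constructor
    · rintro ⟨_, h⟩; exact h
    · intro h; rw [h]; exact ⟨hc, rfl⟩
  · intro A hA
    exact (mem_filter.1 hA).2

lemma CliqueData.lab_disjoint (D : CliqueData Γ r s δ1 𝒜 comp) {T T' : Finset κT}
    (h : Disjoint T T') : Disjoint (lab 𝒜 comp T) (lab 𝒜 comp T') := by
  unfold lab
  rw [disjoint_biUnion_left]
  intro A hA
  rw [disjoint_biUnion_right]
  intro A' hA'
  rw [mem_filter] at hA hA'
  apply D.disj A hA.1 A' hA'.1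
  rintro rfl
  exact Finset.disjoint_left.1 h hA.2 hA'.2

lemma CliqueData.eCount_lab (D : CliqueData Γ r s δ1 𝒜 comp) {T T' : Finset κT}
    (h : Disjoint T T') :
    eCount Γ (lab 𝒜 comp T) (lab 𝒜 comp T') ≤ δ1 * #(lab 𝒜 comp T) * #(lab 𝒜 comp T') := by
  unfold lab
  apply eCount_biUnion Γ s δ1
  · intro A hA; exact D.card A (mem_filter.1 hA).1
  · intro A hA; exact D.card A (mem_filter.1 hA).1
  · intro A hA A' hA'; exact D.disj A (mem_filter.1 hA).1 A' (mem_filter.1 hA').1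
  · intro A hA A' hA'; exact D.disj A (mem_filter.1 hA).1 A' (mem_filter.1 hA').1
  · intro A hA A' hA'
    rw [mem_filter] at hA hA'
    apply D.few A hA.1 A' hA'.1
    intro heq
    exact Finset.disjoint_left.1 h hA.2 (heq ▸ hA'.2)

end

/-- Few non-edges of the other colour between big sets. -/
lemma few_of_big [Fintype ι] [DecidableEq ι] (Γ Γ' : SimpleGraph ι) [DecidableRel Γ.Adj]
    [DecidableRel Γ'.Adj] (V U : Finset ι) (hVU : Disjoint V U) (B δ1 ζ : ℝ)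
    (he : eCount Γ V U ≤ δ1 * #V * #U) (hδ1 : δ1 ≤ ζ / 2) (hζ : 0 ≤ ζ) (hB : 0 < B)
    (hgray : B ^ 2 * (gray Γ Γ' univ : ℝ) ≤ 8 * ζ) (hV : 4 ≤ B * #V) (hU : 4 ≤ B * #U) :
    (#{e ∈ V ×ˢ U | ¬ Γ'.Adj e.1 e.2} : ℝ) ≤ ζ * #V * #U := by
  have h1 := nonadj_le Γ Γ' V U hVU
  have hV0 : (0:ℝ) ≤ #V := Nat.cast_nonneg _
  have hU0 : (0:ℝ) ≤ #U := Nat.cast_nonneg _
  have h2 : (gray Γ Γ' univ : ℝ) ≤ ζ / 2 * #V * #U := by
    have h3 : (16:ℝ) ≤ (B * #V) * (B * #U) := by nlinarith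
    have h4 : B ^ 2 * (gray Γ Γ' univ : ℝ) ≤ B ^ 2 * (ζ / 2 * #V * #U) := by
      calc B ^ 2 * (gray Γ Γ' univ : ℝ) ≤ 8 * ζ := hgray
        _ = ζ / 2 * 16 := by ring
        _ ≤ ζ / 2 * ((B * #V) * (B * #U)) := mul_le_mul_of_nonneg_left h3 (by linarith)
        _ = _ := by ring
    exact le_of_mul_le_mul_left h4 (by positivity)
  have h5 : δ1 * #V * #U ≤ ζ / 2 * #V * #U := by
    apply mul_le_mul_of_nonneg_right _ hU0
    exact mul_le_mul_of_nonneg_right hδ1 hV0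
  linarith

lemma groups_rich [Fintype ι] [DecidableEq ι] (Γ Γ' : SimpleGraph ι) [DecidableRel Γ.Adj]
    [DecidableRel Γ'.Adj] (r s : ℕ) (B δ1 δ2 δ3 : ℝ) (𝒜 : Finset (Finset ι)) {κT : Type*}
    [DecidableEq κT] (comp : Finset ι → κT) (D : CliqueData Γ r s δ1 𝒜 comp) (hB : 0 < B)
    (hδ2 : 0 ≤ δ2) (hδ3 : 0 < δ3)
    (hs2 : (r + 1) * δ2 ≤ 1 / 2) (hs3 : (r + 1) * δ3 ≤ 1 / 8)
    (hδ1 : δ1 ≤ δ2 * δ3 / 2) (hgray : B ^ 2 * (gray Γ Γ' univ : ℝ) ≤ 8 * (δ2 * δ3))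
    (g : Fin (r+1) → Finset κT) (hg : ∀ k l, k ≠ l → Disjoint (g k) (g l))
    (hbig : ∀ k, 4 ≤ B * #(lab 𝒜 comp (g k))) : Rich Γ' r B := by
  apply rich_of_groups Γ' r B hB (fun k => lab 𝒜 comp (g k))
    (fun k l hkl => D.lab_disjoint (hg k l hkl)) δ2 δ3 hδ2 hδ3 hs2 hs3 _ hbig
  intro k l hkl
  exact few_of_big Γ Γ' _ _ (D.lab_disjoint (hg k l hkl)) B δ1 (δ2 * δ3)
    (D.eCount_lab (hg k l hkl)) hδ1 (by positivity) hB hgray (hbig k) (hbig l)

/-- If the other colour is not rich, there are at most `r` big labels and the small labels have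
bounded total size. -/
lemma side_bound [Fintype ι] [DecidableEq ι] (Γ Γ' : SimpleGraph ι) [DecidableRel Γ.Adj]
    [DecidableRel Γ'.Adj] (r s : ℕ) (B δ1 δ2 δ3 : ℝ) (𝒜 : Finset (Finset ι)) {κT : Type*}
    [DecidableEq κT] (comp : Finset ι → κT) (D : CliqueData Γ r s δ1 𝒜 comp) (hB : 0 < B)
    (hδ2 : 0 ≤ δ2) (hδ3 : 0 < δ3)
    (hs2 : (r + 1) * δ2 ≤ 1 / 2) (hs3 : (r + 1) * δ3 ≤ 1 / 8)
    (hδ1 : δ1 ≤ δ2 * δ3 / 2) (hgray : B ^ 2 * (gray Γ Γ' univ : ℝ) ≤ 8 * (δ2 * δ3))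
    (hnot : ¬ Rich Γ' r B) :
    #((𝒜.image comp).filter (fun c => 4 ≤ B * (#(lab 𝒜 comp {c}) : ℝ))) ≤ r ∧
    B * (#𝒜 * s) ≤ ∑ c ∈ (𝒜.image comp).filter (fun c => 4 ≤ B * (#(lab 𝒜 comp {c}) : ℝ)),
      B * (#(lab 𝒜 comp {c}) : ℝ) + 8 * (r + 1) := by
  classical
  constructor
  · by_contra hcon
    push Not at hcon
    obtain ⟨T, hT, hTc⟩ := exists_subset_card_eq (show r + 1 ≤ _ from hcon)
    let e := T.equivFinOfCardEq hTc
    apply hnot
    apply groups_rich Γ Γ' r s B δ1 δ2 δ3 𝒜 comp D hB hδ2 hδ3 hs2 hs3 hδ1 hgray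
      (fun k => {((e.symm k : T) : κT)})
    · intro k l hkl
      rw [disjoint_singleton]
      intro h
      exact hkl (e.symm.injective (Subtype.ext h))
    · intro k
      have := hT (e.symm k).2
      exact (mem_filter.1 this).2
  · have htot : (#𝒜 : ℝ) * s = ∑ c ∈ 𝒜.image comp, (#(lab 𝒜 comp {c}) : ℝ) := by
      have h1 := D.card_lab_sum (𝒜.image comp)
      rw [D.card_lab] at h1
      have h2 : 𝒜.filter (fun A => comp A ∈ 𝒜.image comp) = 𝒜 := by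
        apply filter_true_of_mem
        intro A hA
        exact mem_image_of_mem _ hA
      rw [h2] at h1
      exact_mod_cast h1
    rw [htot, mul_sum]
    rw [← sum_filter_add_sum_filter_not (𝒜.image comp)
      (fun c => 4 ≤ B * (#(lab 𝒜 comp {c}) : ℝ))]
    apply add_le_add le_rfl
    by_contra hcon
    rw [not_le] at hcon
    obtain ⟨g, hg1, hg2, hg3⟩ := grouping (fun c => B * (#(lab 𝒜 comp {c}) : ℝ)) (r + 1)
      ((𝒜.image comp).filter (fun c => ¬ 4 ≤ B * (#(lab 𝒜 comp {c}) : ℝ)))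
      (by
        intro c hc
        exact (not_le.1 (mem_filter.1 hc).2).le)
      (by push_cast; exact hcon.le)
    apply hnot
    apply groups_rich Γ Γ' r s B δ1 δ2 δ3 𝒜 comp D hB hδ2 hδ3 hs2 hs3 hδ1 hgray g hg2
    intro k
    have h1 := hg3 k
    rw [← mul_sum] at h1
    rw [D.card_lab_sum (g k)]
    push_cast
    exact h1

end Pool.Agent.helper16
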