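import Mathlib
import Pool.Agent.helper16.Side

set_option autoImplicit false

namespace Pool.Agent.helper16

open Finset

variable {ι : Type*}

lemma gray_comm [DecidableEq ι] (R B : SimpleGraph ι) [DecidableRel R.Adj] [DecidableRel B.Adj]
    (W : Finset ι) : gray R B W = gray B R W := by
  unfold gray
  congr 1
  apply filter_congr
  intro e _
  tauto

lemma eCount_comm (Γ : SimpleGraph ι) [DecidableRel Γ.Adj] (V U : Finset ι) :
    eCount Γ V U = eCount Γ U V := by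
  rw [eCount_eq_left, eCount_eq_right]
  apply sum_congr rfl
  intro v _
  congr 2
  apply filter_congr
  intro u _
  exact Γ.adj_comm v u

lemma eCount_add [Fintype ι] [DecidableEq ι] (Γ Γ' : SimpleGraph ι) [DecidableRel Γ.Adj]
    [DecidableRel Γ'.Adj] (V U : Finset ι) (hVU : Disjoint V U) :
    (#V : ℝ) * #U ≤ eCount Γ V U + eCount Γ' V U + gray Γ Γ' univ := by
  classical
  have h1 := nonadj_le Γ Γ' V U hVU
  have h2 : (#V : ℝ) * #U = eCount Γ' V U + #{e ∈ V ×ˢ U | ¬ Γ'.Adj e.1 e.2} := by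
    unfold eCount
    have := card_filter_add_card_filter_not (s := V ×ˢ U) (fun e => Γ'.Adj e.1 e.2)
    rw [card_product] at this
    exact_mod_cast this.symm
  linarith

lemma label_cross [Fintype ι] [DecidableEq ι] (Γ Γ' : SimpleGraph ι) [DecidableRel Γ.Adj]
    [DecidableRel Γ'.Adj] (r s : ℕ) (hs : r + 1 ≤ s) (B δ1 δ2 δ3 κ δ' : ℝ)
    (𝒜 𝒟 : Finset (Finset ι)) {κT κT' : Type*}
    [DecidableEq κT] [DecidableEq κT'] (comp : Finset ι → κT) (comp' : Finset ι → κT')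
    (D : CliqueData Γ r s δ1 𝒜 comp) (D' : CliqueData Γ' r s δ1 𝒟 comp')
    (hAD : ∀ A ∈ 𝒜, ∀ A' ∈ 𝒟, Disjoint A A') (hB : 0 < B)
    (hκ : 0 < κ) (hκ1 : κ ≤ 1) (hδ2 : 0 ≤ δ2) (hδ3 : 0 < δ3)
    (hs2 : 8 * r * δ2 ≤ κ) (hs3 : 16 * r * δ3 ≤ κ)
    (hδ1 : δ1 ≤ δ2 * δ3 / 2) (hgray : B ^ 2 * (gray Γ Γ' univ : ℝ) ≤ 8 * (δ2 * δ3))
    (hδ' : κ * (r + 1) + 2 ^ r * (4 * r) / s ≤ δ') (hδ'1 : δ' ≤ 1 / 4)
    (c : κT) (hc : c ∈ 𝒜.image comp)
    (T' : Finset κT') (hT'card : #T' + 1 ≤ r)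
    (hT' : ∀ d ∈ T', 4 ≤ B * (#(lab 𝒟 comp' {d}) : ℝ))
    (hnot : ¬ Rich Γ r B) :
    (1 - δ') * (B * #(lab 𝒜 comp {c})) ≤ r - ∑ d ∈ T',
      eCount Γ (lab 𝒜 comp {c}) (lab 𝒟 comp' {d}) /
        (#(lab 𝒜 comp {c}) * #(lab 𝒟 comp' {d})) := by
  classical
  have hcases : ∀ A ∈ 𝒜.filter (fun A => comp A ∈ ({c} : Finset κT)), A ∈ 𝒜 ∧ comp A = c := by
    intro A hA
    rw [mem_filter, mem_singleton] at hA
    exact hA
  have key := cross_bound Γ r s (J := {d // d ∈ T'}) (by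
      rw [Fintype.card_coe]; exact hT'card) B hB
    (𝒜.filter (fun A => comp A ∈ ({c} : Finset κT)))
    (by
      obtain ⟨A, hA, hAc⟩ := mem_image.1 hc
      exact ⟨A, mem_filter.2 ⟨hA, mem_singleton.2 hAc⟩⟩)
    (fun A hA => D.card A (hcases A hA).1) hs
    (fun A hA => D.clique A (hcases A hA).1)
    (fun A hA A' hA' => D.disj A (hcases A hA).1 A' (hcases A' hA').1)
    (fun A hA A' hA' => D.reach A (hcases A hA).1 A' (hcases A' hA').1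
      (by rw [(hcases A hA).2, (hcases A' hA').2]))
    (fun d => lab 𝒟 comp' {(d : κT')})
    (by
      intro d d' hdd
      apply D'.lab_disjoint
      rw [disjoint_singleton]
      exact fun h => hdd (Subtype.ext h))
    (by
      intro d A hA
      unfold lab
      rw [disjoint_biUnion_left]
      intro A' hA'
      exact (hAD A (hcases A hA).1 A' (mem_filter.1 hA').1).symm)
    (fun d => hT' d d.2) κ δ2 δ3 hκ hκ1 hδ2 hδ3 hs2 hs3
    (by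
      intro d d' hdd
      have hdisj : Disjoint ({(d : κT')} : Finset κT') {(d' : κT')} := by
        rw [disjoint_singleton]
        exact fun h => hdd (Subtype.ext h)
      exact few_of_big Γ' Γ _ _ (D'.lab_disjoint hdisj) B δ1 (δ2 * δ3) (D'.eCount_lab hdisj)
        hδ1 (by positivity) hB (by rw [gray_comm]; exact hgray) (hT' d d.2) (hT' d' d'.2))
    δ' hδ' hδ'1 hnot
  have hsum : ∑ d ∈ T', eCount Γ (lab 𝒜 comp {c}) (lab 𝒟 comp' {d}) /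
        (#(lab 𝒜 comp {c}) * #(lab 𝒟 comp' {d})) =
      ∑ d : {d // d ∈ T'}, eCount Γ (lab 𝒜 comp {c}) (lab 𝒟 comp' {(d : κT')}) /
        (#(lab 𝒜 comp {c}) * #(lab 𝒟 comp' {(d : κT')})) := by
    rw [← Finset.sum_coe_sort T']
  rw [hsum, ← mul_assoc]
  exact key

lemma ab_aux1 {r a b : ℝ} (ha : a + 1 ≤ r) (hb : b + 1 ≤ r) : r * (a + b) - a * b ≤ r ^ 2 := by
  have h1 : 0 ≤ (r - a) * (r - b) := mul_nonneg (by linarith) (by linarith)
  linarith [h1]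

lemma ab_aux2 {r a b : ℝ} (ha0 : 0 ≤ a) (hb0 : 0 ≤ b) (ha : a + 1 ≤ r) (hb : b + 1 ≤ r) :
    a * b ≤ r ^ 2 := by
  have h1 : a * b ≤ r * r := mul_le_mul (by linarith) (by linarith) hb0 (by linarith)
  linarith [h1]

lemma pos_aux {B x : ℝ} (hB : 0 < B) (h : 4 ≤ B * x) : 0 < x := by
  by_contra hcon
  push Not at hcon
  nlinarith

lemma num_aux {u : ℝ} (hu : 0 < u) (hu2 : u ≤ 1 / 2) :
    1 - 5 / 8 * u ≤ (1 - u / 8) * ((1 - u / 4) * (1 - u / 4)) := by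
  nlinarith [mul_pos hu hu, mul_pos (mul_pos hu hu) hu]

lemma drop_one {κT : Type*} [DecidableEq κT] (T : Finset κT) (y : κT → ℝ) (r : ℕ) (hr : 1 ≤ r)
    (M : ℝ) (hM : 0 ≤ M) (hT : #T ≤ r) (hy : ∀ c ∈ T, y c ≤ M) :
    ∃ T' ⊆ T, #T' + 1 ≤ r ∧ ∑ c ∈ T, y c ≤ ∑ c ∈ T', y c + M := by
  by_cases h : #T + 1 ≤ r
  · exact ⟨T, Subset.rfl, h, by linarith⟩
  · have hpos : 0 < #T := by omega
    obtain ⟨c, hc⟩ := card_pos.1 hpos
    refine ⟨T.erase c, erase_subset _ _, ?_, ?_⟩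
    · rw [card_erase_of_mem hc]; omega
    · have h1 := add_sum_erase T y hc
      have h2 := hy c hc
      linarith

set_option maxHeartbeats 4000000 in
/-- The combinatorial core: in an almost complete two-coloured graph on `t` vertices one of the
colours is rich. -/
theorem core_ineq [Fintype ι] [DecidableEq ι] (Γ Γ' : SimpleGraph ι) [DecidableRel Γ.Adj]
    [DecidableRel Γ'.Adj] (r s : ℕ) (hr : 1 ≤ r) (hs : r + 1 ≤ s) (B δ1 δ2 δ3 κ δ' : ℝ)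
    (𝒜 𝒟 : Finset (Finset ι)) {κT κT' : Type*}
    [DecidableEq κT] [DecidableEq κT'] (comp : Finset ι → κT) (comp' : Finset ι → κT')
    (D : CliqueData Γ r s δ1 𝒜 comp) (D' : CliqueData Γ' r s δ1 𝒟 comp')
    (hAD : ∀ A ∈ 𝒜, ∀ A' ∈ 𝒟, Disjoint A A') (hB : 0 < B)
    (hκ : 0 < κ) (hκ1 : κ ≤ 1) (hδ2 : 0 ≤ δ2) (hδ3 : 0 < δ3)
    (hs2 : 8 * r * δ2 ≤ κ) (hs3 : 16 * r * δ3 ≤ κ)
    (hs2' : (r + 1) * δ2 ≤ 1 / 2) (hs3' : (r + 1) * δ3 ≤ 1 / 8)
    (hδ1 : δ1 ≤ δ2 * δ3 / 2) (hgray : B ^ 2 * (gray Γ Γ' univ : ℝ) ≤ 8 * (δ2 * δ3))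
    (hδ' : κ * (r + 1) + 2 ^ r * (4 * r) / s ≤ δ') (hδ'1 : δ' ≤ 1 / 4)
    (hnot : ¬ Rich Γ r B) (hnot' : ¬ Rich Γ' r B) :
    (1 - δ') * (B * (s * (#𝒜 + #𝒟))) ≤
      r ^ 2 + (δ2 * δ3) * r ^ 2 + 2 * r + 16 * (r + 1) := by
  classical
  have hδ'0 : 0 ≤ δ' := by
    refine le_trans ?_ hδ'
    positivity
  have hgray' : B ^ 2 * (gray Γ' Γ univ : ℝ) ≤ 8 * (δ2 * δ3) := by
    rw [gray_comm]; exact hgray
  have hAD' : ∀ A ∈ 𝒟, ∀ A' ∈ 𝒜, Disjoint A A' := fun A hA A' hA' => (hAD A' hA' A hA).symm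
  obtain ⟨hbig1, hsum1⟩ := side_bound Γ Γ' r s B δ1 δ2 δ3 𝒜 comp D hB hδ2 hδ3 hs2' hs3' hδ1
    hgray hnot'
  obtain ⟨hbig2, hsum2⟩ := side_bound Γ' Γ r s B δ1 δ2 δ3 𝒟 comp' D' hB hδ2 hδ3 hs2' hs3' hδ1
    hgray' hnot
  set x : κT → ℝ := fun c => (#(lab 𝒜 comp {c}) : ℝ) with hx
  set y : κT' → ℝ := fun d => (#(lab 𝒟 comp' {d}) : ℝ) with hy
  set L : Finset κT := (𝒜.image comp).filter (fun c => 4 ≤ B * (#(lab 𝒜 comp {c}) : ℝ)) with hL
  set L' : Finset κT' := (𝒟.image comp').filter (fun c => 4 ≤ B * (#(lab 𝒟 comp' {c}) : ℝ))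
    with hL'
  have h1δ : 0 < 1 - δ' := by linarith
  have hr0 : (0:ℝ) ≤ r := Nat.cast_nonneg _
  -- individual bounds
  have hind1 : ∀ c ∈ L, (1 - δ') * (B * x c) ≤ r := by
    intro c hc
    have := label_cross Γ Γ' r s hs B δ1 δ2 δ3 κ δ' 𝒜 𝒟 comp comp' D D' hAD hB hκ hκ1 hδ2 hδ3
      hs2 hs3 hδ1 hgray hδ' hδ'1 c (mem_filter.1 hc).1 ∅ (by simpa using hr) (by simp) hnot
    simpa using this
  have hind2 : ∀ c ∈ L', (1 - δ') * (B * y c) ≤ r := by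
    intro c hc
    have := label_cross Γ' Γ r s hs B δ1 δ2 δ3 κ δ' 𝒟 𝒜 comp' comp D' D hAD' hB hκ hκ1 hδ2 hδ3
      hs2 hs3 hδ1 hgray' hδ' hδ'1 c (mem_filter.1 hc).1 ∅ (by simpa using hr) (by simp) hnot'
    simpa using this
  obtain ⟨T, hTL, hTc, hTs⟩ := drop_one L (fun c => (1 - δ') * (B * x c)) r hr r hr0 hbig1 hind1
  obtain ⟨T', hTL', hTc', hTs'⟩ := drop_one L' (fun c => (1 - δ') * (B * y c)) r hr r hr0 hbig2
    hind2
  have hT4 : ∀ c ∈ T, 4 ≤ B * x c := fun c hc => (mem_filter.1 (hTL hc)).2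
  have hT4' : ∀ c ∈ T', 4 ≤ B * y c := fun c hc => (mem_filter.1 (hTL' hc)).2
  -- cross bounds
  have hc1 : ∀ c ∈ T, (1 - δ') * (B * x c) ≤ r - ∑ d ∈ T',
      eCount Γ (lab 𝒜 comp {c}) (lab 𝒟 comp' {d}) / (x c * y d) := by
    intro c hc
    exact label_cross Γ Γ' r s hs B δ1 δ2 δ3 κ δ' 𝒜 𝒟 comp comp' D D' hAD hB hκ hκ1 hδ2 hδ3
      hs2 hs3 hδ1 hgray hδ' hδ'1 c (mem_filter.1 (hTL hc)).1 T' hTc' hT4' hnot
  have hc2 : ∀ d ∈ T', (1 - δ') * (B * y d) ≤ r - ∑ c ∈ T,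
      eCount Γ' (lab 𝒟 comp' {d}) (lab 𝒜 comp {c}) / (y d * x c) := by
    intro d hd
    exact label_cross Γ' Γ r s hs B δ1 δ2 δ3 κ δ' 𝒟 𝒜 comp' comp D' D hAD' hB hκ hκ1 hδ2 hδ3
      hs2 hs3 hδ1 hgray' hδ' hδ'1 d (mem_filter.1 (hTL' hd)).1 T hTc hT4 hnot'
  have hS1 := sum_le_sum hc1
  have hS2 := sum_le_sum hc2
  rw [sum_sub_distrib, sum_const, nsmul_eq_mul] at hS1 hS2
  -- combine the double sums
  have hpair : ∀ c ∈ T, ∀ d ∈ T', 1 - δ2 * δ3 ≤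
      eCount Γ (lab 𝒜 comp {c}) (lab 𝒟 comp' {d}) / (x c * y d) +
      eCount Γ' (lab 𝒟 comp' {d}) (lab 𝒜 comp {c}) / (y d * x c) := by
    intro c hc d hd
    have hdisj : Disjoint (lab 𝒜 comp {c}) (lab 𝒟 comp' {d}) := by
      unfold lab
      rw [disjoint_biUnion_left]
      intro A hA
      rw [disjoint_biUnion_right]
      intro A' hA'
      exact hAD A (mem_filter.1 hA).1 A' (mem_filter.1 hA').1
    have h1 := eCount_add Γ Γ' _ _ hdisj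
    have h2 := hT4 c hc
    have h3 := hT4' d hd
    have hxc : 0 < x c := pos_aux hB h2
    have hyd : 0 < y d := pos_aux hB h3
    have hgr : (gray Γ Γ' univ : ℝ) ≤ (δ2 * δ3) * (x c * y d) := by
      have h4 : (16:ℝ) ≤ (B * x c) * (B * y d) := by
        have := mul_le_mul h2 h3 (by norm_num) (by linarith)
        linarith
      have h6 : 0 ≤ δ2 * δ3 := by positivity
      have h5 : B ^ 2 * (gray Γ Γ' univ : ℝ) ≤ B ^ 2 * ((δ2 * δ3) * (x c * y d)) := by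
        calc B ^ 2 * (gray Γ Γ' univ : ℝ) ≤ 8 * (δ2 * δ3) := hgray
          _ ≤ (δ2 * δ3) * 16 := by linarith
          _ ≤ (δ2 * δ3) * ((B * x c) * (B * y d)) := mul_le_mul_of_nonneg_left h4 h6
          _ = _ := by ring
      exact le_of_mul_le_mul_left h5 (by positivity)
    rw [eCount_comm Γ' (lab 𝒟 comp' {d}), mul_comm (y d) (x c), ← add_div, le_div_iff₀
      (mul_pos hxc hyd)]
    have h7 : x c * y d ≤ eCount Γ (lab 𝒜 comp {c}) (lab 𝒟 comp' {d}) +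
      eCount Γ' (lab 𝒜 comp {c}) (lab 𝒟 comp' {d}) + gray Γ Γ' univ := h1
    linarith
  have hdouble : (#T : ℝ) * #T' * (1 - δ2 * δ3) ≤
      ∑ c ∈ T, ∑ d ∈ T', eCount Γ (lab 𝒜 comp {c}) (lab 𝒟 comp' {d}) / (x c * y d) +
      ∑ d ∈ T', ∑ c ∈ T, eCount Γ' (lab 𝒟 comp' {d}) (lab 𝒜 comp {c}) / (y d * x c) := by
    rw [sum_comm (s := T') (t := T), ← sum_add_distrib]
    simp only [← sum_add_distrib]
    calc (#T : ℝ) * #T' * (1 - δ2 * δ3) = ∑ c ∈ T, ∑ d ∈ T', (1 - δ2 * δ3) := by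
          simp only [sum_const, nsmul_eq_mul]
          ring
      _ ≤ _ := sum_le_sum fun c hc => sum_le_sum fun d hd => hpair c hc d hd
  have hab : (r:ℝ) * (#T + #T') - #T * #T' ≤ r ^ 2 := by
    have h1 : (#T : ℝ) + 1 ≤ r := by exact_mod_cast hTc
    have h2 : (#T' : ℝ) + 1 ≤ r := by exact_mod_cast hTc'
    exact ab_aux1 h1 h2
  have hab2 : (#T : ℝ) * #T' ≤ r ^ 2 := by
    have h1 : (#T : ℝ) + 1 ≤ r := by exact_mod_cast hTc
    have h2 : (#T' : ℝ) + 1 ≤ r := by exact_mod_cast hTc'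
    exact ab_aux2 (Nat.cast_nonneg _) (Nat.cast_nonneg _) h1 h2
  have hab3 : (δ2 * δ3) * ((#T : ℝ) * #T') ≤ (δ2 * δ3) * r ^ 2 :=
    mul_le_mul_of_nonneg_left hab2 (by positivity)
  -- total
  have hm1 : (1 - δ') * (B * (#𝒜 * s)) ≤ (1 - δ') * (∑ c ∈ L, B * x c) + 8 * (r + 1) := by
    have h1 := mul_le_mul_of_nonneg_left hsum1 h1δ.le
    have h2 : (1 - δ') * (8 * ((r:ℝ) + 1)) ≤ 8 * (r + 1) := by
      have h0 : (0:ℝ) ≤ 8 * (r + 1) := by positivity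
      have := mul_le_mul_of_nonneg_right (show 1 - δ' ≤ 1 by linarith) h0
      linarith
    rw [mul_add] at h1
    linarith
  have hm2 : (1 - δ') * (B * (#𝒟 * s)) ≤ (1 - δ') * (∑ c ∈ L', B * y c) + 8 * (r + 1) := by
    have h1 := mul_le_mul_of_nonneg_left hsum2 h1δ.le
    have h2 : (1 - δ') * (8 * ((r:ℝ) + 1)) ≤ 8 * (r + 1) := by
      have h0 : (0:ℝ) ≤ 8 * (r + 1) := by positivity
      have := mul_le_mul_of_nonneg_right (show 1 - δ' ≤ 1 by linarith) h0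
      linarith
    rw [mul_add] at h1
    linarith
  rw [mul_sum] at hm1 hm2
  have hexp : (1 - δ') * (B * (s * (#𝒜 + #𝒟))) =
      (1 - δ') * (B * (#𝒜 * s)) + (1 - δ') * (B * (#𝒟 * s)) := by ring
  rw [hexp]
  linarith

set_option maxHeartbeats 4000000 in
/-- The combinatorial core. -/
theorem core (r : ℕ) (hr : 2 ≤ r) : ∃ ε : ℝ, 0 < ε ∧ ∃ t0 : ℕ, 0 < t0 ∧
    ∀ (ι : Type) [Fintype ι] [DecidableEq ι] (R B' : SimpleGraph ι) [DecidableRel R.Adj]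
      [DecidableRel B'.Adj], t0 ≤ Fintype.card ι →
      (gray R B' univ : ℝ) ≤ ε * (Fintype.card ι) ^ 2 →
      Rich R r ((1 - 1 / (4 * r)) * (r * (r + 40)) / Fintype.card ι) ∨
      Rich B' r ((1 - 1 / (4 * r)) * (r * (r + 40)) / Fintype.card ι) := by
  have hr0 : (2:ℝ) ≤ r := by exact_mod_cast hr
  have hrpos : (0:ℝ) < r := by linarith
  -- parameters
  set κ : ℝ := 1 / (16 * r * (r + 1)) with hκ
  have hκpos : 0 < κ := by positivity
  have hκ1 : κ ≤ 1 / 96 := by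
    rw [hκ]
    apply one_div_le_one_div_of_le (by norm_num)
    nlinarith
  set δ2 : ℝ := κ / (8 * r) with hδ2
  have hδ2pos : 0 < δ2 := by positivity
  set δ3 : ℝ := κ / (16 * r) with hδ3
  have hδ3pos : 0 < δ3 := by positivity
  have h82 : 8 * r * δ2 = κ := by rw [hδ2]; field_simp
  have h163 : 16 * r * δ3 = κ := by rw [hδ3]; field_simp
  have hs2' : ((r:ℝ) + 1) * δ2 ≤ 1 / 2 := by nlinarith
  have hs3' : ((r:ℝ) + 1) * δ3 ≤ 1 / 8 := by nlinarith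
  set δ1 : ℝ := δ2 * δ3 / 2 with hδ1
  have hδ1pos : 0 < δ1 := by positivity
  set m : ℕ := ⌈2 * (r:ℝ) / δ1⌉₊ with hm
  have hm' : 2 * (r:ℝ) ≤ δ1 * m := by
    have h1 : 2 * (r:ℝ) / δ1 ≤ m := Nat.le_ceil _
    rw [div_le_iff₀ hδ1pos] at h1
    linarith
  set s : ℕ := m * 2 ^ m + 64 * r ^ 2 * 2 ^ r + 3 * r + 1 with hs
  have hs1 : 1 ≤ s := by omega
  have hsm : m * 2 ^ m ≤ s := by rw [hs]; omega
  have hs3r : 3 * r ≤ s := by rw [hs]; omega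
  have hsr1 : r + 1 ≤ s := by omega
  have hsR : (64:ℝ) * r ^ 2 * 2 ^ r ≤ s := by
    have : 64 * r ^ 2 * 2 ^ r ≤ s := by rw [hs]; omega
    exact_mod_cast this
  have hspos : (0:ℝ) < s := by exact_mod_cast hs1
  set δ' : ℝ := 1 / (8 * r) with hδ'
  have hδ'ineq : κ * (r + 1) + 2 ^ r * (4 * r) / s ≤ δ' := by
    have h1 : κ * (r + 1) = 1 / (16 * r) := by
      rw [hκ]; field_simp
    have h2 : (2:ℝ) ^ r * (4 * r) / s ≤ 1 / (16 * r) := by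
      rw [div_le_div_iff₀ hspos (by positivity)]
      calc (2:ℝ) ^ r * (4 * r) * (16 * r) = 64 * r ^ 2 * 2 ^ r := by ring
        _ ≤ 1 * s := by linarith
    have h3 : (1:ℝ) / (8 * r) = 1 / (16 * r) + 1 / (16 * r) := by
      field_simp; norm_num
    rw [hδ', h3]
    linarith
  have hδ'1 : δ' ≤ 1 / 16 := by
    rw [hδ']
    apply one_div_le_one_div_of_le (by norm_num)
    linarith
  set ε1 : ℝ := 1 / (4 * r) with hε1
  have hε1pos : 0 < ε1 := by positivity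
  obtain ⟨ε, hε, t0, ht0⟩ := clique_partition s hs1 ε1 hε1pos
  set b0 : ℝ := (1 - 1 / (4 * r)) * (r * (r + 40)) with hb0
  have h14 : (1:ℝ) / (4 * r) ≤ 1 / 8 := by
    apply one_div_le_one_div_of_le (by norm_num)
    linarith
  have hb0pos : 0 < b0 := by
    rw [hb0]
    apply mul_pos
    · linarith
    · positivity
  refine ⟨min ε (8 * (δ2 * δ3) / b0 ^ 2), by positivity, max t0 1, by simp, ?_⟩
  intro ι _ _ R B' _ _ ht hgray
  classical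
  have htpos : 0 < Fintype.card ι := by
    have := le_max_right t0 1
    omega
  have : Nonempty ι := Fintype.card_pos_iff.1 htpos
  have htR : (0:ℝ) < Fintype.card ι := by exact_mod_cast htpos
  set t : ℝ := (Fintype.card ι : ℝ) with htdef
  obtain ⟨𝒜, 𝒟, hA, hD, hAd, hDd, hADd, hcover⟩ := ht0 ι R B' (le_trans (le_max_left _ _) ht)
    (hgray.trans (mul_le_mul_of_nonneg_right (min_le_left _ _) (by positivity)))
  by_contra hcon
  rw [not_or] at hcon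
  obtain ⟨hnot, hnot'⟩ := hcon
  set B : ℝ := b0 / t with hB
  have hBpos : 0 < B := by positivity
  obtain ⟨comp, hcomp1, hcomp2⟩ := exists_label R r m s δ1 (by omega) hm' hsm hs3r 𝒜 hA
  obtain ⟨comp', hcomp1', hcomp2'⟩ := exists_label B' r m s δ1 (by omega) hm' hsm hs3r 𝒟 hD
  have DA : CliqueData R r s δ1 𝒜 comp :=
    ⟨fun A h => (hA A h).1, fun A h => (hA A h).2, hAd, hcomp1, hcomp2⟩
  have DD : CliqueData B' r s δ1 𝒟 comp' :=
    ⟨fun A h => (hD A h).1, fun A h => (hD A h).2, hDd, hcomp1', hcomp2'⟩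
  have hg : B ^ 2 * (gray R B' univ : ℝ) ≤ 8 * (δ2 * δ3) := by
    have h1 : (gray R B' univ : ℝ) ≤ 8 * (δ2 * δ3) / b0 ^ 2 * t ^ 2 :=
      hgray.trans (mul_le_mul_of_nonneg_right (min_le_right _ _) (by positivity))
    calc B ^ 2 * (gray R B' univ : ℝ) ≤ B ^ 2 * (8 * (δ2 * δ3) / b0 ^ 2 * t ^ 2) :=
          mul_le_mul_of_nonneg_left h1 (by positivity)
      _ = 8 * (δ2 * δ3) := by
          rw [hB]
          field_simp
  have key := core_ineq R B' r s (by omega) hsr1 B δ1 δ2 δ3 κ δ' 𝒜 𝒟 comp comp' DA DD hADd hBpos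
    hκpos (by linarith) hδ2pos.le hδ3pos h82.le h163.le hs2' hs3' le_rfl hg hδ'ineq (by linarith)
    hnot hnot'
  -- numerics
  have h1 : (1 - δ') * (B * ((1 - ε1) * t)) ≤ (1 - δ') * (B * (s * (#𝒜 + #𝒟))) := by
    apply mul_le_mul_of_nonneg_left _ (by linarith)
    exact mul_le_mul_of_nonneg_left hcover hBpos.le
  have h2 : B * ((1 - ε1) * t) = (1 - ε1) * b0 := by
    rw [hB]; field_simp
  rw [h2] at h1
  have h3 : (1 - δ') * ((1 - ε1) * b0) ≤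
      r ^ 2 + (δ2 * δ3) * r ^ 2 + 2 * r + 16 * (r + 1) := h1.trans key
  have h4 : (δ2 * δ3) * (r:ℝ) ^ 2 ≤ 1 / 8 := by
    have h5 : δ2 * δ3 * (r:ℝ) ^ 2 = κ ^ 2 / 128 := by
      rw [hδ2, hδ3]; field_simp; norm_num
    rw [h5]
    have h6 : κ ^ 2 ≤ 1 := pow_le_one₀ hκpos.le (by linarith)
    linarith
  -- (1 - δ')(1 - ε1)(1 - 1/(4r)) r (r + 40) ≥ (1 - 5/(8r)) r (r+40)
  have h6 : (1 - 5 / (8 * r)) * ((r:ℝ) * (r + 40)) ≤ (1 - δ') * ((1 - ε1) * b0) := by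
    have h7 : (1 - 5 / (8 * (r:ℝ))) ≤ (1 - δ') * ((1 - ε1) * (1 - 1 / (4 * r))) := by
      have hu : (0:ℝ) < 1 / r := by positivity
      have e1 : δ' = (1 / r) / 8 := by rw [hδ']; field_simp
      have e2 : ε1 = (1 / r) / 4 := by rw [hε1]; field_simp
      have e3 : 5 / (8 * (r:ℝ)) = 5 / 8 * (1 / r) := by field_simp
      have e4 : 1 / (4 * (r:ℝ)) = (1 / r) / 4 := by field_simp
      rw [e1, e2, e3, e4]
      have hu2 : 1 / (r:ℝ) ≤ 1 / 2 := by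
        apply one_div_le_one_div_of_le (by norm_num) hr0
      exact num_aux hu hu2
    calc (1 - 5 / (8 * r)) * ((r:ℝ) * (r + 40))
        ≤ ((1 - δ') * ((1 - ε1) * (1 - 1 / (4 * r)))) * ((r:ℝ) * (r + 40)) :=
          mul_le_mul_of_nonneg_right h7 (by positivity)
      _ = _ := by rw [hb0]; ring
  have h8 : (1 - 5 / (8 * r)) * ((r:ℝ) * (r + 40)) = r ^ 2 + 40 * r - 5 / 8 * r - 25 := by
    field_simp
    ring
  rw [h8] at h6
  linarith

end Pool.Agent.helper16
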