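import Mathlib

set_option autoImplicit false

namespace Pool.Agent.helper16

open Finset

/-- The candidate set of `x` after the vertices below `k` have been embedded by `φ`. -/
def cand {α ι : Type*} [DecidableEq α] (G : SimpleGraph α) [DecidableRel G.Adj]
    (H : SimpleGraph ℕ) [DecidableRel H.Adj] (f : ℕ → ι) (V : ι → Finset α) (φ : ℕ → α)
    (k x : ℕ) : Finset α :=
  {v ∈ V (f x) | (∀ y ∈ range k, φ y ≠ v) ∧ ∀ y ∈ range k, H.Adj y x → G.Adj (φ y) v}

/-- Greedy embedding of a graph of bounded degree and small bandwidth. -/
theorem greedy_embed {α ι : Type*} [DecidableEq α] [DecidableEq ι]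
    (G : SimpleGraph α) [DecidableRel G.Adj] (H : SimpleGraph ℕ) [DecidableRel H.Adj]
    (n b Δ e0 L : ℕ) (f : ℕ → ι) (V : ι → Finset α)
    (hdisj : ∀ i j, i ≠ j → Disjoint (V i) (V j))
    (hdeg : ∀ x < n, #{y ∈ range n | H.Adj y x} ≤ Δ)
    (hband : ∀ x y, x < n → y < n → H.Adj x y → x ≤ y + b)
    (hcap : ∀ i, #{x ∈ range n | f x = i} + L ≤ #(V i))
    (hreg : ∀ x y, x < n → y < n → H.Adj x y → ∀ T ⊆ V (f y), e0 ≤ #T →
       #{v ∈ V (f x) | 4 * #{w ∈ T | G.Adj v w} < #T} ≤ e0)
    (hnum : 4 ^ Δ * (e0 * (Δ + 1) + b + 1) ≤ L) :
    ∀ k ≤ n, ∃ φ : ℕ → α, (∀ x < k, φ x ∈ V (f x)) ∧ (∀ x < k, ∀ y < k, φ x = φ y → x = y) ∧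
      (∀ x < k, ∀ y < k, H.Adj x y → G.Adj (φ x) (φ y)) ∧
      (∀ x, k ≤ x → x < n →
        L ≤ 4 ^ #{y ∈ range k | H.Adj y x} * (#(cand G H f V φ k x) + (k - (x - b)))) := by
  intro k
  induction k with
  | zero =>
    intro _
    -- any function will do, but we need α nonempty if n > 0
    by_cases hn : n = 0
    · subst hn
      by_cases hα : Nonempty α
      · obtain ⟨a⟩ := hα
        exact ⟨fun _ => a, by simp, by simp, by simp, by intro x _ h; omega⟩
      · -- no vertices at all: V is empty; need a function ℕ → α
        exfalso
        have h1 : #(V (f 0)) = 0 := by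
          rw [Finset.card_eq_zero]
          ext a
          exact (hα ⟨a⟩).elim
        have h2 := hcap (f 0)
        have h3 : 0 < 4 ^ Δ * (e0 * (Δ + 1) + b + 1) := by positivity
        omega
    · have h3 : 0 < 4 ^ Δ * (e0 * (Δ + 1) + b + 1) := by positivity
      have h2 := hcap (f 0)
      have h4 : 0 < #(V (f 0)) := by omega
      obtain ⟨a, _⟩ := Finset.card_pos.1 h4
      refine ⟨fun _ => a, by simp, by simp, by simp, ?_⟩
      intro x _ hx
      have : cand G H f V (fun _ => a) 0 x = V (f x) := by
        simp [cand]
      rw [this]
      have := hcap (f x)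
      simp
      omega
  | succ k ih =>
    intro hk
    obtain ⟨φ, hmem, hinj, hadj, hinv⟩ := ih (by omega)
    have hkn : k < n := by omega
    -- degrees
    have hdegk : ∀ x < n, #{y ∈ range k | H.Adj y x} ≤ Δ := by
      intro x hx
      refine le_trans (card_le_card ?_) (hdeg x hx)
      intro y
      simp only [mem_filter, mem_range]
      rintro ⟨h1, h2⟩
      exact ⟨by omega, h2⟩
    -- all candidate sets are large
    have hlarge : ∀ x, k ≤ x → x < n → e0 * (Δ + 1) + 1 ≤ #(cand G H f V φ k x) := by
      intro x hkx hx
      have h1 := hinv x hkx hx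
      have h2 : 4 ^ #{y ∈ range k | H.Adj y x} ≤ 4 ^ Δ :=
        Nat.pow_le_pow_right (by norm_num) (hdegk x hx)
      have h3 : k - (x - b) ≤ b := by omega
      have h4 : L ≤ 4 ^ Δ * (#(cand G H f V φ k x) + b) :=
        h1.trans (Nat.mul_le_mul h2 (by omega))
      have h5 : 4 ^ Δ * (e0 * (Δ + 1) + b + 1) ≤ 4 ^ Δ * (#(cand G H f V φ k x) + b) :=
        hnum.trans h4
      have h6 := Nat.le_of_mul_le_mul_left h5 (by positivity)
      omega
    -- choose the image of k
    set N : Finset ℕ := {x ∈ range n | H.Adj x k} with hN
    set bad : Finset α := N.biUnion fun x =>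
      {v ∈ V (f k) | 4 * #{w ∈ cand G H f V φ k x | G.Adj v w} < #(cand G H f V φ k x)} with hbad
    have hcandsub : ∀ x, cand G H f V φ k x ⊆ V (f x) := fun x => filter_subset _ _
    set N' : Finset ℕ := N.filter (fun x => k ≤ x) with hN'
    set bad' : Finset α := N'.biUnion fun x =>
      {v ∈ V (f k) | 4 * #{w ∈ cand G H f V φ k x | G.Adj v w} < #(cand G H f V φ k x)} with hbad'
    have hbadcard : bad'.card ≤ Δ * e0 := by
      calc bad'.card ≤ #N' * e0 := by
            apply card_biUnion_le_card_mul
            intro x hx
            simp only [hN', hN, mem_filter, mem_range] at hx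
            apply hreg k x hkn hx.1.1 hx.1.2.symm _ (hcandsub x)
            have := hlarge x hx.2 hx.1.1
            have : e0 ≤ e0 * (Δ + 1) := Nat.le_mul_of_pos_right _ (by omega)
            omega
        _ ≤ Δ * e0 := by
            apply Nat.mul_le_mul_right
            refine le_trans (card_le_card (filter_subset _ _)) ?_
            exact hdeg k hkn
    have hex : ∃ v ∈ cand G H f V φ k k, v ∉ bad' := by
      by_contra hcon
      push Not at hcon
      have h1 : #(cand G H f V φ k k) ≤ bad'.card := card_le_card hcon
      have h2 := hlarge k le_rfl hkn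
      have h3 : e0 * (Δ + 1) = Δ * e0 + e0 := by ring
      omega
    obtain ⟨v, hv, hvbad⟩ := hex
    have hv' := hv
    simp only [cand, mem_filter, mem_range] at hv'
    obtain ⟨hvV, hvne, hvadj⟩ := hv'
    set φ' : ℕ → α := Function.update φ k v with hφ'
    have hφk : φ' k = v := by simp [hφ']
    have hφlt : ∀ y < k, φ' y = φ y := by
      intro y hy
      simp only [hφ']
      rw [Function.update_of_ne (by omega)]
    refine ⟨φ', ?_, ?_, ?_, ?_⟩
    · intro x hx
      rcases Nat.lt_succ_iff_lt_or_eq.1 hx with h | h
      · rw [hφlt x h]; exact hmem x h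
      · subst h; rw [hφk]; exact hvV
    · intro x hx y hy hxy
      rcases Nat.lt_succ_iff_lt_or_eq.1 hx with h | h <;>
      rcases Nat.lt_succ_iff_lt_or_eq.1 hy with h' | h'
      · rw [hφlt x h, hφlt y h'] at hxy; exact hinj x h y h' hxy
      · subst h'; rw [hφlt x h, hφk] at hxy; exact (hvne x h hxy).elim
      · subst h; rw [hφlt y h', hφk] at hxy; exact (hvne y h' hxy.symm).elim
      · omega
    · intro x hx y hy hxy
      rcases Nat.lt_succ_iff_lt_or_eq.1 hx with h | h <;>
      rcases Nat.lt_succ_iff_lt_or_eq.1 hy with h' | h'
      · rw [hφlt x h, hφlt y h']; exact hadj x h y h' hxy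
      · subst h'; rw [hφlt x h, hφk]; exact hvadj x h hxy
      · subst h; rw [hφlt y h', hφk]; exact (hvadj y h' hxy.symm).symm
      · subst h; subst h'; exact (H.loopless.irrefl _ hxy).elim
    · intro x hx hxn
      have hkx : k ≤ x := by omega
      have hxk : x ≠ k := by omega
      have hold := hinv x hkx hxn
      -- description of the new candidate set
      have hnew : cand G H f V φ' (k+1) x =
          {w ∈ cand G H f V φ k x | v ≠ w ∧ (H.Adj k x → G.Adj v w)} := by
        ext w
        simp only [cand, mem_filter, mem_range]
        constructor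
        · rintro ⟨h1, h2, h3⟩
          refine ⟨⟨h1, ?_, ?_⟩, ?_, ?_⟩
          · intro y hy
            have := h2 y (by omega)
            rwa [hφlt y hy] at this
          · intro y hy hyx
            have := h3 y (by omega) hyx
            rwa [hφlt y hy] at this
          · have := h2 k (by omega)
            rwa [hφk] at this
          · intro hkx'
            have := h3 k (by omega) hkx'
            rwa [hφk] at this
        · rintro ⟨⟨h1, h2, h3⟩, h4, h5⟩
          refine ⟨h1, ?_, ?_⟩
          · intro y hy
            rcases Nat.lt_succ_iff_lt_or_eq.1 hy with h | h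
            · rw [hφlt y h]; exact h2 y h
            · subst h; rw [hφk]; exact h4
          · intro y hy hyx
            rcases Nat.lt_succ_iff_lt_or_eq.1 hy with h | h
            · rw [hφlt y h]; exact h3 y h hyx
            · subst h; rw [hφk]; exact h5 hyx
      by_cases hadjx : H.Adj k x
      · -- x is a neighbour of k
        have hE : #{y ∈ range (k+1) | H.Adj y x} = #{y ∈ range k | H.Adj y x} + 1 := by
          rw [range_add_one, filter_insert, if_pos hadjx, card_insert_of_notMem]
          simp
        have hxN : x ∈ N' := by
          simp only [hN', hN, mem_filter, mem_range]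
          exact ⟨⟨hxn, hadjx.symm⟩, hkx⟩
        have hgood : #(cand G H f V φ k x) ≤ 4 * #{w ∈ cand G H f V φ k x | G.Adj v w} := by
          by_contra hcon
          push Not at hcon
          apply hvbad
          simp only [hbad', mem_biUnion, mem_filter]
          exact ⟨x, hxN, hvV, hcon⟩
        have hnew' : cand G H f V φ' (k+1) x = {w ∈ cand G H f V φ k x | G.Adj v w} := by
          rw [hnew]
          apply filter_congr
          intro w _
          constructor
          · rintro ⟨_, h⟩; exact h hadjx
          · intro h; exact ⟨G.ne_of_adj h, fun _ => h⟩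
        rw [hE, hnew']
        calc L ≤ 4 ^ #{y ∈ range k | H.Adj y x} * (#(cand G H f V φ k x) + (k - (x - b))) := hold
          _ ≤ 4 ^ #{y ∈ range k | H.Adj y x} *
              (4 * #{w ∈ cand G H f V φ k x | G.Adj v w} + 4 * (k + 1 - (x - b))) := by
            apply Nat.mul_le_mul_left
            have : k - (x - b) ≤ 4 * (k + 1 - (x - b)) := by omega
            omega
          _ = 4 ^ (#{y ∈ range k | H.Adj y x} + 1) *
              (#{w ∈ cand G H f V φ k x | G.Adj v w} + (k + 1 - (x - b))) := by ring
      · -- x is not a neighbour of k
        have hE : #{y ∈ range (k+1) | H.Adj y x} = #{y ∈ range k | H.Adj y x} := by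
          rw [range_add_one, filter_insert, if_neg hadjx]
        rw [hE]
        by_cases hfar : k < x - b
        · -- no embedded neighbours
          have hE0 : #{y ∈ range k | H.Adj y x} = 0 := by
            rw [card_eq_zero, filter_eq_empty_iff]
            intro y hy hyx
            rw [mem_range] at hy
            have := hband x y hxn (by omega) hyx.symm
            omega
          rw [hE0, pow_zero, one_mul]
          have hcard : #(V (f x)) ≤ #(cand G H f V φ' (k+1) x) + #{y ∈ range n | f y = f x} := by
            have hsub : V (f x) ⊆ cand G H f V φ' (k+1) x ∪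
                ({y ∈ range (k+1) | f y = f x}).image φ' := by
              intro w hw
              by_cases hw' : w ∈ cand G H f V φ' (k+1) x
              · exact mem_union_left _ hw'
              · apply mem_union_right
                simp only [cand, mem_filter, mem_range, not_and, not_forall] at hw'
                by_cases hall : ∀ y, y < k + 1 → φ' y ≠ w
                · obtain ⟨y, hy, hyx, _⟩ := hw' hw hall
                  exfalso
                  rcases Nat.lt_succ_iff_lt_or_eq.1 hy with h | h
                  · have := hband x y hxn (by omega) hyx.symm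
                    omega
                  · subst h; exact hadjx hyx
                · push Not at hall
                  obtain ⟨y, hy, hyw⟩ := hall
                  rw [mem_image]
                  refine ⟨y, ?_, hyw⟩
                  rw [mem_filter, mem_range]
                  refine ⟨hy, ?_⟩
                  by_contra hne
                  have hyV : φ' y ∈ V (f y) := by
                    rcases Nat.lt_succ_iff_lt_or_eq.1 hy with h | h
                    · rw [hφlt y h]; exact hmem y h
                    · subst h; rw [hφk]; exact hvV
                  rw [hyw] at hyV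
                  exact (Finset.disjoint_left.1 (hdisj _ _ hne) hyV hw).elim
            calc #(V (f x)) ≤ _ := card_le_card hsub
              _ ≤ #(cand G H f V φ' (k+1) x) + #(({y ∈ range (k+1) | f y = f x}).image φ') :=
                  card_union_le _ _
              _ ≤ _ := by
                  apply Nat.add_le_add_left
                  refine card_image_le.trans (card_le_card ?_)
                  intro y
                  simp only [mem_filter, mem_range]
                  rintro ⟨h1, h2⟩
                  exact ⟨by omega, h2⟩
          have := hcap (f x)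
          omega
        · push Not at hfar
          have hcard : #(cand G H f V φ k x) ≤ #(cand G H f V φ' (k+1) x) + 1 := by
            have hsub : cand G H f V φ k x ⊆ cand G H f V φ' (k+1) x ∪ {v} := by
              intro w hw
              by_cases hvw : w = v
              · subst hvw; simp
              · apply mem_union_left
                rw [hnew, mem_filter]
                exact ⟨hw, fun h => hvw h.symm, fun h => (hadjx h).elim⟩
            calc _ ≤ _ := card_le_card hsub
              _ ≤ _ := card_union_le _ _
              _ = _ := by simp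
          calc L ≤ _ := hold
            _ ≤ _ := by
              apply Nat.mul_le_mul_left
              omega

end Pool.Agent.helper16
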