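import Mathlib
import Pool.Agent.helper16.Core
import Pool.Agent.helper16.Assign
import Pool.Agent.helper16.Embed

set_option autoImplicit false

namespace Pool.Agent.helper16

open Finset

/-- From richness to weighted price functions. -/
lemma Rich.weighted {ι : Type*} [Fintype ι] {Γ : SimpleGraph ι} {r : ℕ} (hr : 1 ≤ r) {B : ℝ}
    (hrich : Rich Γ r B) :
    ∃ 𝒬 : Set (Fin r → ι), (∀ Q ∈ 𝒬, IsTup Γ Q) ∧
      (∀ Q ∈ 𝒬, ∀ Q' ∈ 𝒬, (tupGraph Γ r).Reachable Q Q') ∧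
      ∀ (p : ι → ℝ) (h : Fin r → ℝ), (∀ X, 0 ≤ p X) → (∀ a, 0 ≤ h a) →
      ∃ Q ∈ 𝒬, ∑ a, h a * p (Q a) ≤ B / r * (∑ a, h a) * ∑ X, p X := by
  obtain ⟨Q0, hQ0, hperm, hprice⟩ := hrich
  refine ⟨{Q | (tupGraph Γ r).Reachable Q0 Q}, ?_, ?_, ?_⟩
  · intro Q hQ
    exact hQ0.of_reachable hQ
  · intro Q hQ Q' hQ'
    exact (SimpleGraph.Reachable.symm hQ).trans hQ'
  · intro p h hp hh
    obtain ⟨Q, hQ, hQp⟩ := hprice p hp
    have : NeZero r := ⟨by omega⟩
    have hrpos : (0:ℝ) < r := by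
      have : (1:ℝ) ≤ r := by exact_mod_cast hr
      linarith
    set F : Fin r → ℝ := fun k => ∑ a, h a * p (Q (a + k)) with hF
    have hsum : ∑ k, F k = (∑ a, h a) * ∑ a, p (Q a) := by
      simp only [hF]
      rw [sum_comm, sum_mul]
      apply sum_congr rfl
      intro a _
      rw [← mul_sum]
      congr 1
      exact Equiv.sum_comp (Equiv.addLeft a) (fun c => p (Q c))
    have hex : ∃ k ∈ (univ : Finset (Fin r)), F k ≤ (∑ a, h a) * (∑ a, p (Q a)) / r := by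
      by_contra hcon
      push Not at hcon
      have h1 : ∑ k : Fin r, (∑ a, h a) * (∑ a, p (Q a)) / r < ∑ k, F k :=
        sum_lt_sum_of_nonempty ⟨⟨0, by omega⟩, mem_univ _⟩ hcon
      rw [hsum, sum_const, card_univ, Fintype.card_fin, nsmul_eq_mul] at h1
      have h2 : (r:ℝ) * ((∑ a, h a) * (∑ a, p (Q a)) / r) = (∑ a, h a) * (∑ a, p (Q a)) := by
        field_simp
      linarith
    obtain ⟨k, _, hk⟩ := hex
    refine ⟨Q ∘ (Equiv.addRight k), ?_, ?_⟩
    · exact (hperm (Equiv.addRight k)).trans (reach_comp (Equiv.addRight k) hQ)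
    · have h0 : 0 ≤ ∑ a, h a := sum_nonneg fun a _ => hh a
      calc ∑ a, h a * p ((Q ∘ (Equiv.addRight k)) a) = F k := by
            simp [hF]
        _ ≤ (∑ a, h a) * (∑ a, p (Q a)) / r := hk
        _ ≤ (∑ a, h a) * (B * ∑ X, p X) / r := by
            apply div_le_div_of_nonneg_right _ hrpos.le
            exact mul_le_mul_of_nonneg_left hQp h0
        _ = B / r * (∑ a, h a) * ∑ X, p X := by ring

theorem embed_rich {α : Type*} [DecidableEq α] (G : SimpleGraph α) [DecidableRel G.Adj]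
    {ι : Type*} [Fintype ι] [DecidableEq ι] (V : ι → Finset α)
    (hdisj : ∀ i j, i ≠ j → Disjoint (V i) (V j)) (Γ : SimpleGraph ι) (e0 : ℕ)
    (hreg : ∀ i j, Γ.Adj i j → ∀ T ⊆ V j, e0 ≤ #T →
      #{v ∈ V i | 4 * #{w ∈ T | G.Adj v w} < #T} ≤ e0)
    (r : ℕ) (hr : 1 ≤ r) (B : ℝ) (hB : 0 ≤ B) (hrich : Rich Γ r B)
    (H : SimpleGraph ℕ) [DecidableRel H.Adj] (n b Δ L q D M : ℕ) (col : ℕ → Fin r)
    (hcol : ∀ x y, x < n → y < n → H.Adj x y → col x ≠ col y)
    (hdeg : ∀ x < n, #{y ∈ range n | H.Adj y x} ≤ Δ)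
    (hband : ∀ x y, x < n → y < n → H.Adj x y → x ≤ y + b)
    (hbq : b ≤ q) (hq : 0 < q) (hD : Fintype.card (Fin r → ι) < D) (hn : n ≤ M * (D * q))
    (W : ℝ) (hW : 0 ≤ W) (hMW : M * (1 + Fintype.card ι * (B / r) ^ 2) ≤ W ^ 2)
    (hcap : ∀ i, (B / r) * (D * q) * M + (D * q) * W + M * Fintype.card (Fin r → ι) * q + L
      ≤ (#(V i) : ℝ))
    (hnum : 4 ^ Δ * (e0 * (Δ + 1) + b + 1) ≤ L) :
    ∃ φ : ℕ → α, (∀ x < n, ∀ y < n, φ x = φ y → x = y) ∧
      ∀ x < n, ∀ y < n, H.Adj x y → G.Adj (φ x) (φ y) := by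
  obtain ⟨𝒬, htup, hreach, hprice⟩ := hrich.weighted hr
  obtain ⟨f, hfadj, hfload⟩ := assign Γ 𝒬 htup hreach (B / r) (by positivity) hprice col n q D M
    hq hD hn W hW hMW
  obtain ⟨φ, _, hinj, hadj, _⟩ := greedy_embed G H n b Δ e0 L f V hdisj hdeg hband
    (by
      intro i
      have h1 := hfload i
      have h2 := hcap i
      have h3 : ((#{x ∈ range n | f x = i} + L : ℕ) : ℝ) ≤ #(V i) := by
        push_cast
        linarith
      exact_mod_cast h3)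
    (by
      intro x y hx hy hxy
      apply hreg
      apply hfadj
      · have := hband x y hx hy hxy
        omega
      · have := hband y x hy hx hxy.symm
        omega
      · exact hcol x y hx hy hxy)
    hnum n le_rfl
  exact ⟨φ, hinj, hadj⟩

end Pool.Agent.helper16
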