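import Mathlib
import Pool.Agent.helper16.EmbedRich

set_option autoImplicit false

namespace Pool.Agent.helper16

open Finset

lemma density_eq {α : Type*} [DecidableEq α] (G : SimpleGraph α) [DecidableRel G.Adj]
    (S T : Finset α) : ((G.edgeDensity S T : ℚ) : ℝ) =
      (∑ v ∈ S, (#{w ∈ T | G.Adj v w} : ℝ)) / (#S * #T) := by
  rw [SimpleGraph.edgeDensity_def, SimpleGraph.interedges_def]
  push_cast
  congr 1
  rw [← Nat.cast_sum]
  congr 1
  rw [card_filter, sum_product]
  apply sum_congr rfl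
  intro v _
  rw [card_filter]

lemma uniform_typical {α : Type*} [DecidableEq α] (G : SimpleGraph α) [DecidableRel G.Adj]
    (ε : ℝ) (hε4 : ε ≤ 1 / 4) (s t : Finset α) (h : G.IsUniform ε s t)
    (hd : (1:ℝ) / 2 ≤ ((G.edgeDensity s t : ℚ) : ℝ)) (T : Finset α) (hTt : T ⊆ t)
    (hT : ε * #t ≤ #T) : (#{v ∈ s | 4 * #{w ∈ T | G.Adj v w} < #T} : ℝ) ≤ ε * #s := by
  by_contra hcon
  push Not at hcon
  set S : Finset α := {v ∈ s | 4 * #{w ∈ T | G.Adj v w} < #T} with hS
  have hε := h.pos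
  have hSpos : (0:ℝ) < #S := lt_of_le_of_lt (by positivity) hcon
  have hTpos : (0:ℝ) < #T := by
    have : 0 < #S := by exact_mod_cast hSpos
    obtain ⟨v, hv⟩ := card_pos.1 this
    have := (mem_filter.1 hv).2
    have h2 : 0 < #T := by omega
    exact_mod_cast h2
  have h1 := h (filter_subset _ _ : S ⊆ s) hTt (by linarith) (by linarith)
  have h2 : ((G.edgeDensity S T : ℚ) : ℝ) ≤ 1 / 4 := by
    rw [density_eq, div_le_iff₀ (by positivity)]
    calc ∑ v ∈ S, (#{w ∈ T | G.Adj v w} : ℝ) ≤ ∑ v ∈ S, (1 / 4 * #T : ℝ) := by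
          apply sum_le_sum
          intro v hv
          have h3 := (mem_filter.1 hv).2
          have h4 : (4:ℝ) * #{w ∈ T | G.Adj v w} < #T := by exact_mod_cast h3
          linarith
      _ = 1 / 4 * (#S * #T) := by
          rw [sum_const, nsmul_eq_mul]; ring
  rw [abs_lt] at h1
  linarith [h1.1]

lemma compl_uniform_typical {α : Type*} [DecidableEq α] (G : SimpleGraph α) [DecidableRel G.Adj]
    (ε : ℝ) (hε4 : ε ≤ 1 / 4) (s t : Finset α) (hst : Disjoint s t) (h : G.IsUniform ε s t)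
    (hd : ((G.edgeDensity s t : ℚ) : ℝ) < 1 / 2) (T : Finset α) (hTt : T ⊆ t)
    (hT : ε * #t ≤ #T) : (#{v ∈ s | 4 * #{w ∈ T | Gᶜ.Adj v w} < #T} : ℝ) ≤ ε * #s := by
  by_contra hcon
  push Not at hcon
  set S : Finset α := {v ∈ s | 4 * #{w ∈ T | Gᶜ.Adj v w} < #T} with hS
  have hε := h.pos
  have hSpos : (0:ℝ) < #S := lt_of_le_of_lt (by positivity) hcon
  have hTpos : (0:ℝ) < #T := by
    have : 0 < #S := by exact_mod_cast hSpos
    obtain ⟨v, hv⟩ := card_pos.1 this
    have := (mem_filter.1 hv).2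
    have h2 : 0 < #T := by omega
    exact_mod_cast h2
  have h1 := h (filter_subset _ _ : S ⊆ s) hTt (by linarith) (by linarith)
  have h2 : (3:ℝ) / 4 ≤ ((G.edgeDensity S T : ℚ) : ℝ) := by
    rw [density_eq, le_div_iff₀ (by positivity)]
    calc (3:ℝ) / 4 * (#S * #T) = ∑ v ∈ S, (3 / 4 * #T : ℝ) := by
          rw [sum_const, nsmul_eq_mul]; ring
      _ ≤ ∑ v ∈ S, (#{w ∈ T | G.Adj v w} : ℝ) := by
          apply sum_le_sum
          intro v hv
          have h3 := mem_filter.1 hv
          have h4 : (4:ℝ) * #{w ∈ T | Gᶜ.Adj v w} < #T := by exact_mod_cast h3.2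
          have h5 : #{w ∈ T | G.Adj v w} + #{w ∈ T | Gᶜ.Adj v w} = #T := by
            rw [← card_filter_add_card_filter_not (s := T) (fun w => G.Adj v w)]
            congr 2
            apply filter_congr
            intro w hw
            rw [SimpleGraph.compl_adj]
            constructor
            · rintro ⟨_, h⟩; exact h
            · intro h
              refine ⟨?_, h⟩
              rintro rfl
              exact Finset.disjoint_left.1 hst h3.1 (hTt hw)
          have h6 : (#{w ∈ T | G.Adj v w} : ℝ) + #{w ∈ T | Gᶜ.Adj v w} = #T := by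
            exact_mod_cast h5
          linarith
  rw [abs_lt] at h1
  linarith [h1.2]

/-- The reduced structure obtained from the regularity lemma. -/
theorem exists_reduced (ε : ℝ) (hε : 0 < ε) (hε4 : ε ≤ 1 / 4) (t0 N : ℕ) (ht0 : 0 < t0)
    (hN : t0 ≤ N) (G : SimpleGraph (Fin N)) [DecidableRel G.Adj] :
    ∃ t : ℕ, t0 ≤ t ∧ t ≤ SzemerediRegularity.bound ε t0 ∧ ∃ V : Fin t → Finset (Fin N),
      (∀ i j, i ≠ j → Disjoint (V i) (V j)) ∧ (∀ i, N / t ≤ #(V i)) ∧ (∀ i, #(V i) ≤ N / t + 1) ∧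
      ∃ (R B : SimpleGraph (Fin t)) (_ : DecidableRel R.Adj) (_ : DecidableRel B.Adj),
        (gray R B univ : ℝ) ≤ ε * t ^ 2 ∧
        (∀ i j, R.Adj i j → ∀ T ⊆ V j, ε * #(V j) ≤ #T →
          (#{v ∈ V i | 4 * #{w ∈ T | G.Adj v w} < #T} : ℝ) ≤ ε * #(V i)) ∧
        (∀ i j, B.Adj i j → ∀ T ⊆ V j, ε * #(V j) ≤ #T →
          (#{v ∈ V i | 4 * #{w ∈ T | Gᶜ.Adj v w} < #T} : ℝ) ≤ ε * #(V i)) := by
  classical
  obtain ⟨P, hPeq, hPl, hPu, hPunif⟩ := szemeredi_regularity G hε
    (show t0 ≤ Fintype.card (Fin N) by rw [Fintype.card_fin]; exact hN)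
  set t := #P.parts with ht
  let e : P.parts ≃ Fin t := P.parts.equivFin
  set V : Fin t → Finset (Fin N) := fun i => (e.symm i : Finset (Fin N)) with hV
  have hVmem : ∀ i, V i ∈ P.parts := fun i => (e.symm i).2
  have hVinj : ∀ i j, V i = V j → i = j := by
    intro i j hij
    exact e.symm.injective (Subtype.ext hij)
  have hdisj : ∀ i j, i ≠ j → Disjoint (V i) (V j) := by
    intro i j hij
    exact P.disjoint (hVmem i) (hVmem j) (fun h => hij (hVinj i j h))
  let R : SimpleGraph (Fin t) :=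
    { Adj := fun i j => i ≠ j ∧ G.IsUniform ε (V i) (V j) ∧
        (1:ℝ) / 2 ≤ ((G.edgeDensity (V i) (V j) : ℚ) : ℝ)
      symm := by
        constructor
        rintro i j ⟨h1, h2, h3⟩
        refine ⟨h1.symm, h2.symm, ?_⟩
        rw [SimpleGraph.edgeDensity_comm]
        exact h3
      loopless := by
        constructor
        rintro i ⟨h, _⟩
        exact h rfl }
  let B : SimpleGraph (Fin t) :=
    { Adj := fun i j => i ≠ j ∧ G.IsUniform ε (V i) (V j) ∧
        ((G.edgeDensity (V i) (V j) : ℚ) : ℝ) < 1 / 2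
      symm := by
        constructor
        rintro i j ⟨h1, h2, h3⟩
        refine ⟨h1.symm, h2.symm, ?_⟩
        rw [SimpleGraph.edgeDensity_comm]
        exact h3
      loopless := by
        constructor
        rintro i ⟨h, _⟩
        exact h rfl }
  refine ⟨t, hPl, hPu, V, hdisj, ?_, ?_, R, B, Classical.decRel _, Classical.decRel _, ?_, ?_, ?_⟩
  · intro i
    have := hPeq.average_le_card_part (hVmem i)
    rwa [card_univ, Fintype.card_fin] at this
  · intro i
    have := hPeq.card_part_le_average_add_one (hVmem i)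
    rwa [card_univ, Fintype.card_fin] at this
  · -- gray pairs
    have h1 : @gray (Fin t) _ R B (Classical.decRel _) (Classical.decRel _) univ ≤
        #(P.nonUniforms G ε) := by
      unfold gray
      apply card_le_card_of_injOn (fun e => (V e.1, V e.2))
      · intro e he
        simp only [coe_filter, Set.mem_ofPred_eq] at he
        obtain ⟨_, h1, h2, h3⟩ := he
        rw [mem_coe, Finpartition.mk_mem_nonUniforms]
        refine ⟨hVmem _, hVmem _, fun h => h1 (hVinj _ _ h), ?_⟩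
        intro hu
        by_cases hd : (1:ℝ) / 2 ≤ ((G.edgeDensity (V e.1) (V e.2) : ℚ) : ℝ)
        · exact h2 ⟨h1, hu, hd⟩
        · exact h3 ⟨h1, hu, not_le.1 hd⟩
      · intro e _ e' _ h
        simp only [Prod.mk.injEq] at h
        exact Prod.ext (hVinj _ _ h.1) (hVinj _ _ h.2)
    have h2 : ((#(P.nonUniforms G ε) : ℕ) : ℝ) ≤ (t * (t - 1) : ℕ) * ε := hPunif
    have h3 : ((t * (t - 1) : ℕ) : ℝ) ≤ (t:ℝ) ^ 2 := by
      have : t * (t - 1) ≤ t ^ 2 := by
        rw [sq]; exact Nat.mul_le_mul_left _ (Nat.sub_le _ _)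
      exact_mod_cast this
    calc ((@gray (Fin t) _ R B (Classical.decRel _) (Classical.decRel _) univ : ℕ) : ℝ)
        ≤ #(P.nonUniforms G ε) := by exact_mod_cast h1
      _ ≤ (t * (t - 1) : ℕ) * ε := h2
      _ ≤ (t:ℝ) ^ 2 * ε := mul_le_mul_of_nonneg_right h3 hε.le
      _ = _ := by ring
  · rintro i j ⟨_, hu, hd⟩ T hT hTc
    exact uniform_typical G ε hε4 _ _ hu hd T hT hTc
  · rintro i j ⟨hij, hu, hd⟩ T hT hTc
    have := compl_uniform_typical G ε hε4 _ _ (hdisj i j hij) hu hd T hT hTc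
    convert this

end Pool.Agent.helper16
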