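import Mathlib
import Pool.Agent.helper16.Regular

set_option autoImplicit false

namespace Pool.Agent.helper16

open Finset

lemma num_cap {n MD t T r η K : ℝ} (hn : 0 ≤ n) (hMD : 0 ≤ MD) (ht : 1 ≤ t) (htT : t ≤ T)
    (hr : 2 ≤ r) (hη0 : 0 < η) (hη1 : η ≤ 1) (hK : K ≤ n + MD)
    (hbig : 2 * MD + T ≤ η * n) :
    ((1 - η) * (r + 40) / t) * K + η / (8 * T) * K + η / (8 * T) * K + η * n / (2 * t) ≤
      (r + 40) * n / t - 1 := by
  have ht0 : 0 < t := by linarith
  have hT0 : 0 < T := by linarith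
  have h1 : η / (8 * T) ≤ η / (8 * t) := by
    apply div_le_div_of_nonneg_left hη0.le (by positivity)
    linarith
  have h2 : ((1 - η) * (r + 40) / t) * K + η / (8 * T) * K + η / (8 * T) * K ≤
      ((1 - η) * (r + 40) / t) * (n + MD) + η / (8 * t) * (n + MD) + η / (8 * t) * (n + MD) := by
    have h3 : 0 ≤ (1 - η) * (r + 40) / t := by
      apply div_nonneg _ ht0.le
      apply mul_nonneg <;> linarith
    have h4 : 0 ≤ η / (8 * T) := by positivity
    have h5 := mul_le_mul_of_nonneg_left hK h3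
    have h6 := mul_le_mul_of_nonneg_left hK h4
    have h7 : η / (8 * T) * (n + MD) ≤ η / (8 * t) * (n + MD) :=
      mul_le_mul_of_nonneg_right h1 (by linarith)
    linarith
  have h3 : ((1 - η) * (r + 40) / t) * (n + MD) + η / (8 * t) * (n + MD) +
      η / (8 * t) * (n + MD) + η * n / (2 * t) =
      (((1 - η) * (r + 40)) * (n + MD) + η / 4 * (n + MD) + η * n / 2) / t := by
    field_simp
    ring
  have h4 : (r + 40) * n / t - 1 = ((r + 40) * n - t) / t := by
    field_simp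
  refine (add_le_add h2 le_rfl).trans ?_
  rw [h3, h4]
  apply div_le_div_of_nonneg_right _ ht0.le
  have h5 : η * MD ≥ 0 := by positivity
  have h6 : η * MD ≤ MD := by nlinarith
  have h7 : (2 * MD + T) * (r + 39) ≤ η * n * (r + 39) :=
    mul_le_mul_of_nonneg_right hbig (by linarith)
  nlinarith [mul_nonneg hMD (show (0:ℝ) ≤ r by linarith), mul_nonneg (mul_nonneg hη0.le hMD)
    (show (0:ℝ) ≤ r by linarith), mul_nonneg hT0.le (show (0:ℝ) ≤ r by linarith),
    mul_nonneg hη0.le hn]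

lemma num_hnum {n t T η ε r c E b e0 L : ℝ} (hn : 0 ≤ n) (ht : 1 ≤ t) (htT : t ≤ T)
    (hη0 : 0 < η) (hc : 1 ≤ c) (hE : 1 ≤ E) (hr : 2 ≤ r)
    (hε1 : ε ≤ 1) (hε : ε * (8 * c * E * (r + 40)) ≤ η)
    (hb : b * (8 * c * T) ≤ η * n)
    (he0 : e0 ≤ ε * ((r + 40) * n / t + 1) + 1) (hL : η * n / (2 * t) - 1 ≤ L)
    (hbig : 4 * T * (c * (2 * E + 1) + 1) ≤ η * n) :
    c * (e0 * E + b + 1) ≤ L := by
  have ht0 : 0 < t := by linarith
  have hT0 : 0 < T := by linarith
  have hc0 : 0 < c := by linarith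
  have hE0 : 0 < E := by linarith
  refine le_trans ?_ hL
  -- multiply by t
  have h1 : (c * (e0 * E + b + 1)) * t ≤ (η * n / (2 * t) - 1) * t := by
    have h2 : (η * n / (2 * t) - 1) * t = η * n / 2 - t := by
      field_simp
    rw [h2]
    have h3 : e0 * t ≤ ε * ((r + 40) * n) + 2 * t := by
      have h4 : e0 * t ≤ (ε * ((r + 40) * n / t + 1) + 1) * t :=
        mul_le_mul_of_nonneg_right he0 ht0.le
      have h5 : (ε * ((r + 40) * n / t + 1) + 1) * t = ε * ((r + 40) * n) + ε * t + t := by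
        field_simp
      rw [h5] at h4
      nlinarith
    have h6 : c * E * (ε * ((r + 40) * n)) ≤ η * n / 8 := by
      have h7 := mul_le_mul_of_nonneg_right hε hn
      linarith
    have h8 : c * b * t ≤ η * n / 8 := by
      by_cases hb0 : b ≤ 0
      · have h9 : c * b * t ≤ 0 := by
          have : c * b ≤ 0 := mul_nonpos_of_nonneg_of_nonpos hc0.le hb0
          exact mul_nonpos_of_nonpos_of_nonneg this ht0.le
        have : 0 ≤ η * n := by positivity
        linarith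
      · push Not at hb0
        have h9 : c * b * t ≤ c * b * T := mul_le_mul_of_nonneg_left htT (by positivity)
        linarith
    have h10 : c * E * (e0 * t) ≤ c * E * (ε * ((r + 40) * n) + 2 * t) :=
      mul_le_mul_of_nonneg_left h3 (by positivity)
    have h11 : (c * (2 * E + 1) + 1) * t ≤ (c * (2 * E + 1) + 1) * T :=
      mul_le_mul_of_nonneg_left htT (by positivity)
    nlinarith
  exact le_of_mul_le_mul_right h1 ht0

set_option maxHeartbeats 4000000 in
/-- The main theorem for a fixed number of colours `r ≥ 2` and a fixed maximum degree. -/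
theorem main_fixed (r Δ : ℕ) (hr : 2 ≤ r) : ∃ (n0 : ℕ) (β : ℝ), 0 < β ∧
    ∀ n, n0 ≤ n → ∀ b : ℕ, (b : ℝ) ≤ β * n →
    ∀ (N : ℕ), N = (r + 40) * n → ∀ (G : SimpleGraph (Fin N)) (H : SimpleGraph ℕ)
      [DecidableRel H.Adj] (col : ℕ → Fin r),
      (∀ x y, x < n → y < n → H.Adj x y → col x ≠ col y) →
      (∀ x < n, #{y ∈ range n | H.Adj y x} ≤ Δ) →
      (∀ x y, x < n → y < n → H.Adj x y → x ≤ y + b) →
      ∃ φ : ℕ → Fin N, (∀ x < n, ∀ y < n, φ x = φ y → x = y) ∧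
        ((∀ x < n, ∀ y < n, H.Adj x y → G.Adj (φ x) (φ y)) ∨
         (∀ x < n, ∀ y < n, H.Adj x y → Gᶜ.Adj (φ x) (φ y))) := by
  have hr0 : (2:ℝ) ≤ r := by exact_mod_cast hr
  have hrpos : (0:ℝ) < r := by linarith
  obtain ⟨εc, hεc, t0, ht0, hcore⟩ := core r hr
  set η : ℝ := 1 / (4 * r) with hη
  have hηpos : 0 < η := by positivity
  have hη1 : η ≤ 1 := by
    rw [hη, div_le_one (by positivity)]
    linarith
  set c : ℝ := 4 ^ Δ with hc
  have hc1 : 1 ≤ c := one_le_pow₀ (by norm_num)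
  set E : ℝ := (Δ : ℝ) + 1 with hE
  have hE1 : 1 ≤ E := by
    have : (0:ℝ) ≤ Δ := Nat.cast_nonneg _
    linarith
  have hcpos : 0 < c := by linarith
  have hEpos : 0 < E := by linarith
  set ε : ℝ := min (min εc (1 / 4)) (η / (8 * c * E * (r + 40))) with hε
  have hεpos : 0 < ε := by positivity
  have hε1 : ε ≤ εc := (min_le_left _ _).trans (min_le_left _ _)
  have hε2 : ε ≤ 1 / 4 := (min_le_left _ _).trans (min_le_right _ _)
  have hε3 : ε * (8 * c * E * (r + 40)) ≤ η := by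
    have h1 : ε ≤ η / (8 * c * E * (r + 40)) := min_le_right _ _
    rwa [le_div_iff₀ (by positivity)] at h1
  set T : ℕ := max (SzemerediRegularity.bound ε t0) 1 with hT
  have hT1 : 1 ≤ T := le_max_right _ _
  have hTR : (1:ℝ) ≤ T := by exact_mod_cast hT1
  have hTpos : (0:ℝ) < T := by linarith
  set c0 : ℝ := η / (8 * T) with hc0
  have hc0pos : 0 < c0 := by positivity
  set M : ℕ := ⌈(1 + ((r:ℝ) + 40) ^ 2) / c0 ^ 2⌉₊ + 1 with hM
  have hMpos : 0 < M := by omega
  have hMR : (1 + ((r:ℝ) + 40) ^ 2) ≤ c0 ^ 2 * M := by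
    have h1 : (1 + ((r:ℝ) + 40) ^ 2) / c0 ^ 2 ≤ M := by
      have h2 := Nat.le_ceil ((1 + ((r:ℝ) + 40) ^ 2) / c0 ^ 2)
      rw [hM]
      push_cast
      linarith
    rw [div_le_iff₀ (by positivity)] at h1
    linarith
  set D : ℕ := ⌈(T:ℝ) ^ r / c0⌉₊ + T ^ r + 1 with hD
  have hDpos : 0 < D := by omega
  have hDT : T ^ r < D := by rw [hD]; omega
  have hDR : (T:ℝ) ^ r ≤ c0 * D := by
    have h1 : (T:ℝ) ^ r / c0 ≤ D := by
      have h2 := Nat.le_ceil ((T:ℝ) ^ r / c0)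
      rw [hD]
      push_cast
      have h3 : (0:ℝ) ≤ (T:ℝ) ^ r := by positivity
      linarith
    rw [div_le_iff₀ hc0pos] at h1
    linarith
  have hMRpos : (0:ℝ) < M := by exact_mod_cast hMpos
  have hDRpos : (0:ℝ) < D := by exact_mod_cast hDpos
  set β : ℝ := min (1 / (M * D)) (η / (8 * c * T)) with hβ
  have hβpos : 0 < β := by positivity
  set n0 : ℕ := ⌈(2 * (M * D) + T) / η⌉₊ + ⌈4 * T * (c * (2 * E + 1) + 1) / η⌉₊ + t0 + 1 with hn0
  refine ⟨n0, β, hβpos, ?_⟩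
  intro n hn b hb N hN G H _ col hcol hdeg hband
  classical
  have hnR : (n0 : ℝ) ≤ n := by exact_mod_cast hn
  have hnnn : (0:ℝ) ≤ n := Nat.cast_nonneg _
  have hbig1 : 2 * ((M:ℝ) * D) + T ≤ η * n := by
    have h1 : (2 * ((M:ℝ) * D) + T) / η ≤ n := by
      have h2 := Nat.le_ceil ((2 * ((M:ℝ) * D) + T) / η)
      have h3 : ((⌈(2 * ((M:ℝ) * D) + T) / η⌉₊ : ℕ) : ℝ) ≤ n0 := by
        have : ⌈(2 * ((M:ℝ) * D) + T) / η⌉₊ ≤ n0 := by rw [hn0]; omega
        exact_mod_cast this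
      linarith
    rw [div_le_iff₀ hηpos] at h1
    linarith
  have hbig2 : 4 * T * (c * (2 * E + 1) + 1) ≤ η * n := by
    have h1 : 4 * T * (c * (2 * E + 1) + 1) / η ≤ n := by
      have h2 := Nat.le_ceil (4 * T * (c * (2 * E + 1) + 1) / η)
      have h3 : ((⌈4 * T * (c * (2 * E + 1) + 1) / η⌉₊ : ℕ) : ℝ) ≤ n0 := by
        have : ⌈4 * T * (c * (2 * E + 1) + 1) / η⌉₊ ≤ n0 := by rw [hn0]; omega
        exact_mod_cast this
      linarith
    rw [div_le_iff₀ hηpos] at h1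
    linarith
  have hNt0 : t0 ≤ N := by
    have h1 : t0 ≤ n := by omega
    have h2 : n ≤ N := by rw [hN]; exact Nat.le_mul_of_pos_left n (by omega)
    omega
  obtain ⟨t, htt0, httb, V, hVdisj, hVlow, hVup, R, Bl, _, _, hgray, hR, hBl⟩ :=
    exists_reduced ε hεpos hε2 t0 N ht0 hNt0 G
  have htpos : 0 < t := by omega
  have htT : t ≤ T := httb.trans (le_max_left _ _)
  have htR : (1:ℝ) ≤ t := by exact_mod_cast htpos
  have htR0 : (0:ℝ) < t := by linarith
  have htTR : (t:ℝ) ≤ T := by exact_mod_cast htT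
  set Bv : ℝ := (1 - 1 / (4 * r)) * (r * (r + 40)) / t with hBv
  have hBvr : Bv / r = (1 - η) * (r + 40) / t := by
    rw [hBv, hη]
    field_simp
  have hBv0 : 0 ≤ Bv := by
    rw [hBv]
    apply div_nonneg _ htR0.le
    apply mul_nonneg
    · rw [← hη]; linarith
    · positivity
  have hcr := hcore (Fin t) R Bl (by rw [Fintype.card_fin]; exact htt0) (by
    rw [Fintype.card_fin]
    exact hgray.trans (mul_le_mul_of_nonneg_right hε1 (by positivity)))
  rw [Fintype.card_fin] at hcr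
  -- common parameters
  set q : ℕ := n / (M * D) + 1 with hq
  set L : ℕ := ⌊η * n / (2 * t)⌋₊ with hL
  set e0 : ℕ := ⌈ε * ((N / t : ℕ) + 1 : ℝ)⌉₊ with he0
  have hNtR : ((N / t : ℕ) : ℝ) ≤ (r + 40) * n / t := by
    have h1 : ((N / t : ℕ) : ℝ) ≤ (N : ℝ) / t := Nat.cast_div_le
    rw [hN] at h1
    push_cast at h1
    rw [hN]
    exact h1
  have hNtlow : ((r:ℝ) + 40) * n / t - 1 ≤ ((N / t : ℕ) : ℝ) := by
    have h1 : N < t * (N / t + 1) := Nat.lt_mul_div_succ N htpos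
    have h2 : (N : ℝ) < t * ((N / t : ℕ) + 1) := by exact_mod_cast h1
    have h3 : ((r:ℝ) + 40) * n < t * ((N / t : ℕ) + 1) := by
      rw [hN] at h2 ⊢
      push_cast at h2 ⊢
      exact h2
    rw [sub_le_iff_le_add, div_le_iff₀ htR0]
    linarith
  have hMDpos : 0 < M * D := Nat.mul_pos hMpos hDpos
  have hMDR : (0:ℝ) < (M:ℝ) * D := mul_pos hMRpos hDRpos
  have hqR : (q:ℝ) ≤ n / (M * D) + 1 := by
    rw [hq]
    push_cast
    have : ((n / (M * D) : ℕ) : ℝ) ≤ (n:ℝ) / ((M * D : ℕ) : ℝ) := Nat.cast_div_le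
    push_cast at this
    linarith
  have hKle : (M:ℝ) * D * q ≤ n + M * D := by
    calc (M:ℝ) * D * q ≤ M * D * (n / (M * D) + 1) := mul_le_mul_of_nonneg_left hqR hMDR.le
      _ = n + M * D := by field_simp
  have hbq : b ≤ q := by
    have h1 : (b:ℝ) ≤ n / (M * D) := by
      have h2 : β ≤ 1 / (M * D) := min_le_left _ _
      calc (b:ℝ) ≤ β * n := hb
        _ ≤ 1 / (M * D) * n := mul_le_mul_of_nonneg_right h2 hnnn
        _ = n / (M * D) := by ring
    have h3 : b * (M * D) ≤ n := by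
      rw [le_div_iff₀ hMDR] at h1
      exact_mod_cast h1
    have h4 : b ≤ n / (M * D) := (Nat.le_div_iff_mul_le hMDpos).2 h3
    omega
  have hcardfun : Fintype.card (Fin r → Fin t) = t ^ r := by simp
  have htrT : t ^ r ≤ T ^ r := Nat.pow_le_pow_left htT r
  have hDc : Fintype.card (Fin r → Fin t) < D := by
    rw [hcardfun]; omega
  have hnMDq : n ≤ M * (D * q) := by
    have h1 : n < (M * D) * (n / (M * D) + 1) := Nat.lt_mul_div_succ n hMDpos
    rw [← mul_assoc]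
    exact h1.le
  have hWnn : 0 ≤ c0 * M := by positivity
  have hMW : (M:ℝ) * (1 + Fintype.card (Fin t) * (Bv / r) ^ 2) ≤ (c0 * M) ^ 2 := by
    rw [Fintype.card_fin, hBvr]
    have h1 : (t:ℝ) * ((1 - η) * (r + 40) / t) ^ 2 ≤ ((r:ℝ) + 40) ^ 2 := by
      have h2 : (t:ℝ) * ((1 - η) * (r + 40) / t) ^ 2 = ((1 - η) * (r + 40)) ^ 2 / t := by
        field_simp
      rw [h2, div_le_iff₀ htR0]
      have h3 : ((1 - η) * ((r:ℝ) + 40)) ^ 2 ≤ ((r:ℝ) + 40) ^ 2 := by
        apply pow_le_pow_left₀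
        · apply mul_nonneg <;> linarith
        · have : (1 - η) * ((r:ℝ) + 40) ≤ 1 * (r + 40) :=
            mul_le_mul_of_nonneg_right (by linarith) (by linarith)
          linarith
      have h4 : ((r:ℝ) + 40) ^ 2 * 1 ≤ ((r:ℝ) + 40) ^ 2 * t :=
        mul_le_mul_of_nonneg_left htR (by positivity)
      linarith
    calc (M:ℝ) * (1 + t * ((1 - η) * (r + 40) / t) ^ 2) ≤ M * (1 + ((r:ℝ) + 40) ^ 2) :=
          mul_le_mul_of_nonneg_left (by linarith) hMRpos.le
      _ ≤ M * (c0 ^ 2 * M) := mul_le_mul_of_nonneg_left hMR hMRpos.le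
      _ = (c0 * M) ^ 2 := by ring
  have hLR : (L:ℝ) ≤ η * n / (2 * t) := Nat.floor_le (by positivity)
  have hLR2 : η * n / (2 * t) - 1 ≤ L := by
    have := Nat.lt_floor_add_one (η * n / (2 * t))
    linarith
  have hcap : ∀ i, (Bv / r) * (D * q) * M + (D * q) * (c0 * M) +
      M * Fintype.card (Fin r → Fin t) * q + L ≤ (#(V i) : ℝ) := by
    intro i
    have h1 : ((N / t : ℕ) : ℝ) ≤ #(V i) := by exact_mod_cast hVlow i
    have h2 : ((M:ℝ) * Fintype.card (Fin r → Fin t)) * q ≤ c0 * (M * D * q) := by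
      have h3 : ((Fintype.card (Fin r → Fin t) : ℕ) : ℝ) ≤ c0 * D := by
        rw [hcardfun]
        have h4 : ((t ^ r : ℕ) : ℝ) ≤ (T:ℝ) ^ r := by exact_mod_cast htrT
        linarith
      calc ((M:ℝ) * Fintype.card (Fin r → Fin t)) * q ≤ (M * (c0 * D)) * q := by
            apply mul_le_mul_of_nonneg_right _ (Nat.cast_nonneg _)
            exact mul_le_mul_of_nonneg_left h3 hMRpos.le
        _ = _ := by ring
    have h5 := num_cap (n := (n:ℝ)) (MD := (M:ℝ) * D) (t := (t:ℝ)) (T := (T:ℝ)) (r := (r:ℝ))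
      (η := η) (K := (M:ℝ) * D * q) hnnn hMDR.le htR htTR hr0 hηpos hη1 hKle hbig1
    rw [hBvr]
    have h6 : (1 - η) * (r + 40) / t * (D * q) * M = (1 - η) * (r + 40) / t * (M * D * q) := by
      ring
    have h7 : ((D:ℝ) * q) * (c0 * M) = c0 * (M * D * q) := by ring
    rw [h6, h7]
    linarith
  have hnumR : c * ((e0:ℝ) * E + b + 1) ≤ L := by
    apply num_hnum (n := (n:ℝ)) (t := (t:ℝ)) (T := (T:ℝ)) (η := η) (ε := ε) (r := (r:ℝ)) hnnn htR
      htTR hηpos hc1 hE1 hr0 (by linarith) hε3 _ _ hLR2 hbig2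
    · have h1 : β ≤ η / (8 * c * T) := min_le_right _ _
      have h2 : (b:ℝ) ≤ η / (8 * c * T) * n := hb.trans (mul_le_mul_of_nonneg_right h1 hnnn)
      have h3 : η / (8 * c * T) * n = η * n / (8 * c * T) := by ring
      rw [h3, le_div_iff₀ (by positivity)] at h2
      exact h2
    · have h1 : (e0:ℝ) < ε * ((N / t : ℕ) + 1 : ℝ) + 1 := Nat.ceil_lt_add_one (by positivity)
      have h2 : ε * ((N / t : ℕ) + 1 : ℝ) ≤ ε * ((r + 40) * n / t + 1) :=
        mul_le_mul_of_nonneg_left (by linarith) hεpos.le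
      linarith
  have hnum : 4 ^ Δ * (e0 * (Δ + 1) + b + 1) ≤ L := by
    have h1 : ((4 ^ Δ * (e0 * (Δ + 1) + b + 1) : ℕ) : ℝ) ≤ L := by
      push_cast
      exact hnumR
    exact_mod_cast h1
  have he0R : ∀ i, ε * (#(V i) : ℝ) ≤ e0 := by
    intro i
    have h1 : (#(V i) : ℝ) ≤ (N / t : ℕ) + 1 := by exact_mod_cast hVup i
    calc ε * (#(V i) : ℝ) ≤ ε * ((N / t : ℕ) + 1) := mul_le_mul_of_nonneg_left h1 hεpos.le
      _ ≤ e0 := Nat.le_ceil _
  rcases hcr with hcr | hcr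
  · obtain ⟨φ, h1, h2⟩ := embed_rich G V hVdisj R e0
      (by
        intro i j hij S hS hSc
        have h3 := hR i j hij S hS ((he0R j).trans (by exact_mod_cast hSc))
        have h4 := h3.trans (he0R i)
        exact_mod_cast h4)
      r (by omega) Bv hBv0 hcr H n b Δ L q D M col hcol hdeg hband hbq (Nat.succ_pos _) hDc hnMDq
      (c0 * M) hWnn hMW hcap hnum
    exact ⟨φ, h1, Or.inl h2⟩
  · obtain ⟨φ, h1, h2⟩ := embed_rich Gᶜ V hVdisj Bl e0
      (by
        intro i j hij S hS hSc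
        have h3 := hBl i j hij S hS ((he0R j).trans (by exact_mod_cast hSc))
        have h4 := h3.trans (he0R i)
        convert Nat.cast_le.1 h4)
      r (by omega) Bv hBv0 hcr H n b Δ L q D M col hcol hdeg hband hbq (Nat.succ_pos _) hDc hnMDq
      (c0 * M) hWnn hMW hcap hnum
    exact ⟨φ, h1, Or.inr h2⟩

end Pool.Agent.helper16
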