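import Mathlib
import Pool.Agent.helper16.Fixed

set_option autoImplicit false

namespace Pool.Agent.helper16

open Finset

/-- Uniformity over all numbers of colours up to `R`. -/
lemma main_uniform (Δ R : ℕ) : ∃ (n0 : ℕ) (β : ℝ), 0 < β ∧
    ∀ r, 2 ≤ r → r ≤ R → ∀ n, n0 ≤ n → ∀ b : ℕ, (b : ℝ) ≤ β * n →
    ∀ (N : ℕ), N = (r + 40) * n → ∀ (G : SimpleGraph (Fin N)) (H : SimpleGraph ℕ)
      [DecidableRel H.Adj] (col : ℕ → Fin r),
      (∀ x y, x < n → y < n → H.Adj x y → col x ≠ col y) →
      (∀ x < n, #{y ∈ range n | H.Adj y x} ≤ Δ) →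
      (∀ x y, x < n → y < n → H.Adj x y → x ≤ y + b) →
      ∃ φ : ℕ → Fin N, (∀ x < n, ∀ y < n, φ x = φ y → x = y) ∧
        ((∀ x < n, ∀ y < n, H.Adj x y → G.Adj (φ x) (φ y)) ∨
         (∀ x < n, ∀ y < n, H.Adj x y → Gᶜ.Adj (φ x) (φ y))) := by
  induction R with
  | zero =>
    exact ⟨0, 1, one_pos, fun r h1 h2 => by omega⟩
  | succ R ih =>
    obtain ⟨n1, β1, hβ1, h1⟩ := ih
    by_cases hR : 2 ≤ R + 1
    · obtain ⟨n2, β2, hβ2, h2⟩ := main_fixed (R + 1) Δ hR
      refine ⟨max n1 n2, min β1 β2, lt_min hβ1 hβ2, ?_⟩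
      intro r hr hrR n hn b hb
      have hn0 : (0:ℝ) ≤ n := Nat.cast_nonneg _
      have hb1 : (b:ℝ) ≤ β1 * n := hb.trans (mul_le_mul_of_nonneg_right (min_le_left _ _) hn0)
      have hb2 : (b:ℝ) ≤ β2 * n := hb.trans (mul_le_mul_of_nonneg_right (min_le_right _ _) hn0)
      by_cases hlt : r ≤ R
      · exact h1 r hr hlt n (le_trans (le_max_left _ _) hn) b hb1
      · have : r = R + 1 := by omega
        subst this
        exact h2 n (le_trans (le_max_right _ _) hn) b hb2
    · refine ⟨n1, β1, hβ1, ?_⟩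
      intro r hr hrR
      exact h1 r hr (by omega)

/-- Greedy colouring: a finite graph of maximum degree at most `Δ` is `(Δ + 1)`-colourable. -/
lemma greedy_colour {V : Type*} [Fintype V] (H : SimpleGraph V) [DecidableRel H.Adj] (Δ : ℕ)
    (hdeg : H.maxDegree ≤ Δ) : H.Colorable (Δ + 1) := by
  classical
  have key : ∀ T : Finset V, ∃ c : V → Fin (Δ + 1), ∀ x ∈ T, ∀ y ∈ T, H.Adj x y → c x ≠ c y := by
    intro T
    induction T using Finset.induction_on with
    | empty => exact ⟨fun _ => 0, by simp⟩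
    | insert v T hv ih =>
      obtain ⟨c, hc⟩ := ih
      have h1 : #((H.neighborFinset v).image c) < #(univ : Finset (Fin (Δ + 1))) := by
        rw [card_univ, Fintype.card_fin]
        have h2 : #((H.neighborFinset v).image c) ≤ #(H.neighborFinset v) := card_image_le
        have h3 := H.degree_le_maxDegree v
        rw [← SimpleGraph.card_neighborFinset_eq_degree] at h3
        omega
      obtain ⟨a, _, ha⟩ := exists_mem_notMem_of_card_lt_card h1
      have hav : ∀ y, H.Adj v y → c y ≠ a := by
        intro y hy h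
        apply ha
        rw [mem_image]
        exact ⟨y, by rwa [SimpleGraph.mem_neighborFinset], h⟩
      refine ⟨Function.update c v a, ?_⟩
      intro x hx y hy hxy
      rw [mem_insert] at hx hy
      by_cases hxv : x = v
      · subst hxv
        have hyx : y ≠ x := (H.ne_of_adj hxy).symm
        rw [Function.update_self, Function.update_of_ne hyx]
        exact (hav y hxy).symm
      · rw [Function.update_of_ne hxv]
        by_cases hyv : y = v
        · subst hyv
          rw [Function.update_self]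
          exact hav x hxy.symm
        · rw [Function.update_of_ne hyv]
          exact hc x (hx.resolve_left hxv) y (hy.resolve_left hyv) hxy
  obtain ⟨c, hc⟩ := key univ
  exact ⟨SimpleGraph.Coloring.mk c (fun {x y} hxy => hc x (mem_univ _) y (mem_univ _) hxy)⟩

end Pool.Agent.helper16
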